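import Mathlib

/-!
# From the weights `√(g + 1) - √g` to natural density
-/

set_option autoImplicit false

namespace Pool.Agent.H595.SH

open Finset Filter
open scoped Topology

/-- The weight of `g`. -/
noncomputable def vg (g : ℕ) : ℝ := √((g : ℝ) + 1) - √(g : ℝ)

/-- Its inverse. -/
noncomputable def sg (g : ℕ) : ℝ := √((g : ℝ) + 1) + √(g : ℝ)

theorem vg_mul_sg (g : ℕ) : vg g * sg g = 1 := by
  unfold vg sg
  have h1 : √((g : ℝ) + 1) * √((g : ℝ) + 1) = (g : ℝ) + 1 := Real.mul_self_sqrt (by positivity)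
  have h2 : √(g : ℝ) * √(g : ℝ) = (g : ℝ) := Real.mul_self_sqrt (by positivity)
  nlinarith

theorem sg_pos (g : ℕ) : 0 < sg g := by
  unfold sg
  have h1 : 0 < √((g : ℝ) + 1) := Real.sqrt_pos.2 (by positivity)
  have h2 : 0 ≤ √(g : ℝ) := Real.sqrt_nonneg _
  linarith

theorem vg_pos (g : ℕ) : 0 < vg g := by
  have h1 := vg_mul_sg g
  have h2 := sg_pos g
  by_contra hcon
  push Not at hcon
  nlinarith

theorem vg_eq (g : ℕ) : vg g = 1 / sg g := by
  rw [eq_div_iff (sg_pos g).ne']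
  exact vg_mul_sg g

theorem vg_anti (g : ℕ) : vg (g + 1) ≤ vg g := by
  rw [vg_eq, vg_eq]
  refine one_div_le_one_div_of_le (sg_pos g) ?_
  unfold sg
  push_cast
  have h1 : √((g : ℝ) + 1) ≤ √((g : ℝ) + 1 + 1) := Real.sqrt_le_sqrt (by linarith)
  have h2 : √(g : ℝ) ≤ √((g : ℝ) + 1) := Real.sqrt_le_sqrt (by linarith)
  linarith

/-- The weighted sum. -/
noncomputable def VS (b : ℕ → ℝ) (M : ℕ) : ℝ := ∑ g ∈ range M, b g * vg g

theorem abel_id (b : ℕ → ℝ) (l : ℝ) (M : ℕ) : ∑ g ∈ range M, b g = l * M + (VS b M - l * √(M : ℝ)) * sg M -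
    ∑ g ∈ range M, (VS b (g + 1) - l * √((g : ℝ) + 1)) * (sg (g + 1) - sg g) := by
  induction M with
  | zero => simp [VS]
  | succ M ih =>
    rw [Finset.sum_range_succ, Finset.sum_range_succ, ih]
    have h1 : VS b (M + 1) = VS b M + b M * vg M := by unfold VS; rw [Finset.sum_range_succ]
    have h2 := vg_mul_sg M
    have h3 : √((M : ℝ) + 1) = √(M : ℝ) + vg M := by unfold vg; ring
    push_cast
    rw [h1, h3]
    linear_combination (l - b M) * h2

theorem abel {b : ℕ → ℝ} {l : ℝ} (h : Tendsto (fun M : ℕ => VS b M / √(M : ℝ)) atTop (𝓝 l)) :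
    Tendsto (fun M : ℕ => (∑ g ∈ range M, b g) / (M : ℝ)) atTop (𝓝 l) := by
  have h1 : Tendsto (fun M : ℕ => (VS b M - l * √(M : ℝ)) / √(M : ℝ)) atTop (𝓝 0) := by
    have h2 := h.sub_const l
    rw [sub_self] at h2
    refine h2.congr' ?_
    filter_upwards [eventually_gt_atTop 0] with M hM
    have h3 : 0 < √(M : ℝ) := Real.sqrt_pos.2 (by exact_mod_cast hM)
    field_simp
  have h2 : Tendsto (fun M : ℕ => (VS b M - l * √(M : ℝ)) * sg M / M) atTop (𝓝 0) := by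
    have h3 := h1.norm.mul_const 3
    rw [norm_zero, zero_mul] at h3
    refine squeeze_zero_norm' ?_ h3
    filter_upwards [eventually_gt_atTop 0] with M hM
    have hM0 : (0 : ℝ) < M := by exact_mod_cast hM
    have hM1 : (1 : ℝ) ≤ M := by exact_mod_cast hM
    have h4 : 0 < √(M : ℝ) := Real.sqrt_pos.2 hM0
    have h5 : √(M : ℝ) * √(M : ℝ) = M := Real.mul_self_sqrt hM0.le
    have h6 : sg M ≤ 3 * √(M : ℝ) := by
      unfold sg
      have h7 : √((M : ℝ) + 1) ≤ 2 * √(M : ℝ) := by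
        rw [Real.sqrt_le_left (by positivity)]
        nlinarith
      linarith
    rw [norm_div, norm_mul, Real.norm_of_nonneg (sg_pos M).le, Real.norm_of_nonneg hM0.le, norm_div,
      Real.norm_of_nonneg h4.le, div_le_iff₀ hM0]
    have h7 : ‖VS b M - l * √(M : ℝ)‖ / √(M : ℝ) * 3 * M = ‖VS b M - l * √(M : ℝ)‖ * (3 * √(M : ℝ)) := by
      have h8 : (M : ℝ) / √(M : ℝ) = √(M : ℝ) := by
        rw [div_eq_iff h4.ne']
        exact h5.symm
      calc ‖VS b M - l * √(M : ℝ)‖ / √(M : ℝ) * 3 * M = ‖VS b M - l * √(M : ℝ)‖ * 3 * (M / √(M : ℝ)) := by ring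
        _ = _ := by rw [h8]; ring
    rw [h7]
    exact mul_le_mul_of_nonneg_left h6 (norm_nonneg _)
  have h3 : Tendsto (fun g : ℕ => (VS b (g + 1) - l * √((g : ℝ) + 1)) * (sg (g + 1) - sg g)) atTop (𝓝 0) := by
    have h4 := ((h1.comp (tendsto_add_atTop_nat 1)).norm).mul_const 2
    rw [norm_zero, zero_mul] at h4
    refine squeeze_zero_norm' (Eventually.of_forall fun g => ?_) h4
    have h5 : 0 < √((g : ℝ) + 1) := Real.sqrt_pos.2 (by positivity)
    have h6 : √((g : ℝ) + 1) * √((g : ℝ) + 1) = (g : ℝ) + 1 := Real.mul_self_sqrt (by positivity)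
    have h7 : √((g : ℝ) + 1 + 1) * √((g : ℝ) + 1 + 1) = (g : ℝ) + 1 + 1 := Real.mul_self_sqrt (by positivity)
    have h8 : √(g : ℝ) * √(g : ℝ) = (g : ℝ) := Real.mul_self_sqrt (by positivity)
    have h9 : √((g : ℝ) + 1) ≤ √((g : ℝ) + 1 + 1) := Real.sqrt_le_sqrt (by linarith)
    have h10 : √(g : ℝ) ≤ √((g : ℝ) + 1) := Real.sqrt_le_sqrt (by linarith)
    have h11 : 0 ≤ √(g : ℝ) := Real.sqrt_nonneg _
    have e1 : sg (g + 1) - sg g = √((g : ℝ) + 1 + 1) - √(g : ℝ) := by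
      unfold sg
      push_cast
      ring
    have e2 : (√((g : ℝ) + 1 + 1) - √(g : ℝ)) * √((g : ℝ) + 1) ≤ 2 := by nlinarith
    rw [norm_mul, e1, Real.norm_of_nonneg (by linarith : 0 ≤ √((g : ℝ) + 1 + 1) - √(g : ℝ))]
    show _ ≤ ‖(VS b (g + 1) - l * √((g + 1 : ℕ) : ℝ)) / √((g + 1 : ℕ) : ℝ)‖ * 2
    push_cast
    rw [norm_div, Real.norm_of_nonneg h5.le, div_mul_eq_mul_div, le_div_iff₀ h5, mul_assoc]
    exact mul_le_mul_of_nonneg_left e2 (norm_nonneg _)
  have h4 := h3.cesaro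
  have h5 := (h2.sub h4).add_const l
  rw [sub_zero, zero_add] at h5
  refine h5.congr' ?_
  filter_upwards [eventually_gt_atTop 0] with M hM
  have hM0 : (0 : ℝ) < M := by exact_mod_cast hM
  rw [abel_id b l M]
  field_simp
  ring

end Pool.Agent.H595.SH
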