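import Pool.Agent.H595.SH.Abel
import Pool.Agent.H595.AS.Abs

/-!
# From logarithmic density in `x` to natural density in `g`, for `x` near `ρ g ^ (1/4) exp (√g)`
-/

set_option autoImplicit false

namespace Pool.Agent.H595.SH

open Finset Filter Pool.Agent.H595.AS
open scoped Topology

/-- The scale belonging to `g`. -/
noncomputable def YY (ρ : ℝ) (g : ℕ) : ℝ := ρ * (g : ℝ) ^ (1 / 4 : ℝ) * Real.exp √(g : ℝ)

noncomputable def nn (ρ : ℝ) (g : ℕ) : ℕ := ⌊YY ρ g⌋₊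

theorem YY_nonneg {ρ : ℝ} (hρ : 0 < ρ) (g : ℕ) : 0 ≤ YY ρ g := by unfold YY; positivity

theorem YY_pos {ρ : ℝ} (hρ : 0 < ρ) {g : ℕ} (hg : 1 ≤ g) : 0 < YY ρ g := by
  unfold YY
  have : (0 : ℝ) < g := by exact_mod_cast hg
  positivity

theorem YY_mono {ρ : ℝ} (hρ : 0 < ρ) : Monotone (YY ρ) := by
  intro a b hab
  unfold YY
  have h1 : (a : ℝ) ≤ b := by exact_mod_cast hab
  have h2 : (a : ℝ) ^ (1 / 4 : ℝ) ≤ (b : ℝ) ^ (1 / 4 : ℝ) := Real.rpow_le_rpow (Nat.cast_nonneg _) h1 (by norm_num)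
  have h3 : Real.exp √(a : ℝ) ≤ Real.exp √(b : ℝ) := Real.exp_le_exp.2 (Real.sqrt_le_sqrt h1)
  exact mul_le_mul (mul_le_mul_of_nonneg_left h2 hρ.le) h3 (Real.exp_pos _).le (by positivity)

theorem nn_mono {ρ : ℝ} (hρ : 0 < ρ) : Monotone (nn ρ) := fun _ _ hab => Nat.floor_le_floor (YY_mono hρ hab)

theorem nn_zero (ρ : ℝ) : nn ρ 0 = 0 := by
  unfold nn YY
  rw [Nat.cast_zero, Real.zero_rpow (by norm_num), mul_zero, zero_mul, Nat.floor_zero]

theorem log_YY {ρ : ℝ} (hρ : 0 < ρ) {g : ℕ} (hg : 1 ≤ g) : Real.log (YY ρ g) = √(g : ℝ) + 1 / 4 * Real.log g + Real.log ρ := by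
  unfold YY
  have h1 : (0 : ℝ) < g := by exact_mod_cast hg
  rw [Real.log_mul (by positivity) (Real.exp_pos _).ne', Real.log_mul hρ.ne' (by positivity), Real.log_exp, Real.log_rpow h1]
  ring

theorem YY_ge {ρ : ℝ} (hρ : 0 < ρ) {g : ℕ} (hg : 1 ≤ g) : ρ * g / 2 ≤ YY ρ g := by
  have h1 : (1 : ℝ) ≤ g := by exact_mod_cast hg
  have h2 : 1 ≤ (g : ℝ) ^ (1 / 4 : ℝ) := Real.one_le_rpow h1 (by norm_num)
  have h3 := Real.quadratic_le_exp_of_nonneg (Real.sqrt_nonneg (g : ℝ))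
  have h4 : √(g : ℝ) ^ 2 = g := Real.sq_sqrt (by linarith)
  have h5 := Real.sqrt_nonneg (g : ℝ)
  have h6 : (g : ℝ) / 2 ≤ Real.exp √(g : ℝ) := by nlinarith
  unfold YY
  calc ρ * g / 2 = ρ * 1 * (g / 2) := by ring
    _ ≤ ρ * (g : ℝ) ^ (1 / 4 : ℝ) * Real.exp √(g : ℝ) :=
        mul_le_mul (mul_le_mul_of_nonneg_left h2 hρ.le) h6 (by positivity) (by positivity)

theorem YY_tendsto {ρ : ℝ} (hρ : 0 < ρ) : Tendsto (YY ρ) atTop atTop := by
  have h1 : Tendsto (fun g : ℕ => ρ / 2 * (g : ℝ)) atTop atTop :=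
    Tendsto.const_mul_atTop (by positivity) tendsto_natCast_atTop_atTop
  refine tendsto_atTop_mono' _ ?_ h1
  filter_upwards [eventually_ge_atTop 1] with g hg
  refine le_trans (le_of_eq (by ring)) (YY_ge hρ hg)

theorem nn_tendsto {ρ : ℝ} (hρ : 0 < ρ) : Tendsto (nn ρ) atTop atTop :=
  tendsto_nat_floor_atTop.comp (YY_tendsto hρ)

theorem sum_inv {m n : ℕ} (hm : 1 ≤ m) (hmn : m ≤ n) : Real.log (n + 1) - Real.log (m + 1) ≤ ∑ x ∈ Ioc m n, 1 / (x : ℝ) ∧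
    ∑ x ∈ Ioc m n, 1 / (x : ℝ) ≤ Real.log n - Real.log m := by
  induction n, hmn using Nat.le_induction with
  | base => simp
  | succ n hn ih =>
    obtain ⟨h1, h2⟩ := ih
    have hn0 : (0 : ℝ) < n := by exact_mod_cast (by omega : 0 < n)
    rw [← Finset.sum_Ioc_consecutive (fun x : ℕ => 1 / (x : ℝ)) hn (Nat.le_succ n), Nat.Ioc_succ_singleton, Finset.sum_singleton]
    push_cast
    have e1 := Real.one_sub_inv_le_log_of_pos (show 0 < ((n : ℝ) + 1) / n by positivity)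
    have e2 := Real.log_le_sub_one_of_pos (show 0 < ((n : ℝ) + 1 + 1) / (n + 1) by positivity)
    rw [Real.log_div (by positivity) (by positivity)] at e1 e2
    have e3 : 1 - (((n : ℝ) + 1) / n)⁻¹ = 1 / ((n : ℝ) + 1) := by
      field_simp
      ring
    have e4 : ((n : ℝ) + 1 + 1) / (n + 1) - 1 = 1 / ((n : ℝ) + 1) := by
      field_simp
      ring
    rw [e3] at e1
    rw [e4] at e2
    constructor <;> linarith

/-- The weight of a block. -/
noncomputable def wg (ρ : ℝ) (g : ℕ) : ℝ := ∑ x ∈ Ioc (nn ρ g) (nn ρ (g + 1)), 1 / (x : ℝ)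

theorem wg_bound {ρ : ℝ} (hρ : 0 < ρ) : ∃ K : ℝ, 0 ≤ K ∧ ∀ᶠ g : ℕ in atTop, |wg ρ g - vg g| ≤ K / g := by
  refine ⟨1 / 4 + 4 / ρ, by positivity, ?_⟩
  filter_upwards [(YY_tendsto hρ).eventually_ge_atTop 2, eventually_ge_atTop 1] with g h1 h2
  have hg : (0 : ℝ) < g := by exact_mod_cast h2
  have h3 : YY ρ g ≤ YY ρ (g + 1) := YY_mono hρ (Nat.le_succ g)
  have hn1 : 1 ≤ nn ρ g := by
    unfold nn
    exact Nat.le_floor (by rw [Nat.cast_one]; linarith)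
  have hn2 : nn ρ g ≤ nn ρ (g + 1) := nn_mono hρ (Nat.le_succ g)
  obtain ⟨h4, h5⟩ := sum_inv hn1 hn2
  have hf1 : (nn ρ g : ℝ) ≤ YY ρ g := Nat.floor_le (by linarith)
  have hf2 : YY ρ g < nn ρ g + 1 := Nat.lt_floor_add_one _
  have hf3 : (nn ρ (g + 1) : ℝ) ≤ YY ρ (g + 1) := Nat.floor_le (by linarith)
  have hf4 : YY ρ (g + 1) < nn ρ (g + 1) + 1 := Nat.lt_floor_add_one _
  have hn0 : (0 : ℝ) < nn ρ g := by exact_mod_cast hn1
  have hn0' : (0 : ℝ) < nn ρ (g + 1) := lt_of_lt_of_le hn0 (by exact_mod_cast hn2)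
  have hY0 : 0 < YY ρ g := by linarith
  have l1 : Real.log (nn ρ (g + 1)) ≤ Real.log (YY ρ (g + 1)) := Real.log_le_log hn0' hf3
  have l2 : Real.log (YY ρ g) ≤ Real.log (nn ρ g + 1) := Real.log_le_log hY0 hf2.le
  have l3 : Real.log (YY ρ (g + 1)) ≤ Real.log (nn ρ (g + 1) + 1) := Real.log_le_log (by linarith) hf4.le
  have l4 : Real.log (nn ρ g) ≤ Real.log (YY ρ g) := Real.log_le_log hn0 hf1
  have l5 : Real.log (nn ρ g + 1) ≤ Real.log (nn ρ g) + 1 / nn ρ g := by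
    have e2 := Real.log_le_sub_one_of_pos (show 0 < ((nn ρ g : ℝ) + 1) / nn ρ g by positivity)
    rw [Real.log_div (by positivity) (by positivity)] at e2
    have e4 : ((nn ρ g : ℝ) + 1) / nn ρ g - 1 = 1 / (nn ρ g : ℝ) := by
      field_simp
      ring
    linarith
  have l6 : 1 / (nn ρ g : ℝ) ≤ 4 / ρ / g := by
    have e1 : YY ρ g / 2 ≤ nn ρ g := by linarith
    have e2 := YY_ge hρ h2
    rw [div_div, div_le_div_iff₀ hn0 (by positivity)]
    nlinarith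
  have l7 : Real.log (YY ρ (g + 1)) - Real.log (YY ρ g) = vg g + 1 / 4 * (Real.log (g + 1) - Real.log g) := by
    rw [log_YY hρ h2, log_YY hρ (by omega)]
    unfold vg
    push_cast
    ring
  have l8 : Real.log (g : ℝ) ≤ Real.log (g + 1) := Real.log_le_log hg (by linarith)
  have l9 : Real.log (g + 1 : ℝ) - Real.log g ≤ 1 / g := by
    have e2 := Real.log_le_sub_one_of_pos (show 0 < ((g : ℝ) + 1) / g by positivity)
    rw [Real.log_div (by positivity) (by positivity)] at e2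
    have e4 : ((g : ℝ) + 1) / g - 1 = 1 / (g : ℝ) := by
      field_simp
      ring
    linarith
  have l10 : (1 / 4 + 4 / ρ) / (g : ℝ) = 1 / 4 * (1 / g) + 4 / ρ / g := by ring
  have l11 : 0 < 1 / (g : ℝ) := by positivity
  rw [l10]
  unfold wg
  rw [abs_le]
  constructor <;> linarith

theorem blocks_sum {ρ : ℝ} (hρ : 0 < ρ) (f : ℕ → ℝ) (M : ℕ) :
    ∑ g ∈ range M, ∑ x ∈ Ioc (nn ρ g) (nn ρ (g + 1)), f x = ∑ x ∈ Icc 1 (nn ρ M), f x := by
  induction M with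
  | zero => rw [nn_zero]; simp
  | succ M ih =>
    rw [Finset.sum_range_succ, ih]
    exact Finset.sum_Ioc_consecutive f (Nat.zero_le _) (nn_mono hρ (Nat.le_succ M))

theorem log_div_sqrt : Tendsto (fun M : ℕ => Real.log M / √(M : ℝ)) atTop (𝓝 0) := by
  have h1 := (isLittleO_log_rpow_atTop (show (0 : ℝ) < 1 / 2 by norm_num)).tendsto_div_nhds_zero
  refine (h1.comp tendsto_natCast_atTop_atTop).congr fun M => ?_
  rw [Function.comp_apply, Real.sqrt_eq_rpow]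

theorem sqrt_tendsto : Tendsto (fun M : ℕ => √(M : ℝ)) atTop atTop :=
  Real.tendsto_sqrt_atTop.comp tendsto_natCast_atTop_atTop

theorem log_nn {ρ : ℝ} (hρ : 0 < ρ) : Tendsto (fun M : ℕ => Real.log (nn ρ M) / √(M : ℝ)) atTop (𝓝 1) := by
  have h1 : Tendsto (fun M : ℕ => (|Real.log ρ| + Real.log 2) / √(M : ℝ) + 1 / 4 * (Real.log M / √(M : ℝ))) atTop (𝓝 (0 + 1 / 4 * 0)) :=
    (tendsto_const_nhds.div_atTop sqrt_tendsto).add (log_div_sqrt.const_mul _)
  rw [mul_zero, add_zero] at h1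
  rw [tendsto_iff_norm_sub_tendsto_zero]
  refine squeeze_zero' (Eventually.of_forall fun _ => norm_nonneg _) ?_ h1
  filter_upwards [(YY_tendsto hρ).eventually_ge_atTop 2, eventually_ge_atTop 1] with M e1 e2
  have hM : (0 : ℝ) < M := by exact_mod_cast e2
  have hM1 : (1 : ℝ) ≤ M := by exact_mod_cast e2
  have hs : 0 < √(M : ℝ) := Real.sqrt_pos.2 hM
  have hf1 : (nn ρ M : ℝ) ≤ YY ρ M := Nat.floor_le (by linarith)
  have hf2 : YY ρ M < nn ρ M + 1 := Nat.lt_floor_add_one _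
  have hf3 : YY ρ M / 2 ≤ nn ρ M := by linarith
  have l1 : Real.log (nn ρ M) ≤ Real.log (YY ρ M) := Real.log_le_log (by linarith) hf1
  have l2 : Real.log (YY ρ M) - Real.log 2 ≤ Real.log (nn ρ M) := by
    rw [← Real.log_div (by linarith) (by norm_num)]
    exact Real.log_le_log (by linarith) hf3
  rw [log_YY hρ e2] at l1 l2
  have l3 := abs_le.1 (le_refl |Real.log ρ|)
  have l4 : 0 ≤ Real.log (M : ℝ) := Real.log_nonneg hM1
  have l5 : 0 < Real.log 2 := Real.log_pos (by norm_num)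
  rw [Real.norm_eq_abs, div_sub_one hs.ne', abs_div, abs_of_pos hs, ← mul_div_assoc, ← add_div]
  refine div_le_div_of_nonneg_right ?_ hs.le
  rw [abs_le]
  constructor <;> linarith [l3.1, l3.2]

theorem sum_err {D : ℕ → ℝ} {K : ℝ} (hK : 0 ≤ K) (h : ∀ᶠ g : ℕ in atTop, D g ≤ K / g) :
    ∃ E : ℕ → ℝ, Tendsto (fun M : ℕ => E M / √(M : ℝ)) atTop (𝓝 0) ∧ ∀ M, ∑ g ∈ range M, D g ≤ E M := by
  obtain ⟨g0, h0⟩ := eventually_atTop.1 h
  refine ⟨fun M => (∑ g ∈ range g0, |D g| + K) + K * Real.log M, ?_, fun M => ?_⟩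
  · have h1 : Tendsto (fun M : ℕ => (∑ g ∈ range g0, |D g| + K) / √(M : ℝ) + K * (Real.log M / √(M : ℝ))) atTop (𝓝 (0 + K * 0)) :=
      (tendsto_const_nhds.div_atTop sqrt_tendsto).add (log_div_sqrt.const_mul _)
    rw [mul_zero, add_zero] at h1
    refine h1.congr fun M => ?_
    show _ = ((∑ g ∈ range g0, |D g| + K) + K * Real.log M) / √(M : ℝ)
    ring
  · have e1 : ∀ g ∈ range M, D g ≤ (if g < g0 then |D g| else 0) + K / g := by
      intro g _
      split_ifs with h1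
      · have := le_abs_self (D g)
        have : 0 ≤ K / (g : ℝ) := by positivity
        linarith
      · rw [zero_add]
        exact h0 g (by omega)
    refine (Finset.sum_le_sum e1).trans ?_
    rw [Finset.sum_add_distrib, ← Finset.sum_filter]
    have e2 : ∑ g ∈ (range M).filter (fun g => g < g0), |D g| ≤ ∑ g ∈ range g0, |D g| :=
      Finset.sum_le_sum_of_subset_of_nonneg (fun g hg => mem_range.2 (mem_filter.1 hg).2) fun _ _ _ => abs_nonneg _
    have e3 : ∑ g ∈ range M, K / (g : ℝ) ≤ K * (1 + Real.log M) := by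
      have e4 : ∑ g ∈ range M, K / (g : ℝ) = K * ∑ g ∈ range M, 1 / (g : ℝ) := by
        rw [Finset.mul_sum]
        exact Finset.sum_congr rfl fun g _ => by rw [mul_one_div]
      rw [e4]
      refine mul_le_mul_of_nonneg_left ?_ hK
      have e5 : ∑ g ∈ range M, 1 / (g : ℝ) ≤ ∑ g ∈ Icc 1 M, 1 / (g : ℝ) := by
        have e6 : ∑ g ∈ range M, 1 / (g : ℝ) = ∑ g ∈ (range M).filter (fun g => 1 ≤ g), 1 / (g : ℝ) := by
          symm
          refine Finset.sum_subset (filter_subset _ _) fun g hg hg' => ?_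
          have : g = 0 := by
            rw [mem_filter] at hg'
            by_contra hcon
            exact hg' ⟨hg, by omega⟩
          rw [this]
          simp
        rw [e6]
        refine Finset.sum_le_sum_of_subset_of_nonneg (fun g hg => ?_) fun _ _ _ => by positivity
        rw [mem_filter, mem_range] at hg
        exact mem_Icc.2 ⟨hg.2, hg.1.le⟩
      refine e5.trans ?_
      rw [harm_eq]
      exact harmonic_le_one_add_log M
    linarith

/-- The logarithmic mean along the blocks. -/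
theorem blocks_lm {ρ : ℝ} (hρ : 0 < ρ) {h : ℕ → ℝ} {l : ℝ} (hh : Tendsto (lm h) atTop (𝓝 l)) :
    Tendsto (fun M : ℕ => (∑ x ∈ Icc 1 (nn ρ M), h x / x) / √(M : ℝ)) atTop (𝓝 l) := by
  have h1 := (hh.comp (nn_tendsto hρ)).mul (log_nn hρ)
  rw [mul_one] at h1
  refine h1.congr' ?_
  filter_upwards [(log_tendsto.comp (nn_tendsto hρ)).eventually_gt_atTop 0] with M hM
  show lm h (nn ρ M) * (Real.log (nn ρ M) / √(M : ℝ)) = _
  unfold lm
  have : Real.log (nn ρ M) ≠ 0 := ne_of_gt hM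
  field_simp

/-- The lower bound. -/
theorem transfer_lower {ρ : ℝ} (hρ : 0 < ρ) {b h : ℕ → ℝ} {l : ℝ} (hb0 : ∀ g, 0 ≤ b g) (hb1 : ∀ g, b g ≤ 1)
    (hh : Tendsto (lm h) atTop (𝓝 l)) (hL : ∀ᶠ g in atTop, ∀ x ∈ Ioc (nn ρ g) (nn ρ (g + 1)), h x ≤ b g)
    {a : ℝ} (ha : a < l) : ∀ᶠ M : ℕ in atTop, a < VS b M / √(M : ℝ) := by
  obtain ⟨K, hK, hw⟩ := wg_bound hρ
  have hD : ∀ᶠ g : ℕ in atTop, (∑ x ∈ Ioc (nn ρ g) (nn ρ (g + 1)), h x / x) - b g * vg g ≤ K / g := by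
    filter_upwards [hw, hL, eventually_ge_atTop 1] with g g1 g2 g3
    have hg0 : (0 : ℝ) < g := by exact_mod_cast g3
    have e1 : ∑ x ∈ Ioc (nn ρ g) (nn ρ (g + 1)), h x / x ≤ b g * wg ρ g := by
      unfold wg
      rw [Finset.mul_sum]
      refine Finset.sum_le_sum fun x hx => ?_
      rw [mul_one_div]
      exact div_le_div_of_nonneg_right (g2 x hx) (Nat.cast_nonneg _)
    have e2 := (abs_le.1 g1).2
    have e3 : b g * (wg ρ g - vg g) ≤ 1 * (K / g) := by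
      refine (mul_le_mul_of_nonneg_left e2 (hb0 g)).trans ?_
      exact mul_le_mul_of_nonneg_right (hb1 g) (by positivity)
    linarith
  obtain ⟨E, hE, hS⟩ := sum_err hK hD
  have h1 := (blocks_lm hρ hh).sub hE
  rw [sub_zero] at h1
  filter_upwards [h1.eventually (eventually_gt_nhds ha), eventually_ge_atTop 1] with M e1 e2
  refine e1.trans_le ?_
  rw [← sub_div]
  refine div_le_div_of_nonneg_right ?_ (Real.sqrt_nonneg _)
  have e3 := hS M
  rw [Finset.sum_sub_distrib, blocks_sum hρ] at e3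
  unfold VS
  linarith

/-- The upper bound. -/
theorem transfer_upper {ρ : ℝ} (hρ : 0 < ρ) {b h : ℕ → ℝ} {l : ℝ} (hb0 : ∀ g, 0 ≤ b g) (hb1 : ∀ g, b g ≤ 1)
    (hh : Tendsto (lm h) atTop (𝓝 l)) (hL : ∀ᶠ g in atTop, ∀ x ∈ Ioc (nn ρ g) (nn ρ (g + 1)), b (g + 1) ≤ h x)
    {a : ℝ} (ha : l < a) : ∀ᶠ M : ℕ in atTop, VS b M / √(M : ℝ) < a := by
  obtain ⟨K, hK, hw⟩ := wg_bound hρ
  have hD : ∀ᶠ g : ℕ in atTop, b (g + 1) * vg (g + 1) - (∑ x ∈ Ioc (nn ρ g) (nn ρ (g + 1)), h x / x) ≤ K / g := by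
    filter_upwards [hw, hL, eventually_ge_atTop 1] with g g1 g2 g3
    have hg0 : (0 : ℝ) < g := by exact_mod_cast g3
    have e1 : b (g + 1) * wg ρ g ≤ ∑ x ∈ Ioc (nn ρ g) (nn ρ (g + 1)), h x / x := by
      unfold wg
      rw [Finset.mul_sum]
      refine Finset.sum_le_sum fun x hx => ?_
      rw [mul_one_div]
      exact div_le_div_of_nonneg_right (g2 x hx) (Nat.cast_nonneg _)
    have e2 := (abs_le.1 g1).1
    have e3 : b (g + 1) * (vg g - wg ρ g) ≤ 1 * (K / g) := by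
      refine (mul_le_mul_of_nonneg_left (show vg g - wg ρ g ≤ K / g by linarith) (hb0 _)).trans ?_
      exact mul_le_mul_of_nonneg_right (hb1 _) (by positivity)
    have e4 : b (g + 1) * vg (g + 1) ≤ b (g + 1) * vg g := mul_le_mul_of_nonneg_left (vg_anti g) (hb0 _)
    linarith
  obtain ⟨E, hE, hS⟩ := sum_err hK hD
  have h0 : Tendsto (fun M : ℕ => b 0 * vg 0 / √(M : ℝ)) atTop (𝓝 0) := tendsto_const_nhds.div_atTop sqrt_tendsto
  have h1 := ((blocks_lm hρ hh).add hE).add h0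
  rw [add_zero, add_zero] at h1
  filter_upwards [h1.eventually (eventually_lt_nhds ha), eventually_ge_atTop 1] with M e1 e2
  refine lt_of_le_of_lt ?_ e1
  rw [← add_div, ← add_div]
  refine div_le_div_of_nonneg_right ?_ (Real.sqrt_nonneg _)
  have e3 := hS M
  rw [Finset.sum_sub_distrib, blocks_sum hρ] at e3
  have e4 : VS b (M + 1) = ∑ g ∈ range M, b (g + 1) * vg (g + 1) + b 0 * vg 0 := by
    unfold VS
    rw [Finset.sum_range_succ']
  have e5 : VS b M ≤ VS b (M + 1) := by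
    unfold VS
    rw [Finset.sum_range_succ]
    have := mul_nonneg (hb0 M) (vg_pos M).le
    linarith
  linarith

/-- The natural density from the logarithmic densities of approximations. -/
theorem transfer {ρ : ℝ} (hρ : 0 < ρ) {b : ℕ → ℝ} {l : ℝ} (hb0 : ∀ g, 0 ≤ b g) (hb1 : ∀ g, b g ≤ 1)
    (H : ∀ ε : ℝ, 0 < ε → ∃ (h₁ h₂ : ℕ → ℝ) (l₁ l₂ : ℝ), Tendsto (lm h₁) atTop (𝓝 l₁) ∧ Tendsto (lm h₂) atTop (𝓝 l₂) ∧
      l - ε < l₁ ∧ l₂ < l + ε ∧ (∀ᶠ g in atTop, ∀ x ∈ Ioc (nn ρ g) (nn ρ (g + 1)), h₁ x ≤ b g) ∧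
      ∀ᶠ g in atTop, ∀ x ∈ Ioc (nn ρ g) (nn ρ (g + 1)), b (g + 1) ≤ h₂ x) :
    Tendsto (fun M : ℕ => (∑ g ∈ range M, b g) / (M : ℝ)) atTop (𝓝 l) := by
  refine abel ?_
  rw [tendsto_order]
  constructor
  · intro a ha
    obtain ⟨h₁, _, l₁, _, e1, _, e2, _, e3, _⟩ := H (l - a) (by linarith)
    exact transfer_lower hρ hb0 hb1 e1 e3 (by linarith)
  · intro a ha
    obtain ⟨_, h₂, _, l₂, _, e1, _, e2, _, e3⟩ := H (a - l) (by linarith)
    exact transfer_upper hρ hb0 hb1 e1 e3 (by linarith)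

end Pool.Agent.H595.SH
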