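import Pool.Agent.H595.SH.Fas

/-!
# First occurrences of long gaps: the deterministic part
-/

set_option autoImplicit false

namespace Pool.Agent.H595.SH

open Finset Filter Pool.Agent.H595.AS Pool.Agent.Q120.AD Pool.Agent.Q120.GM
open scoped Topology

/-- The first element of `S` which follows a run of at least `t` consecutive numbers outside `S`
(between two consecutive elements `a < b` of `S` there are `b - a - 1` numbers). -/
noncomputable def P (S : Set ℕ) (t : ℝ) : ℕ := sInf {b : ℕ | ∃ a, IsGap S a b ∧ t ≤ ((b - a - 1 : ℕ) : ℝ)}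

theorem lt_P {S : Set ℕ} {t X : ℝ} (hex : ∃ a b, IsGap S a b ∧ t ≤ ((b - a - 1 : ℕ) : ℝ)) (ht : -1 < t) :
    X < P S t ↔ (G S X : ℝ) < t + 1 := by
  rw [← not_le, ← not_le, not_iff_not]
  obtain ⟨a0, b0, h0⟩ := hex
  have hmem : P S t ∈ {b : ℕ | ∃ a, IsGap S a b ∧ t ≤ ((b - a - 1 : ℕ) : ℝ)} := Nat.sInf_mem ⟨b0, a0, h0⟩
  constructor
  · intro h
    obtain ⟨a, h1, h2⟩ := hmem
    have h3 : P S t - a ≤ G S X := G_le.1 le_rfl a _ h1 h
    have h4 := h1.1
    have h5 : ((P S t - a - 1 : ℕ) : ℝ) + 1 = ((P S t - a : ℕ) : ℝ) := by exact_mod_cast (by omega : P S t - a - 1 + 1 = P S t - a)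
    have h6 : ((P S t - a : ℕ) : ℝ) ≤ G S X := by exact_mod_cast h3
    linarith
  · intro h
    have h1 : 0 < G S X := by
      by_contra hcon
      have : G S X = 0 := by omega
      rw [this, Nat.cast_zero] at h
      linarith
    obtain ⟨a, b, h2, h3, h4⟩ := lt_G.1 (show G S X - 1 < G S X by omega)
    refine le_trans ?_ h3
    have h5 : P S t ≤ b := by
      refine Nat.sInf_le ⟨a, h2, ?_⟩
      have h6 : G S X ≤ b - a - 1 + 1 := by omega
      have h7 : (G S X : ℝ) ≤ ((b - a - 1 : ℕ) : ℝ) + 1 := by exact_mod_cast h6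
      linarith
    exact_mod_cast h5

/-- The exponent of the limit law. -/
noncomputable def sig (k : ℕ) (θ v : ℕ → ℝ) : ℝ := ∑ i ∈ range k, (θ (i + 1) ^ 2 - θ i ^ 2) * Real.exp (-v i)

/-- The scale of the first occurrence of a run of length `g`. -/
noncomputable def scale (Q g : ℕ) : ℝ := √2 * Real.exp ((Q : ℝ) / (4 * Nat.totient Q)) * (g : ℝ) ^ (1 / 4 : ℝ) * Real.exp √(g : ℝ)

theorem YY_scale (Q : ℕ) {R : ℝ} (hR : 0 < R) (g : ℕ) : YY (Real.exp (-(cen Q (-2 * Real.log R)) / 2)) g = R * scale Q g := by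
  have e1 : Real.exp (-(cen Q (-2 * Real.log R)) / 2) = R * (√2 * Real.exp ((Q : ℝ) / (4 * Nat.totient Q))) := by
    have e2 : -(cen Q (-2 * Real.log R)) / 2 = Real.log R + (Real.log 2 / 2 + (Q : ℝ) / (4 * Nat.totient Q)) := by
      unfold cen qq
      ring
    rw [e2, Real.exp_add, Real.exp_add, Real.exp_log hR]
    congr 2
    rw [← Real.log_sqrt (by norm_num), Real.exp_log (by positivity)]
  unfold YY scale
  rw [e1]
  ring

theorem shanks_det {S : Set ℕ} {Q k : ℕ} (hunb : ∀ T : ℕ, ∃ a b, IsGap S a b ∧ T < b - a)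
    (hyp : ∀ θ v : ℕ → ℝ, θ 0 = 0 → (∀ i, θ i ≤ 1) → Monotone θ → Monotone v →
      Tendsto (lm fun n => ind (∀ i < k, G S (θ (i + 1) * n) ≤ TT Q (v i) n)) atTop (𝓝 (Real.exp (-sig k θ v))))
    {r s : ℕ → ℝ} (hr0 : r 0 = 0) (hr : Monotone r) (hs : Monotone s) (hrk : 0 < r k) :
    Tendsto (fun M : ℕ => (∑ g ∈ range M, ind (∀ i < k, r (i + 1) * scale Q g < P S (g + s i * √(g : ℝ)))) / (M : ℝ)) atTop
      (𝓝 (Real.exp (-sig k r s))) := by
  obtain ⟨R, hR⟩ : ∃ R, R = r k := ⟨_, rfl⟩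
  rw [← hR] at hrk
  obtain ⟨u, hu⟩ : ∃ u, u = -2 * Real.log R := ⟨_, rfl⟩
  obtain ⟨ρ, hρd⟩ : ∃ ρ, ρ = Real.exp (-(cen Q u) / 2) := ⟨_, rfl⟩
  have hρ : 0 < ρ := by rw [hρd]; exact Real.exp_pos _
  have hY : ∀ g, YY ρ g = R * scale Q g := by
    intro g
    rw [hρd, hu]
    exact YY_scale Q hrk g
  obtain ⟨θ, hθ⟩ : ∃ θ : ℕ → ℝ, θ = fun i => r (min i k) / R := ⟨_, rfl⟩
  have hθ0 : θ 0 = 0 := by rw [hθ]; simp [hr0]
  have hθ1 : ∀ i, θ i ≤ 1 := by
    intro i
    rw [hθ]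
    simp only
    rw [div_le_one hrk, hR]
    exact hr (min_le_right _ _)
  have hθm : Monotone θ := by
    intro i j hij
    rw [hθ]
    simp only
    exact div_le_div_of_nonneg_right (hr (min_le_min_right k hij)) hrk.le
  have hθn : ∀ i, 0 ≤ θ i := fun i => hθ0 ▸ hθm (Nat.zero_le i)
  have hθk : ∀ i ≤ k, θ i * R = r i := by
    intro i hi
    rw [hθ]
    simp only
    rw [min_eq_left hi, div_mul_cancel₀ _ hrk.ne']
  have hsig : ∀ w : ℝ, sig k θ (fun i => u + s i + w) = Real.exp (-w) * sig k r s := by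
    intro w
    unfold sig
    rw [Finset.mul_sum]
    refine Finset.sum_congr rfl fun i hi => ?_
    rw [mem_range] at hi
    rw [← hθk (i + 1) (by omega), ← hθk i (by omega)]
    have e1 : Real.exp (-(u + s i + w)) = R ^ 2 * (Real.exp (-s i) * Real.exp (-w)) := by
      have e2 : -(u + s i + w) = Real.log R + Real.log R + (-s i + -w) := by rw [hu]; ring
      rw [e2, Real.exp_add, Real.exp_add, Real.exp_log hrk, Real.exp_add]
      ring
    rw [e1]
    ring
  have hlen : ∀ t : ℝ, ∃ a b, IsGap S a b ∧ t ≤ ((b - a - 1 : ℕ) : ℝ) := by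
    intro t
    obtain ⟨a, b, h1, h2⟩ := hunb ⌈t⌉₊
    refine ⟨a, b, h1, (Nat.le_ceil t).trans ?_⟩
    exact_mod_cast (by omega : ⌈t⌉₊ ≤ b - a - 1)
  have htpos : ∀ᶠ g : ℕ in atTop, ∀ i ∈ range k, -1 < (g : ℝ) + s i * √(g : ℝ) ∧
      -1 < ((g + 1 : ℕ) : ℝ) + s i * √((g + 1 : ℕ) : ℝ) := by
    rw [Filter.eventually_all_finset]
    intro i _
    have h1 : ∀ᶠ g : ℕ in atTop, -1 < (g : ℝ) + s i * √(g : ℝ) := by
      filter_upwards [sqrt_tendsto.eventually_ge_atTop |s i|] with g hg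
      have e1 : √(g : ℝ) * √(g : ℝ) = g := Real.mul_self_sqrt (Nat.cast_nonneg _)
      have e2 := Real.sqrt_nonneg (g : ℝ)
      have e3 := neg_abs_le (s i)
      have e4 : 0 ≤ (√(g : ℝ) + s i) * √(g : ℝ) := mul_nonneg (by linarith) e2
      have e5 : (√(g : ℝ) + s i) * √(g : ℝ) = g + s i * √(g : ℝ) := by rw [add_mul, e1]
      linarith
    filter_upwards [h1, (tendsto_add_atTop_nat 1).eventually h1] with g e1 e2 using ⟨e1, e2⟩
  refine transfer hρ (fun g => ind_nonneg _) (fun g => ind_le_one _) fun ε hε => ?_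
  have hcont : Continuous fun w : ℝ => Real.exp (-(Real.exp (-w) * sig k r s)) := by fun_prop
  obtain ⟨δ, hδ, hd⟩ := Metric.continuous_iff.1 hcont 0 ε hε
  have d1 := hd (-(δ / 2)) (by rw [Real.dist_eq, sub_zero, abs_neg, abs_of_pos (by linarith)]; linarith)
  have d2 := hd (δ / 2) (by rw [Real.dist_eq, sub_zero, abs_of_pos (by linarith)]; linarith)
  have e0 : Real.exp (-(Real.exp (-0) * sig k r s)) = Real.exp (-sig k r s) := by rw [neg_zero, Real.exp_zero, one_mul]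
  rw [Real.dist_eq, abs_lt, e0] at d1 d2
  have hm : ∀ w : ℝ, Monotone fun i => u + s i + w := fun w i j hij => by
    have := hs hij
    simp only
    linarith
  have h1 := hyp θ (fun i => u + s i + -(δ / 2)) hθ0 hθ1 hθm (hm _)
  have h2 := hyp θ (fun i => u + s i + δ / 2) hθ0 hθ1 hθm (hm _)
  rw [hsig] at h1 h2
  have hkb : ∀ᶠ g : ℕ in atTop, ∀ i ∈ range k, ∀ x ∈ Ioc (nn ρ g) (nn ρ (g + 1)),
      ((TT Q (u + s i - δ / 2) x : ℕ) : ℝ) < g + s i * √(g : ℝ) + 1 ∧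
      ((g + 1 : ℕ) : ℝ) + s i * √((g + 1 : ℕ) : ℝ) ≤ ((TT Q (u + s i + δ / 2) x : ℕ) : ℝ) := by
    rw [Filter.eventually_all_finset]
    intro i _
    rw [hρd]
    exact key_bounds Q u (s i) (by linarith)
  refine ⟨_, _, _, _, h1, h2, by linarith [d1.1], by linarith [d2.2], ?_, ?_⟩
  · filter_upwards [hkb, htpos] with g g1 g2 x hx
    refine ind_mono fun h i hi => ?_
    have hi' := mem_range.2 hi
    rw [lt_P (hlen _) (g2 i hi').1]
    refine lt_of_le_of_lt ?_ (g1 i hi' x hx).1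
    have e1 := h i hi
    have e2 : u + s i + -(δ / 2) = u + s i - δ / 2 := by ring
    rw [e2] at e1
    refine le_trans ?_ (show ((G S (θ (i + 1) * x) : ℕ) : ℝ) ≤ ((TT Q (u + s i - δ / 2) x : ℕ) : ℝ) by exact_mod_cast e1)
    have e3 : r (i + 1) * scale Q g ≤ θ (i + 1) * x := by
      rw [← hθk (i + 1) (by omega), mul_assoc, ← hY]
      refine mul_le_mul_of_nonneg_left ?_ (hθn _)
      have e4 : YY ρ g < nn ρ g + 1 := Nat.lt_floor_add_one _
      have e5 : ((nn ρ g + 1 : ℕ) : ℝ) ≤ x := by exact_mod_cast (mem_Ioc.1 hx).1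
      push_cast at e5
      linarith
    exact_mod_cast G_mono e3
  · filter_upwards [hkb, htpos] with g g1 g2 x hx
    refine ind_mono fun h i hi => ?_
    have hi' := mem_range.2 hi
    have e1 := h i hi
    rw [lt_P (hlen _) (g2 i hi').2] at e1
    have e2 : ((G S (r (i + 1) * scale Q (g + 1)) : ℕ) : ℝ) < ((TT Q (u + s i + δ / 2) x : ℕ) : ℝ) + 1 :=
      e1.trans_le (by linarith [(g1 i hi' x hx).2])
    have e3 : G S (r (i + 1) * scale Q (g + 1)) ≤ TT Q (u + s i + δ / 2) x := by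
      have : G S (r (i + 1) * scale Q (g + 1)) < TT Q (u + s i + δ / 2) x + 1 := by exact_mod_cast e2
      omega
    refine le_trans (G_mono ?_) e3
    rw [← hθk (i + 1) (by omega), mul_assoc, ← hY]
    refine mul_le_mul_of_nonneg_left ?_ (hθn _)
    have e4 : (nn ρ (g + 1) : ℝ) ≤ YY ρ (g + 1) := Nat.floor_le (YY_nonneg hρ _)
    have e5 : (x : ℝ) ≤ nn ρ (g + 1) := by exact_mod_cast (mem_Ioc.1 hx).2
    linarith

end Pool.Agent.H595.SH
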