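import Pool.Agent.H595.AS.Fin
import Pool.Agent.H595.SH.PP

/-!
# The maximal gaps in several windows: the joint law for one set
-/

set_option autoImplicit false

namespace Pool.Agent.H595.SH

open Finset MeasureTheory ProbabilityTheory Filter Pool.Agent.H595.AS Pool.Agent.Q120.AD Pool.Agent.Q120.GM
open scoped Topology

variable {Ω : Type*} [MeasurableSpace Ω] {μ : Measure Ω} [IsProbabilityMeasure μ] {A : Ω → Set ℕ} {Q : ℕ}

omit [MeasurableSpace Ω] in
theorem noLong_eq (T N : ℕ) : noLong A T N = ev A (fun _ => T) (range N) := by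
  ext ω
  rw [mem_ev]
  unfold noLong
  simp only [Set.mem_iInter, Set.mem_compl_iff, mem_range]

theorem log_div_lim (C : ℝ) : Tendsto (fun n : ℕ => C * Real.log n / n) atTop (𝓝 0) := by
  have h1 := ((Real.isLittleO_log_id_atTop).tendsto_div_nhds_zero.comp tendsto_natCast_atTop_atTop).const_mul C
  rw [mul_zero] at h1
  refine h1.congr fun n => ?_
  show C * (Real.log n / (n : ℝ)) = _
  ring

theorem gumbel_r (hA : IsModel μ (level Q) A) (hQ : 1 ≤ Q) {z : ℕ → ℕ} (hz : ∀ x, z x ≤ x) {θ : ℝ}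
    (hzl : Tendsto (fun x : ℕ => (z x : ℝ) / x) atTop (𝓝 θ)) (w : ℝ) :
    Tendsto (fun n : ℕ => μ.real (ev A (fun _ => TT Q w n) (range (z n)))) atTop (𝓝 (Real.exp (-(θ ^ 2 * Real.exp (-w))))) := by
  obtain ⟨C, hC, hcr⟩ := crude hQ w
  have h1 := gumbel_z hA hQ hz hzl w
  have h2 := h1.add (log_div_lim C)
  rw [add_zero] at h2
  refine tendsto_of_tendsto_of_tendsto_of_le_of_le' h1 h2 (Eventually.of_forall fun n => ?_) ?_
  · rw [noLong_eq]
    exact measureReal_mono (ev_anti (range_mono (Nat.le_succ _))) (measure_ne_top μ _)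
  · filter_upwards [hcr] with n g1
    rw [noLong_eq]
    have e1 := ev_diff hA (fun _ => TT Q w n) (range (z n)) (range (z n + 1))
    have e2 : range (z n + 1) \ range (z n) = {z n} := by
      ext m
      rw [Finset.mem_sdiff, mem_range, mem_range, mem_singleton]
      omega
    rw [e2, sum_singleton] at e1
    have e3 : μ.real (ev A (fun _ => TT Q w n) (range (z n))) ≤ μ.real (ev A (fun _ => TT Q w n) (range (z n + 1))) +
        μ.real (ev A (fun _ => TT Q w n) (range (z n)) \ ev A (fun _ => TT Q w n) (range (z n + 1))) := by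
      refine (measureReal_mono (s₂ := ev A (fun _ => TT Q w n) (range (z n + 1)) ∪
        (ev A (fun _ => TT Q w n) (range (z n)) \ ev A (fun _ => TT Q w n) (range (z n + 1)))) ?_ (measure_ne_top μ _)).trans
        (measureReal_union_le _ _)
      intro ω h6
      by_cases h7 : ω ∈ ev A (fun _ => TT Q w n) (range (z n + 1))
      · exact Or.inl h7
      · exact Or.inr ⟨h6, h7⟩
    have e4 := g1 (z n) (hz n)
    linarith

/-- Asymptotic independence of a window from the past. -/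
theorem step (hA : IsModel μ (level Q) A) (hQ : 1 ≤ Q) {z z' : ℕ → ℕ} (hz' : ∀ x, z' x ≤ x) (V w : ℝ) {E : ℕ → Set Ω}
    (hE : ∀ n, MeasurableSet[F A (Set.Iio (z n + TT Q V n))] (E n)) :
    Tendsto (fun n => μ.real (E n ∩ ev A (fun _ => TT Q w n) (Ico (z n) (z' n))) -
      μ.real (E n) * μ.real (ev A (fun _ => TT Q w n) (Ico (z n) (z' n)))) atTop (𝓝 0) := by
  obtain ⟨C, hC, hcr⟩ := crude hQ w
  rw [Metric.tendsto_nhds]
  intro s hs
  filter_upwards [TT_small Q V hC.le (half_pos hs), hcr] with n g1 g2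
  rw [Real.dist_eq, sub_zero]
  refine lt_of_le_of_lt ?_ (half_lt_self hs)
  have hzn := hz' n
  have hST : Disjoint (Set.Iio (z n + TT Q V n)) (Set.Ici (z n + TT Q V n)) := by
    rw [Set.disjoint_left]
    intro x hx hx'
    rw [Set.mem_Iio] at hx
    rw [Set.mem_Ici] at hx'
    omega
  refine cov_drop hA hST (G' := ev A (fun _ => TT Q w n) ((Ico (z n) (z' n)).filter fun j => z n + TT Q V n ≤ j))
    (hE n) (F_ev fun j hj i hi1 hi2 => ?_) (ev_anti (filter_subset _ _)) ?_
  · rw [mem_filter] at hj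
    rw [Set.mem_Ici]
    omega
  · refine (ev_diff hA _ _ _).trans ?_
    have hsub : Ico (z n) (z' n) \ (Ico (z n) (z' n)).filter (fun j => z n + TT Q V n ≤ j) ⊆ Ico (z n) (z n + TT Q V n) := by
      intro j hj
      rw [Finset.mem_sdiff, mem_filter] at hj
      rw [mem_Ico]
      have h1 := mem_Ico.1 hj.1
      refine ⟨by omega, ?_⟩
      by_contra hcon
      exact hj.2 ⟨hj.1, by omega⟩
    have hle : ∀ j ∈ Ico (z n) (z' n) \ (Ico (z n) (z' n)).filter (fun j => z n + TT Q V n ≤ j),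
        ee (level Q) (TT Q w n) j ≤ C * Real.log n / n := by
      intro j hj
      have := mem_Ico.1 (Finset.mem_sdiff.1 hj).1
      exact g2 j (by omega)
    refine (Finset.sum_le_card_nsmul _ _ _ hle).trans ?_
    rw [nsmul_eq_mul]
    have hcard : ((Ico (z n) (z' n) \ (Ico (z n) (z' n)).filter (fun j => z n + TT Q V n ≤ j)).card : ℝ) ≤ TT Q V n := by
      have := card_le_card hsub
      rw [Nat.card_Ico, Nat.add_sub_cancel_left] at this
      exact_mod_cast this
    have hl : 0 ≤ Real.log n := Real.log_natCast_nonneg n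
    exact (mul_le_mul_of_nonneg_right hcard (by positivity)).trans g1

omit [MeasurableSpace Ω] in
theorem ev_split {τ : ℕ → ℕ} {z z' : ℕ} (h : z ≤ z') : ev A τ (range z') = ev A τ (range z) ∩ ev A τ (Ico z z') := by
  ext ω
  rw [Set.mem_inter_iff, mem_ev, mem_ev, mem_ev]
  simp only [mem_range, mem_Ico]
  constructor
  · intro h1
    exact ⟨fun m hm => h1 m (by omega), fun m hm => h1 m (by omega)⟩
  · rintro ⟨h1, h2⟩ m hm
    rcases lt_or_ge m z with h3 | h3
    · exact h1 m h3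
    · exact h2 m ⟨h3, hm⟩

/-- The maximal gap in a window. -/
theorem win_lim (hA : IsModel μ (level Q) A) (hQ : 1 ≤ Q) {z z' : ℕ → ℕ} (hzz : ∀ x, z x ≤ z' x) (hz' : ∀ x, z' x ≤ x) {θ θ' : ℝ}
    (hzl : Tendsto (fun x : ℕ => (z x : ℝ) / x) atTop (𝓝 θ)) (hzl' : Tendsto (fun x : ℕ => (z' x : ℝ) / x) atTop (𝓝 θ')) (w : ℝ) :
    Tendsto (fun n => μ.real (ev A (fun _ => TT Q w n) (Ico (z n) (z' n)))) atTop
      (𝓝 (Real.exp (-((θ' ^ 2 - θ ^ 2) * Real.exp (-w))))) := by
  have h0 := gumbel_r hA hQ (fun x => (hzz x).trans (hz' x)) hzl w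
  have h1 := gumbel_r hA hQ hz' hzl' w
  have h2 := step hA hQ hz' w w (E := fun n => ev A (fun _ => TT Q w n) (range (z n))) (z := z) fun n =>
    F_ev fun j hj i hi1 hi2 => by
      rw [mem_range] at hj
      rw [Set.mem_Iio]
      omega
  have h3 := (h1.sub h2)
  rw [sub_zero] at h3
  have h4 := h3.div h0 (Real.exp_pos _).ne'
  have e1 : Real.exp (-(θ' ^ 2 * Real.exp (-w))) / Real.exp (-(θ ^ 2 * Real.exp (-w))) = Real.exp (-((θ' ^ 2 - θ ^ 2) * Real.exp (-w))) := by
    rw [← Real.exp_sub]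
    congr 1
    ring
  rw [e1] at h4
  refine h4.congr' ?_
  filter_upwards [h0.eventually (eventually_gt_nhds (Real.exp_pos _))] with n hn
  simp only [Pi.div_apply]
  rw [← ev_split (hzz n), div_eq_iff hn.ne']
  ring

/-- The thresholds: `TT Q (v i)` in the window from `z i` to `z (i + 1)`, `i < k`. -/
noncomputable def tk (Q : ℕ) (z : ℕ → ℕ → ℕ) (v : ℕ → ℝ) : ℕ → ℕ → ℕ → ℕ
  | 0, n, _ => TT Q (v 0) n
  | k + 1, n, m => if m < z k n then tk Q z v k n m else TT Q (v k) n

theorem tk_le {z : ℕ → ℕ → ℕ} {v : ℕ → ℝ} (hv : Monotone v) (k n m : ℕ) : tk Q z v k n m ≤ TT Q (v k) n := by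
  induction k with
  | zero => exact le_rfl
  | succ k ih =>
    unfold tk
    split_ifs
    · exact ih.trans (TT_mono (hv (Nat.le_succ k)) n)
    · exact TT_mono (hv (Nat.le_succ k)) n

theorem tk_mem (z : ℕ → ℕ → ℕ) (v : ℕ → ℝ) (k n m : ℕ) : ∃ i ∈ range (k + 1), tk Q z v k n m = TT Q (v i) n := by
  induction k with
  | zero => exact ⟨0, by simp, rfl⟩
  | succ k ih =>
    unfold tk
    split_ifs
    · obtain ⟨i, hi, h⟩ := ih
      exact ⟨i, by rw [mem_range] at hi ⊢; omega, h⟩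
    · exact ⟨k, by rw [mem_range]; omega, rfl⟩

theorem tk_le_of_lt {z : ℕ → ℕ → ℕ} {v : ℕ → ℝ} (hv : Monotone v) {n : ℕ} (hz : Monotone fun i => z i n) {k i m : ℕ} (hi : i < k)
    (hm : m < z (i + 1) n) : tk Q z v k n m ≤ TT Q (v i) n := by
  induction k with
  | zero => omega
  | succ k ih =>
    rcases Nat.lt_succ_iff_lt_or_eq.1 hi with h1 | h1
    · have h2 : m < z k n := lt_of_lt_of_le hm (hz h1)
      unfold tk
      rw [if_pos h2]
      exact ih h1
    · rw [h1]
      unfold tk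
      split_ifs
      · exact tk_le hv k n m
      · exact le_rfl

theorem tk_eq {z : ℕ → ℕ → ℕ} {v : ℕ → ℝ} {n : ℕ} (hz0 : z 0 n = 0) {k m : ℕ} (hm : m < z k n) :
    ∃ i, i < k ∧ m < z (i + 1) n ∧ tk Q z v k n m = TT Q (v i) n := by
  induction k with
  | zero => rw [hz0] at hm; omega
  | succ k ih =>
    unfold tk
    split_ifs with h1
    · obtain ⟨i, h2, h3, h4⟩ := ih h1
      exact ⟨i, by omega, h3, h4⟩
    · exact ⟨k, by omega, hm, rfl⟩

omit [MeasurableSpace Ω] in
theorem ev_tk {z : ℕ → ℕ → ℕ} {v : ℕ → ℝ} {k n : ℕ} (h : z k n ≤ z (k + 1) n) :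
    ev A (tk Q z v (k + 1) n) (range (z (k + 1) n)) =
      ev A (tk Q z v k n) (range (z k n)) ∩ ev A (fun _ => TT Q (v k) n) (Ico (z k n) (z (k + 1) n)) := by
  rw [ev_split h]
  congr 1
  · ext ω
    rw [mem_ev, mem_ev]
    refine forall₂_congr fun m hm => ?_
    rw [mem_range] at hm
    conv_lhs => unfold tk
    rw [if_pos hm]
  · ext ω
    rw [mem_ev, mem_ev]
    refine forall₂_congr fun m hm => ?_
    rw [mem_Ico] at hm
    conv_lhs => unfold tk
    rw [if_neg (by omega)]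

theorem prob_k (hA : IsModel μ (level Q) A) (hQ : 1 ≤ Q) {z : ℕ → ℕ → ℕ} (hz0 : ∀ n, z 0 n = 0) (hzm : ∀ n, Monotone fun i => z i n)
    (hz : ∀ i n, z i n ≤ n) {θ v : ℕ → ℝ} (hv : Monotone v)
    (hzl : ∀ i, Tendsto (fun n : ℕ => (z i n : ℝ) / n) atTop (𝓝 (θ i))) (k : ℕ) :
    Tendsto (fun n => μ.real (ev A (tk Q z v k n) (range (z k n)))) atTop (𝓝 (Real.exp (-sig k θ v))) := by
  induction k with
  | zero =>
    have h1 : ∀ n, μ.real (ev A (tk Q z v 0 n) (range (z 0 n))) = 1 := by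
      intro n
      have h2 : ev A (tk Q z v 0 n) (range (z 0 n)) = Set.univ := by
        ext ω
        rw [mem_ev, hz0]
        simp
      rw [h2, probReal_univ]
    simp only [h1]
    unfold sig
    rw [Finset.range_zero, Finset.sum_empty, neg_zero, Real.exp_zero]
    exact tendsto_const_nhds
  | succ k ih =>
    have h1 := step hA hQ (hz (k + 1)) (v k) (v k) (E := fun n => ev A (tk Q z v k n) (range (z k n))) (z := z k) fun n =>
      F_ev fun j hj i hi1 hi2 => by
        have := tk_le (Q := Q) (z := z) hv k n j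
        rw [mem_range] at hj
        rw [Set.mem_Iio]
        omega
    have h2 := win_lim hA hQ (fun n => hzm n (Nat.le_succ k)) (hz (k + 1)) (hzl k) (hzl (k + 1)) (v k)
    have h3 := h1.add (ih.mul h2)
    have e1 : 0 + Real.exp (-sig k θ v) * Real.exp (-((θ (k + 1) ^ 2 - θ k ^ 2) * Real.exp (-v k))) = Real.exp (-sig (k + 1) θ v) := by
      unfold sig
      rw [zero_add, ← Real.exp_add, Finset.sum_range_succ]
      congr 1
      ring
    rw [e1] at h3
    refine h3.congr fun n => ?_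
    rw [ev_tk (hzm n (Nat.le_succ k))]
    ring

theorem asl_k (hA : IsModel μ (level Q) A) (hQ : 1 ≤ Q) {z : ℕ → ℕ → ℕ} (hz0 : ∀ n, z 0 n = 0) (hzm : ∀ n, Monotone fun i => z i n)
    (hz : ∀ i n, z i n ≤ n) {θ v : ℕ → ℝ} (hv : Monotone v)
    (hzl : ∀ i, Tendsto (fun n : ℕ => (z i n : ℝ) / n) atTop (𝓝 (θ i))) (k : ℕ) :
    ∀ᵐ ω ∂μ, Tendsto (lm fun n => ind (∀ m ∈ range (z k n), ¬ LG (A ω) (tk Q z v k n m) m)) atTop (𝓝 (Real.exp (-sig k θ v))) := by
  choose C hC hcr using fun i => crude hQ (v i)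
  have h1 := asl_ev hA (τ := fun n => tk Q z v k n) (I := fun n => range (z k n)) (C := ∑ i ∈ range (k + 1), C i)
    (fun n j hj => by
      have := hz k n
      rw [mem_range] at hj ⊢
      omega) (Finset.sum_nonneg fun i _ => (hC i).le) ?_ ?_ (prob_k hA hQ hz0 hzm hz hv hzl k)
  · filter_upwards [h1] with ω hω
    refine hω.congr fun N => ?_
    congr 1
    funext n
    by_cases h : ω ∈ ev A (tk Q z v k n) (range (z k n))
    · rw [Set.indicator_of_mem h]
      exact (ind_true (mem_ev.1 h)).symm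
    · rw [Set.indicator_of_notMem h]
      exact (ind_false fun h2 => h (mem_ev.2 h2)).symm
  · have h2 : ∀ᶠ n : ℕ in atTop, ∀ i ∈ range (k + 1), ∀ j ≤ n, ee (level Q) (TT Q (v i) n) j ≤ C i * Real.log n / n := by
      rw [Filter.eventually_all_finset]
      intro i _
      filter_upwards [hcr i] with n hn j hj using hn j hj
    filter_upwards [h2, eventually_ge_atTop 1] with n g1 g2 j hj
    obtain ⟨i, hi, h3⟩ := tk_mem (Q := Q) z v k n j
    rw [h3]
    refine (g1 i hi j hj).trans ?_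
    have hn : (0 : ℝ) < n := by exact_mod_cast g2
    refine div_le_div_of_nonneg_right (mul_le_mul_of_nonneg_right ?_ (Real.log_natCast_nonneg n)) hn.le
    exact Finset.single_le_sum (fun i _ => (hC i).le) hi
  · filter_upwards [TT_lt Q (v k)] with n g1 j _
    exact (tk_le hv k n j).trans_lt g1

/-- The joint law for fixed parameters. -/
theorem law_k (hA : IsModel μ (level Q) A) (hQ : 1 ≤ Q) {θ v : ℕ → ℝ} (hθ0 : θ 0 = 0) (hθ1 : ∀ i, θ i ≤ 1) (hθm : Monotone θ)
    (hv : Monotone v) (k : ℕ) :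
    ∀ᵐ ω ∂μ, Tendsto (lm fun n => ind (∀ i < k, G (A ω) (θ (i + 1) * n) ≤ TT Q (v i) n)) atTop (𝓝 (Real.exp (-sig k θ v))) := by
  have hθn : ∀ i, 0 ≤ θ i := fun i => hθ0 ▸ hθm (Nat.zero_le i)
  have hp0 : ∀ n, zp (θ 0) n = 0 := by
    intro n
    unfold zp
    rw [hθ0, zero_mul, Nat.floor_zero]
  have hpm : ∀ n, Monotone fun i => zp (θ i) n := by
    intro n i j hij
    exact Nat.floor_le_floor (mul_le_mul_of_nonneg_right (hθm hij) (Nat.cast_nonneg _))
  have h1 := asl_k hA hQ (z := fun i n => zp (θ i) n) hp0 hpm (fun i n => zp_le (hθ1 i) n) hv (fun i => zp_lim (hθn i)) k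
  have h2 := asl_k hA hQ (z := fun i n => zm (θ i) n) (fun n => by unfold zm; rw [← zp, hp0]; omega)
    (fun n i j hij => Nat.sub_le_sub_right (hpm n hij) _) (fun i n => zm_le (hθ1 i) n) hv (fun i => zm_lim (hθn i)) k
  filter_upwards [h1, h2, inf_R hA hQ] with ω g1 g2 g3
  obtain ⟨hinf, hR⟩ := g3
  refine lm_squeeze fun ε hε => ⟨_, _, _, _, Eventually.of_forall fun n => ?_, ?_, g1, g2, by linarith, by linarith⟩
  · refine ind_mono fun h i hi => G_le.2 fun a b h3 h4 => ?_
    have h5 : b ≤ zp (θ (i + 1)) n := Nat.le_floor h4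
    have h6 : a < zp (θ (i + 1)) n := lt_of_lt_of_le h3.1 h5
    have h7 := h a (mem_range.2 (lt_of_lt_of_le h6 (hpm n hi)))
    rw [LG_iff h3, not_lt] at h7
    exact h7.trans (tk_le_of_lt (z := fun i n => zp (θ i) n) hv (hpm n) hi h6)
  · filter_upwards [hR] with n hn
    refine ind_mono fun h m hm hL => ?_
    rw [mem_range] at hm
    have hm' : m ≤ n := (hm.trans_le (zm_le (hθ1 k) n)).le
    obtain ⟨i, h3, h4, h5⟩ := tk_eq (Q := Q) (z := fun i n => zm (θ i) n) (v := v) (by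
      show zm (θ 0) n = 0
      unfold zm
      rw [← zp, hp0]
      omega) hm
    rw [h5] at hL
    obtain ⟨b, hg⟩ := exists_gap hinf hL.1
    have h6 := (LG_iff hg _).1 hL
    have h7 := hn m b hg hm'
    have h8 := hg.1
    have h9 : b ≤ ⌊θ (i + 1) * (n : ℝ)⌋₊ := by
      have h4' : m < ⌊θ (i + 1) * (n : ℝ)⌋₊ - RR n := h4
      omega
    have h10 : (b : ℝ) ≤ θ (i + 1) * n :=
      (by exact_mod_cast h9 : (b : ℝ) ≤ (⌊θ (i + 1) * (n : ℝ)⌋₊ : ℝ)).trans (Nat.floor_le (mul_nonneg (hθn _) (Nat.cast_nonneg _)))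
    have h11 := G_le.1 (h i h3) m b hg h10
    omega

end Pool.Agent.H595.SH
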