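import Pool.Agent.H595.SH.Po
import Pool.Agent.H595.SH.Win

/-!
# The number of long gaps in windows
-/

set_option autoImplicit false

namespace Pool.Agent.H595.SH

open Finset MeasureTheory ProbabilityTheory Filter Pool.Agent.H595.AS Pool.Agent.Q120.AD Pool.Agent.Q120.GM
open scoped Topology

variable {Ω : Type*} [MeasurableSpace Ω] {μ : Measure Ω} [IsProbabilityMeasure μ] {p : ℕ → ℝ} {A : Ω → Set ℕ} {Q : ℕ}

open Classical in
/-- The number of the `m ∈ I` which are elements followed by `T` numbers outside the set. -/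
noncomputable def cn (A : Ω → Set ℕ) (T : ℕ) (I : Finset ℕ) (ω : Ω) : ℕ := (I.filter fun m => ω ∈ longAt A T m).card

/-- The event that this number is `c`. -/
def KK (A : Ω → Set ℕ) (T : ℕ) (I : Finset ℕ) (c : ℕ) : Set Ω := {ω | cn A T I ω = c}

omit [MeasurableSpace Ω] in
theorem cn_empty (T : ℕ) (ω : Ω) : cn A T ∅ ω = 0 := by unfold cn; simp

omit [MeasurableSpace Ω] in
theorem cn_insert_mem {T m : ℕ} {I : Finset ℕ} (hm : m ∉ I) {ω : Ω} (h : ω ∈ longAt A T m) :
    cn A T (insert m I) ω = cn A T I ω + 1 := by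
  classical
  unfold cn
  rw [Finset.filter_insert, if_pos h, Finset.card_insert_of_notMem (fun h2 => hm (mem_filter.1 h2).1)]

omit [MeasurableSpace Ω] in
theorem cn_insert_not {T m : ℕ} {I : Finset ℕ} {ω : Ω} (h : ω ∉ longAt A T m) :
    cn A T (insert m I) ω = cn A T I ω := by
  classical
  unfold cn
  rw [Finset.filter_insert, if_neg h]

omit [MeasurableSpace Ω] in
theorem cn_congr {T : ℕ} {I J : Finset ℕ} (hJ : J ⊆ I) {ω : Ω} (h : ∀ m ∈ I, m ∉ J → ω ∉ longAt A T m) :
    cn A T I ω = cn A T J ω := by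
  classical
  unfold cn
  congr 1
  ext m
  rw [mem_filter, mem_filter]
  constructor
  · rintro ⟨h1, h2⟩
    refine ⟨?_, h2⟩
    by_contra h3
    exact h m h1 h3 h2
  · rintro ⟨h1, h2⟩
    exact ⟨hJ h1, h2⟩

omit [MeasurableSpace Ω] in
theorem KK_insert {T m : ℕ} {I : Finset ℕ} (hm : m ∉ I) (c : ℕ) :
    KK A T (insert m I) c = (KK A T I c \ longAt A T m) ∪ ({ω | cn A T I ω + 1 = c} ∩ longAt A T m) := by
  ext ω
  unfold KK
  simp only [Set.mem_ofPred_eq, Set.mem_union, Set.mem_sdiff, Set.mem_inter_iff]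
  by_cases h : ω ∈ longAt A T m
  · rw [cn_insert_mem hm h]
    tauto
  · rw [cn_insert_not h]
    tauto

theorem KK_F {T : ℕ} {I : Finset ℕ} {S : Set ℕ} (h : ∀ m ∈ I, ∀ j, m ≤ j → j ≤ m + T → j ∈ S) (c : ℕ) :
    MeasurableSet[F A S] (KK A T I c) := by
  induction I using Finset.induction_on generalizing c with
  | empty =>
    by_cases hc : c = 0
    · have h1 : KK A T ∅ c = Set.univ := by
        ext ω
        unfold KK
        simp [cn_empty, hc]
      rw [h1]
      exact @MeasurableSet.univ _ (F A S)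
    · have h1 : KK A T ∅ c = ∅ := by
        ext ω
        unfold KK
        simp only [Set.mem_ofPred_eq, cn_empty, Set.mem_empty_iff_false, iff_false]
        exact fun h => hc h.symm
      rw [h1]
      exact @MeasurableSet.empty _ (F A S)
  | insert m I hm ih =>
    have hL : MeasurableSet[F A S] (longAt A T m) := F_long fun j h1 h2 => h m (mem_insert_self _ _) j h1 h2
    have hI := ih fun j hj => h j (mem_insert_of_mem hj)
    rw [KK_insert hm]
    refine MeasurableSet.union (MeasurableSet.diff (hI c) hL) ?_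
    rcases c with _ | c
    · have h1 : {ω | cn A T I ω + 1 = 0} ∩ longAt A T m = ∅ := by
        ext ω
        simp
      rw [h1]
      exact @MeasurableSet.empty _ (F A S)
    · have h1 : {ω | cn A T I ω + 1 = c + 1} = KK A T I c := by
        ext ω
        unfold KK
        simp
      rw [h1]
      exact MeasurableSet.inter (hI c) hL

theorem KK_meas (hA : IsModel μ p A) (T : ℕ) (I : Finset ℕ) (c : ℕ) : MeasurableSet (KK A T I c) :=
  F_le hA Set.univ _ (KK_F (fun _ _ _ _ _ => Set.mem_univ _) c)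

/-- The probabilities. -/
noncomputable def qn (μ : Measure Ω) (A : Ω → Set ℕ) (T z : ℕ) : ℕ → ℕ → ℝ
  | 0, _ => 0
  | c + 1, N => μ.real (KK A T (Ico z N) c)

theorem qn_rec (hA : IsModel μ p A) {T z N : ℕ} (hN : z ≤ N) (c : ℕ) :
    qn μ A T z (c + 1) (N + 1) = qn μ A T z (c + 1) N - ee p T N * qn μ A T z (c + 1) (N - T) + ee p T N * qn μ A T z c (N - T) := by
  have hL : MeasurableSet (longAt A T N) := F_le hA Set.univ _ (F_long (fun _ _ _ => Set.mem_univ _))
  -- on `longAt A T N` only the indices below `N - T` count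
  have hcap : ∀ c, KK A T (Ico z N) c ∩ longAt A T N = KK A T (Ico z (N - T)) c ∩ longAt A T N := by
    intro c
    ext ω
    unfold KK
    simp only [Set.mem_inter_iff, Set.mem_ofPred_eq]
    refine and_congr_left fun h => ?_
    rw [cn_congr (I := Ico z N) (J := Ico z (N - T)) (fun m hm => by
      rw [mem_Ico] at hm ⊢
      omega) fun m hm hm' h2 => ?_]
    rw [mem_Ico] at hm hm'
    exact h2.2 N (mem_Ioc.2 ⟨hm.2, by omega⟩) h.1
  have hprod : ∀ c, μ.real (KK A T (Ico z N) c ∩ longAt A T N) = ee p T N * μ.real (KK A T (Ico z (N - T)) c) := by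
    intro c
    rw [hcap]
    have hST : Disjoint (Set.Iio N) (Set.Ici N) := by
      rw [Set.disjoint_left]
      intro x hx hx'
      rw [Set.mem_Iio] at hx
      rw [Set.mem_Ici] at hx'
      omega
    rw [indep_real hA hST (KK_F (fun m hm j h1 h2 => ?_) c) (F_long fun j h1 _ => ?_), real_long hA, mul_comm]
    · rw [mem_Ico] at hm
      rw [Set.mem_Iio]
      omega
    · rw [Set.mem_Ici]
      exact h1
  have hI : Ico z (N + 1) = insert N (Ico z N) := by
    ext m
    rw [mem_insert, mem_Ico, mem_Ico]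
    omega
  have hNI : N ∉ Ico z N := by
    rw [mem_Ico]
    omega
  show μ.real (KK A T (Ico z (N + 1)) c) = μ.real (KK A T (Ico z N) c) - ee p T N * μ.real (KK A T (Ico z (N - T)) c) + _
  rw [hI, KK_insert hNI]
  have hdisj : Disjoint (KK A T (Ico z N) c \ longAt A T N) ({ω | cn A T (Ico z N) ω + 1 = c} ∩ longAt A T N) := by
    rw [Set.disjoint_left]
    rintro ω ⟨_, h1⟩ ⟨_, h2⟩
    exact h1 h2
  have hm2 : MeasurableSet ({ω | cn A T (Ico z N) ω + 1 = c} ∩ longAt A T N) := by
    rcases c with _ | c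
    · have h1 : {ω | cn A T (Ico z N) ω + 1 = 0} ∩ longAt A T N = ∅ := by
        ext ω
        simp
      rw [h1]
      exact MeasurableSet.empty
    · have h1 : {ω | cn A T (Ico z N) ω + 1 = c + 1} = KK A T (Ico z N) c := by
        ext ω
        unfold KK
        simp
      rw [h1]
      exact (KK_meas hA T _ c).inter hL
  rw [measureReal_union hdisj hm2]
  have h1 := measureReal_inter_add_sdiff (μ := μ) (s := KK A T (Ico z N) c) hL
  rw [hprod] at h1
  have h2 : μ.real ({ω | cn A T (Ico z N) ω + 1 = c} ∩ longAt A T N) = ee p T N * qn μ A T z c (N - T) := by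
    rcases c with _ | c
    · have h1 : {ω | cn A T (Ico z N) ω + 1 = 0} ∩ longAt A T N = ∅ := by
        ext ω
        simp
      rw [h1, measureReal_empty]
      show 0 = ee p T N * 0
      rw [mul_zero]
    · have h1 : {ω | cn A T (Ico z N) ω + 1 = c + 1} = KK A T (Ico z N) c := by
        ext ω
        unfold KK
        simp
      rw [h1]
      exact hprod c
  rw [h2]
  linarith

/-- The Poisson law in a window. -/
theorem win_poisson (hA : IsModel μ (level Q) A) (hQ : 1 ≤ Q) {z z' : ℕ → ℕ} (hzz : ∀ n, z n ≤ z' n) (hz' : ∀ n, z' n ≤ n + 1)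
    (w : ℝ) {lam : ℝ} (hlam : Tendsto (fun n => ∑ m ∈ Ico (z n) (z' n), ee (level Q) (TT Q w n) m) atTop (𝓝 lam)) (c : ℕ) :
    Tendsto (fun n => μ.real (KK A (TT Q w n) (Ico (z n) (z' n)) c)) atTop (𝓝 (po (c + 1) lam)) := by
  obtain ⟨C, hC, hcr⟩ := crude hQ w
  have hlim : Tendsto (fun n : ℕ => (((TT Q w n : ℕ) : ℝ) + 1) * (C * Real.log n / n)) atTop (𝓝 0) := by
    rw [Metric.tendsto_nhds]
    intro s hs
    filter_upwards [TT_small Q w hC.le (half_pos hs), (Metric.tendsto_nhds.1 (log_div_lim C)) (s / 2) (half_pos hs)] with n g1 g2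
    rw [Real.dist_eq, sub_zero] at g2 ⊢
    have hl : 0 ≤ Real.log n := Real.log_natCast_nonneg n
    have h0 : 0 ≤ C * Real.log n / n := by positivity
    rw [abs_of_nonneg h0] at g2
    rw [abs_of_nonneg (by positivity), add_mul, one_mul]
    linarith
  have hmain : ∀ᶠ n : ℕ in atTop, |μ.real (KK A (TT Q w n) (Ico (z n) (z' n)) c) -
      po (c + 1) (∑ m ∈ Ico (z n) (z' n), ee (level Q) (TT Q w n) m)| ≤
      ((c + 1 : ℕ) : ℝ) * (4 * ((((TT Q w n : ℕ) : ℝ) + 1) * (C * Real.log n / n))) := by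
    filter_upwards [hcr, hlim.eventually (eventually_lt_nhds (show (0 : ℝ) < 1 by norm_num))] with n g1 g2
    have hl : 0 ≤ Real.log n := Real.log_natCast_nonneg n
    have hconst : ∀ c N, N ≤ z n → qn μ A (TT Q w n) (z n) c N = qn μ A (TT Q w n) (z n) c (z n) := by
      intro c N hN
      rcases c with _ | c
      · rfl
      · show μ.real (KK A _ (Ico (z n) N) c) = μ.real (KK A _ (Ico (z n) (z n)) c)
        rw [Finset.Ico_eq_empty_of_le hN, Finset.Ico_self]
    refine poisson_approx (z := z n) (n := z' n) (T := TT Q w n) (e := ee (level Q) (TT Q w n)) (q := qn μ A (TT Q w n) (z n))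
      (ee_nonneg hA _) (fun m _ hm => g1 m (by have := hz' n; omega)) g2.le (by positivity) (fun c N => ?_) (fun N => rfl) hconst ?_
      (fun c => ?_) (fun c N h1 _ => qn_rec hA h1 c) (c + 1) (z' n) (hzz n) le_rfl
    · rcases c with _ | c
      · exact ⟨le_rfl, zero_le_one⟩
      · exact ⟨measureReal_nonneg, measureReal_le_one⟩
    · show μ.real (KK A _ (Ico (z n) (z n)) 0) = 1
      have h1 : KK A (TT Q w n) (Ico (z n) (z n)) 0 = Set.univ := by
        ext ω
        unfold KK
        simp [cn_empty]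
      rw [h1, probReal_univ]
    · show μ.real (KK A _ (Ico (z n) (z n)) (c + 1)) = 0
      have h1 : KK A (TT Q w n) (Ico (z n) (z n)) (c + 1) = ∅ := by
        ext ω
        unfold KK
        simp [cn_empty]
      rw [h1, measureReal_empty]
  have h1 : Tendsto (fun n : ℕ => ((c + 1 : ℕ) : ℝ) * (4 * ((((TT Q w n : ℕ) : ℝ) + 1) * (C * Real.log n / n)))) atTop (𝓝 0) := by
    have := (hlim.const_mul 4).const_mul ((c + 1 : ℕ) : ℝ)
    rwa [mul_zero, mul_zero] at this
  have h2 : Tendsto (fun n => μ.real (KK A (TT Q w n) (Ico (z n) (z' n)) c) -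
      po (c + 1) (∑ m ∈ Ico (z n) (z' n), ee (level Q) (TT Q w n) m)) atTop (𝓝 0) := squeeze_zero_norm' hmain h1
  have h3 := h2.add (((po_cont (c + 1)).tendsto lam).comp hlam)
  rw [zero_add] at h3
  refine h3.congr fun n => ?_
  simp only [Function.comp_apply]
  ring

/-- The sums over the windows. -/
theorem win_sum (hQ : 1 ≤ Q) {θ θ' : ℝ} (h0 : 0 ≤ θ) (h1 : θ ≤ θ') (h2 : θ' ≤ 1) (w : ℝ) :
    Tendsto (fun n : ℕ => ∑ m ∈ Ico (zp θ n + 1) (zp θ' n + 1), ee (level Q) (TT Q w n) m) atTop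
      (𝓝 ((θ' ^ 2 - θ ^ 2) * Real.exp (-w))) := by
  have e1 := ssum_z_lim hQ (fun n => zp_le (h1.trans h2) n) (zp_lim h0) w
  have e2 := ssum_z_lim hQ (fun n => zp_le h2 n) (zp_lim (h0.trans h1)) w
  have e3 := e2.sub e1
  rw [← sub_mul] at e3
  refine e3.congr fun n => ?_
  have h3 : zp θ n + 1 ≤ zp θ' n + 1 := by
    have : zp θ n ≤ zp θ' n := Nat.floor_le_floor (mul_le_mul_of_nonneg_right h1 (Nat.cast_nonneg _))
    omega
  rw [Finset.sum_Ico_eq_sub _ h3]

end Pool.Agent.H595.SH
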