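import Pool.Agent.H595.SH.Cnt

/-!
# The numbers of long gaps in several windows: almost sure joint law
-/

set_option autoImplicit false

namespace Pool.Agent.H595.SH

open Finset MeasureTheory ProbabilityTheory Filter Pool.Agent.H595.AS Pool.Agent.Q120.AD Pool.Agent.Q120.GM
open scoped Topology

variable {Ω : Type*} [MeasurableSpace Ω] {μ : Measure Ω} [IsProbabilityMeasure μ] {p : ℕ → ℝ} {A : Ω → Set ℕ} {Q : ℕ}

/-- The joint event. -/
def EW (A : Ω → Set ℕ) (T : ℕ → ℕ) (I : ℕ → Finset ℕ) (c : ℕ → ℕ) (k : ℕ) : Set Ω := {ω | ∀ i < k, cn A (T i) (I i) ω = c i}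

omit [MeasurableSpace Ω] in
theorem EW_zero (T : ℕ → ℕ) (I : ℕ → Finset ℕ) (c : ℕ → ℕ) : EW A T I c 0 = Set.univ := by
  ext ω
  unfold EW
  simp

omit [MeasurableSpace Ω] in
theorem EW_succ (T : ℕ → ℕ) (I : ℕ → Finset ℕ) (c : ℕ → ℕ) (k : ℕ) :
    EW A T I c (k + 1) = EW A T I c k ∩ KK A (T k) (I k) (c k) := by
  ext ω
  unfold EW KK
  simp only [Set.mem_ofPred_eq, Set.mem_inter_iff]
  constructor
  · intro h
    exact ⟨fun i hi => h i (by omega), h k (by omega)⟩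
  · rintro ⟨h1, h2⟩ i hi
    rcases Nat.lt_succ_iff_lt_or_eq.1 hi with h3 | h3
    · exact h1 i h3
    · rw [h3]
      exact h2

theorem EW_F {T : ℕ → ℕ} {I : ℕ → Finset ℕ} {c : ℕ → ℕ} {k : ℕ} {S : Set ℕ}
    (h : ∀ i < k, ∀ m ∈ I i, ∀ j, m ≤ j → j ≤ m + T i → j ∈ S) : MeasurableSet[F A S] (EW A T I c k) := by
  induction k with
  | zero =>
    rw [EW_zero]
    exact @MeasurableSet.univ _ (F A S)
  | succ k ih =>
    rw [EW_succ]
    exact MeasurableSet.inter (ih fun i hi => h i (by omega)) (KK_F (h k (by omega)) _)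

theorem EW_meas (hA : IsModel μ p A) (T : ℕ → ℕ) (I : ℕ → Finset ℕ) (c : ℕ → ℕ) (k : ℕ) : MeasurableSet (EW A T I c k) :=
  F_le hA Set.univ _ (EW_F fun _ _ _ _ _ _ _ => Set.mem_univ _)

/-- The exceptional event. -/
def BB (A : Ω → Set ℕ) (T : ℕ → ℕ) (I J : ℕ → Finset ℕ) (k : ℕ) : Set Ω := ⋃ i ∈ range k, ⋃ m ∈ I i \ J i, longAt A (T i) m

omit [MeasurableSpace Ω] in
theorem EW_iff {T : ℕ → ℕ} {I J : ℕ → Finset ℕ} {c : ℕ → ℕ} {k : ℕ} (hJ : ∀ i, J i ⊆ I i) {ω : Ω} (h : ω ∉ BB A T I J k) :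
    ω ∈ EW A T I c k ↔ ω ∈ EW A T J c k := by
  unfold BB at h
  simp only [Set.mem_iUnion, not_exists] at h
  unfold EW
  simp only [Set.mem_ofPred_eq]
  refine forall₂_congr fun i hi => ?_
  rw [cn_congr (hJ i) fun m hm hm' => h i (mem_range.2 hi) m (Finset.mem_sdiff.2 ⟨hm, hm'⟩)]

theorem BB_le (hA : IsModel μ p A) (T : ℕ → ℕ) (I J : ℕ → Finset ℕ) (k : ℕ) :
    μ.real (BB A T I J k) ≤ ∑ i ∈ range k, ∑ m ∈ I i \ J i, ee p (T i) m := by
  unfold BB
  refine (measureReal_biUnion_finset_le _ _).trans (Finset.sum_le_sum fun i _ => ?_)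
  refine (measureReal_biUnion_finset_le _ _).trans (le_of_eq ?_)
  exact Finset.sum_congr rfl fun m _ => real_long hA _ _

theorem cov_sym (hA : IsModel μ p A) {S T : Set ℕ} (hST : Disjoint S T) {E G G' B : Set Ω}
    (hE : MeasurableSet[F A S] E) (hG' : MeasurableSet[F A T] G') (hB : ∀ ω, ω ∉ B → (ω ∈ G ↔ ω ∈ G')) {δ : ℝ} (hδ : μ.real B ≤ δ) :
    |μ.real (E ∩ G) - μ.real E * μ.real G| ≤ 2 * δ := by
  have h1 := indep_real hA hST hE hG'
  have hle : ∀ X Y : Set Ω, X ⊆ Y ∪ B → μ.real X ≤ μ.real Y + δ := by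
    intro X Y h
    have := (measureReal_mono h (measure_ne_top μ _)).trans (measureReal_union_le Y B)
    linarith
  have h2 := hle (E ∩ G) (E ∩ G') (by
    rintro ω ⟨h3, h4⟩
    by_cases h5 : ω ∈ B
    · exact Or.inr h5
    · exact Or.inl ⟨h3, (hB ω h5).1 h4⟩)
  have h3 := hle (E ∩ G') (E ∩ G) (by
    rintro ω ⟨h3, h4⟩
    by_cases h5 : ω ∈ B
    · exact Or.inr h5
    · exact Or.inl ⟨h3, (hB ω h5).2 h4⟩)
  have h4 := hle G G' (by
    intro ω h4
    by_cases h5 : ω ∈ B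
    · exact Or.inr h5
    · exact Or.inl ((hB ω h5).1 h4))
  have h5 := hle G' G (by
    intro ω h4
    by_cases h5 : ω ∈ B
    · exact Or.inr h5
    · exact Or.inl ((hB ω h5).2 h4))
  have h6 : μ.real E ≤ 1 := measureReal_le_one
  have h7 : 0 ≤ μ.real E := measureReal_nonneg
  have h8 : 0 ≤ δ := le_trans measureReal_nonneg hδ
  have h9 : μ.real E * μ.real G ≤ μ.real E * μ.real G' + δ := by
    have := mul_le_mul_of_nonneg_left h4 h7
    have := mul_le_mul_of_nonneg_right h6 h8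
    linarith
  have h10 : μ.real E * μ.real G' ≤ μ.real E * μ.real G + δ := by
    have := mul_le_mul_of_nonneg_left h5 h7
    have := mul_le_mul_of_nonneg_right h6 h8
    linarith
  rw [abs_le]
  constructor <;> linarith

/-- The joint law in probability. -/
theorem EW_lim (hA : IsModel μ (level Q) A) (hQ : 1 ≤ Q) {θ v : ℕ → ℝ} (hθ0 : ∀ i, 0 ≤ θ i) (hθ1 : ∀ i, θ i ≤ 1) (hθm : Monotone θ)
    (c : ℕ → ℕ) (k : ℕ) :
    Tendsto (fun n => μ.real (EW A (fun i => TT Q (v i) n) (fun i => Ico (zp (θ i) n + 1) (zp (θ (i + 1)) n + 1)) c k)) atTop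
      (𝓝 (∏ i ∈ range k, po (c i + 1) ((θ (i + 1) ^ 2 - θ i ^ 2) * Real.exp (-v i)))) := by
  have hzm : ∀ n i, zp (θ i) n ≤ zp (θ (i + 1)) n := fun n i =>
    Nat.floor_le_floor (mul_le_mul_of_nonneg_right (hθm (Nat.le_succ i)) (Nat.cast_nonneg _))
  induction k with
  | zero =>
    simp only [EW_zero, probReal_univ, Finset.range_zero, Finset.prod_empty]
    exact tendsto_const_nhds
  | succ k ih =>
    have hw := win_poisson hA hQ (z := fun n => zp (θ k) n + 1) (z' := fun n => zp (θ (k + 1)) n + 1)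
      (fun n => by have := hzm n k; omega) (fun n => by have := zp_le (hθ1 (k + 1)) n; omega) (v k)
      (win_sum hQ (hθ0 k) (hθm (Nat.le_succ k)) (hθ1 _) (v k)) (c k)
    obtain ⟨V, hV⟩ : ∃ V, V = ∑ i ∈ range k, |v i| := ⟨_, rfl⟩
    have hvV : ∀ i < k, v i ≤ V := fun i hi => (le_abs_self _).trans (by
      rw [hV]
      exact Finset.single_le_sum (f := fun i => |v i|) (fun _ _ => abs_nonneg _) (mem_range.2 hi))
    obtain ⟨C, hC, hcr⟩ := crude hQ (v k)
    have hstep : Tendsto (fun n => μ.real (EW A (fun i => TT Q (v i) n) (fun i => Ico (zp (θ i) n + 1) (zp (θ (i + 1)) n + 1)) c k ∩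
        KK A (TT Q (v k) n) (Ico (zp (θ k) n + 1) (zp (θ (k + 1)) n + 1)) (c k)) -
        μ.real (EW A (fun i => TT Q (v i) n) (fun i => Ico (zp (θ i) n + 1) (zp (θ (i + 1)) n + 1)) c k) *
        μ.real (KK A (TT Q (v k) n) (Ico (zp (θ k) n + 1) (zp (θ (k + 1)) n + 1)) (c k))) atTop (𝓝 0) := by
      rw [Metric.tendsto_nhds]
      intro s hs
      filter_upwards [TT_small Q V hC.le (show (0 : ℝ) < s / 3 by positivity), hcr] with n g1 g2
      rw [Real.dist_eq, sub_zero]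
      refine lt_of_le_of_lt ?_ (show 2 * (s / 3) < s by linarith)
      obtain ⟨a, ha⟩ : ∃ a, a = zp (θ k) n + 1 + TT Q V n := ⟨_, rfl⟩
      have hST : Disjoint (Set.Iio a) (Set.Ici a) := by
        rw [Set.disjoint_left]
        intro x hx hx'
        rw [Set.mem_Iio] at hx
        rw [Set.mem_Ici] at hx'
        omega
      refine cov_sym hA hST (G' := KK A (TT Q (v k) n) ((Ico (zp (θ k) n + 1) (zp (θ (k + 1)) n + 1)).filter fun j => a ≤ j) (c k))
        (B := ⋃ m ∈ (Ico (zp (θ k) n + 1) (zp (θ (k + 1)) n + 1)) \ ((Ico (zp (θ k) n + 1) (zp (θ (k + 1)) n + 1)).filter fun j => a ≤ j),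
          longAt A (TT Q (v k) n) m) (EW_F fun i hi m hm j h1 h2 => ?_) (KK_F (fun m hm j h1 h2 => ?_) _) (fun ω hω => ?_) ?_
      · rw [mem_Ico] at hm
        rw [Set.mem_Iio]
        have e1 := TT_mono (Q := Q) (hvV i hi) n
        have e2 : zp (θ (i + 1)) n ≤ zp (θ k) n :=
          Nat.floor_le_floor (mul_le_mul_of_nonneg_right (hθm (by omega)) (Nat.cast_nonneg _))
        omega
      · rw [mem_filter] at hm
        rw [Set.mem_Ici]
        omega
      · simp only [Set.mem_iUnion, not_exists] at hω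
        unfold KK
        simp only [Set.mem_ofPred_eq]
        rw [cn_congr (filter_subset _ _) fun m hm hm' => hω m (Finset.mem_sdiff.2 ⟨hm, hm'⟩)]
      · refine (measureReal_biUnion_finset_le _ _).trans ?_
        have e1 : ∀ m ∈ (Ico (zp (θ k) n + 1) (zp (θ (k + 1)) n + 1)) \ ((Ico (zp (θ k) n + 1) (zp (θ (k + 1)) n + 1)).filter fun j => a ≤ j),
            μ.real (longAt A (TT Q (v k) n) m) ≤ C * Real.log n / n := by
          intro m hm
          rw [real_long hA]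
          have e2 := mem_Ico.1 (Finset.mem_sdiff.1 hm).1
          have e3 := zp_le (hθ1 (k + 1)) n
          exact g2 m (by omega)
        refine (Finset.sum_le_card_nsmul _ _ _ e1).trans ?_
        rw [nsmul_eq_mul]
        have hsub : (Ico (zp (θ k) n + 1) (zp (θ (k + 1)) n + 1)) \ ((Ico (zp (θ k) n + 1) (zp (θ (k + 1)) n + 1)).filter fun j => a ≤ j) ⊆
            Ico (zp (θ k) n + 1) (zp (θ k) n + 1 + TT Q V n) := by
          intro j hj
          rw [Finset.mem_sdiff, mem_filter] at hj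
          rw [mem_Ico]
          have h1 := mem_Ico.1 hj.1
          refine ⟨h1.1, ?_⟩
          by_contra hcon
          exact hj.2 ⟨hj.1, by omega⟩
        have hcard := card_le_card hsub
        rw [Nat.card_Ico, Nat.add_sub_cancel_left] at hcard
        have hl : 0 ≤ Real.log n := Real.log_natCast_nonneg n
        refine (mul_le_mul_of_nonneg_right ?_ (by positivity)).trans g1
        exact_mod_cast hcard
    have h3 := hstep.add (ih.mul hw)
    rw [zero_add] at h3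
    rw [Finset.prod_range_succ]
    refine h3.congr fun n => ?_
    rw [EW_succ]
    ring

/-- The joint law, almost surely. -/
theorem EW_asl (hA : IsModel μ (level Q) A) (hQ : 1 ≤ Q) {θ v : ℕ → ℝ} (hθ0 : ∀ i, 0 ≤ θ i) (hθ1 : ∀ i, θ i ≤ 1) (hθm : Monotone θ)
    (c : ℕ → ℕ) (k : ℕ) :
    ∀ᵐ ω ∂μ, Tendsto (lm fun n => (EW A (fun i => TT Q (v i) n) (fun i => Ico (zp (θ i) n + 1) (zp (θ (i + 1)) n + 1)) c k).indicator
      (fun _ => (1 : ℝ)) ω) atTop (𝓝 (∏ i ∈ range k, po (c i + 1) ((θ (i + 1) ^ 2 - θ i ^ 2) * Real.exp (-v i)))) := by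
  choose C hC hcr using fun i => crude hQ (v i)
  have hCs : 0 ≤ ∑ i ∈ range k, C i := Finset.sum_nonneg fun i _ => (hC i).le
  refine asl (E := fun n => EW A (fun i => TT Q (v i) n) (fun i => Ico (zp (θ i) n + 1) (zp (θ (i + 1)) n + 1)) c k)
    (fun n => EW_meas hA _ _ _ _) (C := 8 * ∑ i ∈ range k, C i) (by positivity) ?_ (EW_lim hA hQ hθ0 hθ1 hθm c k)
  have h2 : ∀ᶠ n : ℕ in atTop, ∀ i ∈ range k, ∀ j ≤ n, ee (level Q) (TT Q (v i) n) j ≤ C i * Real.log n / n := by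
    rw [Filter.eventually_all_finset]
    intro i _
    filter_upwards [hcr i] with n hn j hj using hn j hj
  have h3 : ∀ᶠ n : ℕ in atTop, ∀ i ∈ range k, TT Q (v i) n < n := by
    rw [Filter.eventually_all_finset]
    exact fun i _ => TT_lt Q (v i)
  obtain ⟨n1, h4⟩ := eventually_atTop.1 h2
  filter_upwards [h3, eventually_ge_atTop n1, eventually_ge_atTop 1] with m g1 g2 g3 n hmn
  have g4 := h4 n (by omega)
  have hST : Disjoint (Set.Iio (2 * m + 1)) (Set.Ici (2 * m + 1)) := by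
    rw [Set.disjoint_left]
    intro x hx hx'
    rw [Set.mem_Iio] at hx
    rw [Set.mem_Ici] at hx'
    omega
  have hl : 0 ≤ Real.log n := Real.log_natCast_nonneg n
  have hn0 : (0 : ℝ) < n := by exact_mod_cast (by omega : 0 < n)
  have hm1 : (1 : ℝ) ≤ m := by exact_mod_cast g3
  have key := cov_sym hA hST (E := EW A (fun i => TT Q (v i) m) (fun i => Ico (zp (θ i) m + 1) (zp (θ (i + 1)) m + 1)) c k)
    (G := EW A (fun i => TT Q (v i) n) (fun i => Ico (zp (θ i) n + 1) (zp (θ (i + 1)) n + 1)) c k)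
    (G' := EW A (fun i => TT Q (v i) n) (fun i => (Ico (zp (θ i) n + 1) (zp (θ (i + 1)) n + 1)).filter fun j => 2 * m + 1 ≤ j) c k)
    (B := BB A (fun i => TT Q (v i) n) (fun i => Ico (zp (θ i) n + 1) (zp (θ (i + 1)) n + 1))
      (fun i => (Ico (zp (θ i) n + 1) (zp (θ (i + 1)) n + 1)).filter fun j => 2 * m + 1 ≤ j) k)
    (EW_F fun i hi j hj l h5 h6 => ?_) (EW_F fun i hi j hj l h5 h6 => ?_) (fun ω hω => EW_iff (fun i => filter_subset _ _) hω)
    ((BB_le hA _ _ _ _).trans (Finset.sum_le_sum (g := fun i => (2 * (m : ℝ) + 1) * (C i * Real.log n / n)) fun i hi => ?_))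
  · refine key.trans ?_
    rw [← Finset.mul_sum, ← Finset.sum_div, ← Finset.sum_mul]
    have e1 : 2 * ((2 * (m : ℝ) + 1) * ((∑ i ∈ range k, C i) * Real.log n / n)) ≤ 2 * ((4 * (m : ℝ)) * ((∑ i ∈ range k, C i) * Real.log n / n)) := by
      have : 0 ≤ (∑ i ∈ range k, C i) * Real.log n / n := by positivity
      have := mul_le_mul_of_nonneg_right (show 2 * (m : ℝ) + 1 ≤ 4 * m by linarith) this
      linarith
    refine e1.trans (le_of_eq ?_)
    ring
  · rw [mem_Ico] at hj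
    rw [Set.mem_Iio]
    have e1 := g1 i (mem_range.2 hi)
    have e2 := zp_le (hθ1 (i + 1)) m
    omega
  · rw [mem_filter] at hj
    rw [Set.mem_Ici]
    omega
  · have e1 : ∀ j ∈ Ico (zp (θ i) n + 1) (zp (θ (i + 1)) n + 1) \ (Ico (zp (θ i) n + 1) (zp (θ (i + 1)) n + 1)).filter (fun j => 2 * m + 1 ≤ j),
        ee (level Q) (TT Q (v i) n) j ≤ C i * Real.log n / n := by
      intro j hj
      have e2 := mem_Ico.1 (Finset.mem_sdiff.1 hj).1
      have e3 := zp_le (hθ1 (i + 1)) n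
      exact g4 i hi j (by omega)
    refine (Finset.sum_le_card_nsmul _ _ _ e1).trans ?_
    rw [nsmul_eq_mul]
    have hsub : Ico (zp (θ i) n + 1) (zp (θ (i + 1)) n + 1) \ (Ico (zp (θ i) n + 1) (zp (θ (i + 1)) n + 1)).filter (fun j => 2 * m + 1 ≤ j) ⊆
        range (2 * m + 1) := by
      intro j hj
      rw [Finset.mem_sdiff, mem_filter] at hj
      rw [mem_range]
      by_contra hcon
      exact hj.2 ⟨hj.1, by omega⟩
    have hcard := card_le_card hsub
    rw [card_range] at hcard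
    have := (hC i).le
    refine mul_le_mul_of_nonneg_right ?_ (by positivity)
    exact_mod_cast hcard

/-- The number of the gaps of `S` which begin in `(y, z]` and are longer than `t`. -/
noncomputable def NG (S : Set ℕ) (y z t : ℝ) : ℕ := Set.ncard {a : ℕ | y < a ∧ (a : ℝ) ≤ z ∧ ∃ b, IsGap S a b ∧ t < ((b - a : ℕ) : ℝ)}

omit [MeasurableSpace Ω] in
theorem NG_eq {ω : Ω} (hinf : ∀ N : ℕ, ∃ n, N < n ∧ n ∈ A ω) {θ θ' t : ℝ} (h0 : 0 ≤ θ) (h1 : 0 ≤ θ') (ht : 0 ≤ t) (n : ℕ) :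
    NG (A ω) (θ * n) (θ' * n) t = cn A ⌊t⌋₊ (Ico (zp θ n + 1) (zp θ' n + 1)) ω := by
  classical
  unfold NG cn
  rw [← Set.ncard_coe_finset]
  congr 1
  ext a
  simp only [Set.mem_ofPred_eq, coe_filter, mem_Ico]
  have e1 : θ * n < a ↔ zp θ n + 1 ≤ a := by
    unfold zp
    rw [Nat.succ_le_iff, Nat.floor_lt (by positivity)]
  have e2 : (a : ℝ) ≤ θ' * n ↔ a < zp θ' n + 1 := by
    unfold zp
    rw [Nat.lt_succ_iff, Nat.le_floor_iff (by positivity)]
  rw [e1, e2, ← and_assoc]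
  refine and_congr_right fun _ => ?_
  constructor
  · rintro ⟨b, h2, h3⟩
    exact (LG_iff h2 _).2 ((Nat.floor_lt ht).2 h3)
  · intro h
    obtain ⟨b, hb⟩ := exists_gap hinf (show a ∈ A ω from h.1)
    exact ⟨b, hb, (Nat.floor_lt ht).1 ((LG_iff hb _).1 h)⟩

end Pool.Agent.H595.SH
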