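import Pool.Agent.H595.SH.Win

/-!
# The joint law, almost surely for all parameters
-/

set_option autoImplicit false

namespace Pool.Agent.H595.SH

open Finset MeasureTheory ProbabilityTheory Filter Pool.Agent.H595.AS Pool.Agent.Q120.AD Pool.Agent.Q120.GM
open scoped Topology

/-- Rational approximations from below and from above. -/
noncomputable def lo (D : ℕ) (t : ℝ) : ℚ := (⌊t * D⌋ : ℚ) / D

noncomputable def up (D : ℕ) (t : ℝ) : ℚ := (⌈t * D⌉ : ℚ) / D

theorem lo_mono (D : ℕ) : Monotone (lo D) := by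
  intro s t hst
  unfold lo
  refine div_le_div_of_nonneg_right ?_ (Nat.cast_nonneg _)
  exact_mod_cast Int.floor_le_floor (mul_le_mul_of_nonneg_right hst (Nat.cast_nonneg D))

theorem up_mono (D : ℕ) : Monotone (up D) := by
  intro s t hst
  unfold up
  refine div_le_div_of_nonneg_right ?_ (Nat.cast_nonneg _)
  exact_mod_cast Int.ceil_le_ceil (mul_le_mul_of_nonneg_right hst (Nat.cast_nonneg D))

theorem lo_zero (D : ℕ) : lo D 0 = 0 := by unfold lo; simp

theorem up_zero (D : ℕ) : up D 0 = 0 := by unfold up; simp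

theorem lo_one {D : ℕ} (hD : 1 ≤ D) : lo D 1 = 1 := by
  unfold lo
  have : (D : ℚ) ≠ 0 := by exact_mod_cast (by omega : D ≠ 0)
  rw [one_mul, Int.floor_natCast, Int.cast_natCast, div_self this]

theorem up_one {D : ℕ} (hD : 1 ≤ D) : up D 1 = 1 := by
  unfold up
  have : (D : ℚ) ≠ 0 := by exact_mod_cast (by omega : D ≠ 0)
  rw [one_mul, Int.ceil_natCast, Int.cast_natCast, div_self this]

theorem lo_le {D : ℕ} (hD : 1 ≤ D) (t : ℝ) : ((lo D t : ℚ) : ℝ) ≤ t ∧ t - 1 / D ≤ ((lo D t : ℚ) : ℝ) := by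
  unfold lo
  have hD0 : (0 : ℝ) < D := by exact_mod_cast hD
  push_cast
  have h1 := Int.floor_le (t * D)
  have h2 := Int.lt_floor_add_one (t * D)
  constructor
  · rw [div_le_iff₀ hD0]
    exact h1
  · rw [le_div_iff₀ hD0, sub_mul, one_div, inv_mul_cancel₀ hD0.ne']
    linarith

theorem le_up {D : ℕ} (hD : 1 ≤ D) (t : ℝ) : t ≤ ((up D t : ℚ) : ℝ) ∧ ((up D t : ℚ) : ℝ) ≤ t + 1 / D := by
  unfold up
  have hD0 : (0 : ℝ) < D := by exact_mod_cast hD
  push_cast
  have h1 := Int.le_ceil (t * D)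
  have h2 := Int.ceil_lt_add_one (t * D)
  constructor
  · rw [le_div_iff₀ hD0]
    exact h1
  · rw [div_le_iff₀ hD0, add_mul, one_div, inv_mul_cancel₀ hD0.ne']
    linarith

theorem lo_lim (t : ℝ) : Tendsto (fun D : ℕ => ((lo D t : ℚ) : ℝ)) atTop (𝓝 t) := by
  have h1 : Tendsto (fun D : ℕ => t - 1 / (D : ℝ)) atTop (𝓝 (t - 0)) := tendsto_const_nhds.sub tendsto_one_div_atTop_nhds_zero_nat
  rw [sub_zero] at h1
  refine tendsto_of_tendsto_of_tendsto_of_le_of_le' h1 tendsto_const_nhds ?_ ?_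
  · filter_upwards [eventually_ge_atTop 1] with D hD using (lo_le hD t).2
  · filter_upwards [eventually_ge_atTop 1] with D hD using (lo_le hD t).1

theorem up_lim (t : ℝ) : Tendsto (fun D : ℕ => ((up D t : ℚ) : ℝ)) atTop (𝓝 t) := by
  have h1 : Tendsto (fun D : ℕ => t + 1 / (D : ℝ)) atTop (𝓝 (t + 0)) := tendsto_const_nhds.add tendsto_one_div_atTop_nhds_zero_nat
  rw [add_zero] at h1
  refine tendsto_of_tendsto_of_tendsto_of_le_of_le' tendsto_const_nhds h1 ?_ ?_
  · filter_upwards [eventually_ge_atTop 1] with D hD using (le_up hD t).1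
  · filter_upwards [eventually_ge_atTop 1] with D hD using (le_up hD t).2

/-- The sequence given by a list of rational numbers. -/
noncomputable def sq (k : ℕ) (L : List ℚ) (i : ℕ) : ℝ := ((L.getD (min i k) 0 : ℚ) : ℝ)

theorem sq_map (k : ℕ) (f : ℕ → ℚ) (i : ℕ) : sq k ((List.range (k + 1)).map f) i = ((f (min i k) : ℚ) : ℝ) := by
  unfold sq
  have h : min i k < k + 1 := by omega
  rw [List.getD_eq_getElem _ _ (by simp)]
  simp

theorem sig_congr {k : ℕ} {θ v θ' v' : ℕ → ℝ} (h1 : ∀ i ≤ k, θ i = θ' i) (h2 : ∀ i < k, v i = v' i) : sig k θ v = sig k θ' v' := by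
  unfold sig
  refine Finset.sum_congr rfl fun i hi => ?_
  rw [mem_range] at hi
  rw [h1 (i + 1) (by omega), h1 i (by omega), h2 i hi]

theorem sig_lim {k : ℕ} {θ v : ℕ → ℝ} {θ' v' : ℕ → ℕ → ℝ} (h1 : ∀ i, Tendsto (fun D => θ' D i) atTop (𝓝 (θ i)))
    (h2 : ∀ i, Tendsto (fun D => v' D i) atTop (𝓝 (v i))) :
    Tendsto (fun D => Real.exp (-sig k (θ' D) (v' D))) atTop (𝓝 (Real.exp (-sig k θ v))) := by
  unfold sig
  refine (Real.continuous_exp.tendsto _).comp (Tendsto.neg ?_)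
  refine tendsto_finsetSum _ fun i _ => ?_
  exact (((h1 (i + 1)).pow 2).sub ((h1 i).pow 2)).mul ((Real.continuous_exp.tendsto _).comp (h2 i).neg)

variable {Ω : Type*} [MeasurableSpace Ω] {μ : Measure Ω} [IsProbabilityMeasure μ] {A : Ω → Set ℕ} {Q : ℕ}

/-- **The joint law of the maximal gaps, for all parameters.** -/
theorem main_k (hA : IsModel μ (level Q) A) (hQ : 1 ≤ Q) : ∀ᵐ ω ∂μ, ∀ (k : ℕ) (θ v : ℕ → ℝ), θ 0 = 0 → (∀ i, θ i ≤ 1) →
    Monotone θ → Monotone v →
    Tendsto (lm fun n => ind (∀ i < k, G (A ω) (θ (i + 1) * n) ≤ TT Q (v i) n)) atTop (𝓝 (Real.exp (-sig k θ v))) := by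
  have H : ∀ᵐ ω ∂μ, ∀ (k : ℕ) (L M : List ℚ), sq k L 0 = 0 → (∀ i, sq k L i ≤ 1) → Monotone (sq k L) → Monotone (sq k M) →
      Tendsto (lm fun n => ind (∀ i < k, G (A ω) (sq k L (i + 1) * n) ≤ TT Q (sq k M i) n)) atTop
        (𝓝 (Real.exp (-sig k (sq k L) (sq k M)))) := by
    refine ae_all_iff.2 fun k => ae_all_iff.2 fun L => ae_all_iff.2 fun M => ?_
    by_cases h : sq k L 0 = 0 ∧ (∀ i, sq k L i ≤ 1) ∧ Monotone (sq k L) ∧ Monotone (sq k M)
    · obtain ⟨h1, h2, h3, h4⟩ := h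
      filter_upwards [law_k hA hQ h1 h2 h3 h4 k] with ω hω _ _ _ _ using hω
    · exact Eventually.of_forall fun ω h1 h2 h3 h4 => absurd ⟨h1, h2, h3, h4⟩ h
  filter_upwards [H] with ω hω k θ v hθ0 hθ1 hθm hv
  -- the approximations
  have hmin : ∀ i ≤ k, min i k = i := fun i hi => min_eq_left hi
  have main : ∀ (D : ℕ) (f g : ℕ → ℝ → ℚ), 1 ≤ D → Monotone (f D) → Monotone (g D) → f D 0 = 0 → f D 1 = 1 →
      Tendsto (lm fun n => ind (∀ i < k, G (A ω) ((f D (θ (i + 1)) : ℚ) * n) ≤ TT Q (g D (v i) : ℚ) n)) atTop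
        (𝓝 (Real.exp (-sig k (fun i => (f D (θ (min i k)) : ℚ)) (fun i => (g D (v (min i k)) : ℚ))))) := by
    intro D f g hD hf hg hf0 hf1
    obtain ⟨L, hL⟩ : ∃ L, L = (List.range (k + 1)).map fun i => f D (θ i) := ⟨_, rfl⟩
    obtain ⟨M, hM⟩ : ∃ M, M = (List.range (k + 1)).map fun i => g D (v i) := ⟨_, rfl⟩
    have eL : sq k L = fun i => ((f D (θ (min i k)) : ℚ) : ℝ) := by
      funext i
      rw [hL]
      exact sq_map k (fun i => f D (θ i)) i
    have eM : sq k M = fun i => ((g D (v (min i k)) : ℚ) : ℝ) := by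
      funext i
      rw [hM]
      exact sq_map k (fun i => g D (v i)) i
    have h1 := hω k L M ?_ ?_ ?_ ?_
    · rw [eL, eM] at h1
      refine h1.congr fun N => ?_
      congr 1
      funext n
      congr 1
      apply propext
      refine forall₂_congr fun i hi => ?_
      show G (A ω) (((f D (θ (min (i + 1) k)) : ℚ) : ℝ) * n) ≤ TT Q ((g D (v (min i k)) : ℚ) : ℝ) n ↔ _
      rw [hmin (i + 1) hi, hmin i hi.le]
    · rw [eL]
      simp only [Nat.zero_min]
      rw [hθ0, hf0, Rat.cast_zero]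
    · intro i
      rw [eL]
      simp only
      have := hf (hθ1 (min i k))
      rw [hf1] at this
      exact_mod_cast this
    · intro i j hij
      rw [eL]
      simp only
      exact_mod_cast hf (hθm (min_le_min_right k hij))
    · intro i j hij
      rw [eM]
      simp only
      exact_mod_cast hg (hv (min_le_min_right k hij))
  have hsk : sig k θ v = sig k (fun i => θ (min i k)) (fun i => v (min i k)) :=
    sig_congr (fun i hi => by rw [hmin i hi]) (fun i hi => by rw [hmin i hi.le])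
  refine lm_squeeze fun ε hε => ?_
  have l1 : Tendsto (fun D : ℕ => Real.exp (-sig k (fun i => ((up D (θ (min i k)) : ℚ) : ℝ)) (fun i => ((lo D (v (min i k)) : ℚ) : ℝ))))
      atTop (𝓝 (Real.exp (-sig k θ v))) := by
    rw [hsk]
    exact sig_lim (fun i => up_lim _) (fun i => lo_lim _)
  have l2 : Tendsto (fun D : ℕ => Real.exp (-sig k (fun i => ((lo D (θ (min i k)) : ℚ) : ℝ)) (fun i => ((up D (v (min i k)) : ℚ) : ℝ))))
      atTop (𝓝 (Real.exp (-sig k θ v))) := by
    rw [hsk]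
    exact sig_lim (fun i => lo_lim _) (fun i => up_lim _)
  obtain ⟨D, d1, d2, hD⟩ := ((l1.eventually (eventually_gt_nhds (show Real.exp (-sig k θ v) - ε < Real.exp (-sig k θ v) by linarith))).and
    ((l2.eventually (eventually_lt_nhds (show Real.exp (-sig k θ v) < Real.exp (-sig k θ v) + ε by linarith))).and
      (eventually_ge_atTop 1))).exists
  refine ⟨_, _, _, _, ?_, ?_, main D up lo hD (up_mono D) (lo_mono D) (up_zero D) (up_one hD),
    main D lo up hD (lo_mono D) (up_mono D) (lo_zero D) (lo_one hD), d1.le, d2.le⟩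
  · refine Eventually.of_forall fun n => ind_mono fun h i hi => ?_
    refine (G_mono ?_).trans ((h i hi).trans (TT_mono (lo_le hD _).1 n))
    exact mul_le_mul_of_nonneg_right (le_up hD _).1 (Nat.cast_nonneg _)
  · refine Eventually.of_forall fun n => ind_mono fun h i hi => ?_
    refine (G_mono ?_).trans ((h i hi).trans (TT_mono (le_up hD _).1 n))
    exact mul_le_mul_of_nonneg_right (lo_le hD _).1 (Nat.cast_nonneg _)

/-- There are arbitrarily long gaps. -/
theorem unbounded {S : Set ℕ} (h : Tendsto (lm fun n => ind (G S ((1 : ℝ) * n) ≤ TT Q 0 n)) atTop (𝓝 (Real.exp (-1)))) :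
    ∀ T : ℕ, ∃ a b, IsGap S a b ∧ T < b - a := by
  intro T
  by_contra hcon
  push Not at hcon
  have h1 : ∀ n : ℕ, G S ((1 : ℝ) * n) ≤ T := fun n => G_le.2 fun a b h2 _ => hcon a b h2
  have hll : ∀ᶠ x : ℕ in atTop, 2 * Real.log (Real.log x) ^ 2 ≤ 1 * Real.log x := hl.eventually (ev_loglog_sq 2 one_pos)
  have hl1 : ∀ᶠ x : ℕ in atTop, 1 ≤ Real.log (Real.log x) := (Real.tendsto_log_atTop.comp hl).eventually_ge_atTop 1
  have h2 : ∀ᶠ n : ℕ in atTop, T ≤ TT Q 0 n := by
    filter_upwards [hll, hl1, hl.eventually_ge_atTop (2 * (|cen Q 0| + 1)), hl.eventually_ge_atTop (T : ℝ)] with x g1 g2 g3 g4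
    unfold TT
    refine Nat.le_floor ?_
    have e1 := neg_abs_le (cen Q 0)
    have e2 : 0 ≤ |cen Q 0| := abs_nonneg _
    have e3 : 2 * Real.log (Real.log x) ≤ Real.log x := by nlinarith
    have e5 : 1 ≤ Real.log (x : ℝ) - Real.log (Real.log x) + cen Q 0 := by linarith
    have e6 : Real.log (x : ℝ) * 1 ≤ Real.log x * (Real.log x - Real.log (Real.log x) + cen Q 0) :=
      mul_le_mul_of_nonneg_left e5 (Real.log_natCast_nonneg x)
    linarith
  have h3 : Tendsto (lm fun n => ind (G S ((1 : ℝ) * n) ≤ TT Q 0 n)) atTop (𝓝 1) := by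
    refine lm_squeeze fun ε hε => ⟨fun _ => 1, fun _ => 1, 1, 1, ?_, ?_, lm_const 1, lm_const 1, by linarith, by linarith⟩
    · filter_upwards [h2] with n hn
      rw [ind_true ((h1 n).trans hn)]
    · exact Eventually.of_forall fun n => ind_le_one _
  have h4 := tendsto_nhds_unique h h3
  have h5 : Real.exp (-1) < 1 := by
    rw [Real.exp_lt_one_iff]
    norm_num
  linarith

/-- **The law of the first occurrences.** -/
theorem shanks (hA : IsModel μ (level Q) A) (hQ : 1 ≤ Q) : ∀ᵐ ω ∂μ, (∀ T : ℕ, ∃ a b, IsGap (A ω) a b ∧ T < b - a) ∧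
    ∀ (k : ℕ) (r s : ℕ → ℝ), r 0 = 0 → Monotone r → Monotone s → 0 < r k →
    Tendsto (fun M : ℕ => (∑ g ∈ range M, ind (∀ i < k, r (i + 1) * scale Q g < P (A ω) (g + s i * √(g : ℝ)))) / (M : ℝ)) atTop
      (𝓝 (Real.exp (-sig k r s))) := by
  filter_upwards [main_k hA hQ, main hA hQ] with ω hω hω2
  have h1 : ∀ T : ℕ, ∃ a b, IsGap (A ω) a b ∧ T < b - a := by
    refine unbounded (Q := Q) ?_
    have h2 := hω2 1 0 zero_le_one le_rfl
    rw [neg_zero, Real.exp_zero, one_pow, one_mul] at h2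
    refine h2.congr fun N => ?_
    congr 1
    funext n
    congr 1
    apply propext
    rw [one_mul]
    exact ⟨fun h => h.2, fun h => ⟨rfl, h⟩⟩
  exact ⟨h1, fun k r s hr0 hr hs hrk => shanks_det h1 (fun θ v a1 a2 a3 a4 => hω k θ v a1 a2 a3 a4) hr0 hr hs hrk⟩

end Pool.Agent.H595.SH
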