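import Pool.Agent.H595.SH.Cnt2
import Pool.Agent.H595.SH.Fin

/-!
# The numbers of long gaps in several windows: all parameters simultaneously
-/

set_option autoImplicit false

set_option maxHeartbeats 400000

namespace Pool.Agent.H595.SH

open Finset MeasureTheory ProbabilityTheory Filter Pool.Agent.H595.AS Pool.Agent.Q120.AD Pool.Agent.Q120.GM
open scoped Topology Nat

variable {Ω : Type*} [MeasurableSpace Ω] {μ : Measure Ω} [IsProbabilityMeasure μ] {A : Ω → Set ℕ} {Q : ℕ}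

/-- The number of long gaps in one window. -/
noncomputable def nw (A : Ω → Set ℕ) (Q : ℕ) (ω : Ω) (a b v : ℝ) (n : ℕ) : ℕ := cn A (TT Q v n) (Ico (zp a n + 1) (zp b n + 1)) ω

omit [MeasurableSpace Ω] in
theorem nw_mono {ω : Ω} {a b v a' b' v' : ℝ} (ha : a' ≤ a) (hb : b ≤ b') (hv : v' ≤ v) (n : ℕ) :
    nw A Q ω a b v n ≤ nw A Q ω a' b' v' n := by
  classical
  unfold nw cn
  refine card_le_card fun m hm => ?_
  rw [mem_filter, mem_Ico] at hm ⊢
  have h1 : zp a' n ≤ zp a n := Nat.floor_le_floor (mul_le_mul_of_nonneg_right ha (Nat.cast_nonneg _))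
  have h2 : zp b n ≤ zp b' n := Nat.floor_le_floor (mul_le_mul_of_nonneg_right hb (Nat.cast_nonneg _))
  refine ⟨by omega, ?_⟩
  exact LG_anti (TT_mono hv n) hm.2

/-- An upper bound for the indicator of `s ≠ b`, `s ≤ b`. -/
noncomputable def hb (M s b : ℕ) : ℝ := ∑ c ∈ range M, (ind (s ≤ c) - ind (b ≤ c)) + (1 - ind (b ≤ M))

theorem hb_nonneg {M s b : ℕ} (h : s ≤ b) : 0 ≤ hb M s b := by
  unfold hb
  have h1 : ∀ c ∈ range M, 0 ≤ ind (s ≤ c) - ind (b ≤ c) := fun c _ => by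
    have : ind (b ≤ c) ≤ ind (s ≤ c) := ind_mono fun h2 => h.trans h2
    linarith
  have h2 := Finset.sum_nonneg h1
  have h3 := ind_le_one (b ≤ M)
  linarith

theorem one_le_hb {M s b : ℕ} (h : s ≤ b) (hne : s ≠ b) : 1 ≤ hb M s b := by
  have h1 : ∀ c ∈ range M, 0 ≤ ind (s ≤ c) - ind (b ≤ c) := fun c _ => by
    have : ind (b ≤ c) ≤ ind (s ≤ c) := ind_mono fun h2 => h.trans h2
    linarith
  unfold hb
  rcases lt_or_ge s M with h2 | h2
  · have h3 := Finset.single_le_sum (f := fun c => ind (s ≤ c) - ind (b ≤ c)) h1 (mem_range.2 h2)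
    have h4 : ind (s ≤ s) = 1 := ind_true le_rfl
    have h5 : ind (b ≤ s) = 0 := ind_false (by omega)
    have h6 := ind_le_one (b ≤ M)
    simp only [h4, h5] at h3
    linarith
  · have h3 : ind (b ≤ M) = 0 := ind_false (by omega)
    have h4 := Finset.sum_nonneg h1
    linarith

theorem ind_le_eq (x c : ℕ) : ind (x ≤ c) = ∑ j ∈ range (c + 1), ind (x = j) := by
  by_cases h : x ≤ c
  · rw [ind_true h, Finset.sum_eq_single_of_mem x (mem_range.2 (by omega)) fun j _ hj => ind_false fun h2 => hj h2.symm]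
    exact (ind_true rfl).symm
  · rw [ind_false h]
    exact (Finset.sum_eq_zero fun j hj => ind_false fun h2 => h (by rw [mem_range] at hj; omega)).symm

/-- The Poisson distribution function. -/
noncomputable def FM (c : ℕ) (x : ℝ) : ℝ := ∑ j ∈ range (c + 1), po (j + 1) x

theorem FM_cont (c : ℕ) : Continuous (FM c) := continuous_finsetSum _ fun _ _ => po_cont _

theorem FM_lim (x : ℝ) : Tendsto (fun M => FM M x) atTop (𝓝 1) := by
  have h1 : HasSum (fun n : ℕ => x ^ n / n !) (Real.exp x) := by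
    have := NormedSpace.expSeries_div_hasSum_exp (𝔸 := ℝ) x
    rwa [← Real.exp_eq_exp_ℝ] at this
  have h2 := (h1.mul_left (Real.exp (-x))).tendsto_sum_nat
  have h3 : Real.exp (-x) * Real.exp x = 1 := by rw [← Real.exp_add]; simp
  rw [h3] at h2
  refine (h2.comp (tendsto_add_atTop_nat 1)).congr fun M => ?_
  unfold FM
  refine Finset.sum_congr rfl fun j _ => ?_
  rw [po_succ]
  ring

theorem lm_hb {s b : ℕ → ℕ} {ls lb : ℝ} (h1 : ∀ c, Tendsto (lm fun n => ind (s n = c)) atTop (𝓝 (po (c + 1) ls)))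
    (h2 : ∀ c, Tendsto (lm fun n => ind (b n = c)) atTop (𝓝 (po (c + 1) lb))) (M : ℕ) :
    Tendsto (lm fun n => hb M (s n) (b n)) atTop (𝓝 (∑ c ∈ range M, (FM c ls - FM c lb) + (1 - FM M lb))) := by
  have h3 : ∀ {x : ℕ → ℕ} {l : ℝ}, (∀ c, Tendsto (lm fun n => ind (x n = c)) atTop (𝓝 (po (c + 1) l))) → ∀ c,
      Tendsto (lm fun n => ind (x n ≤ c)) atTop (𝓝 (FM c l)) := by
    intro x l h c
    have h4 : (fun n => ind (x n ≤ c)) = fun n => ∑ j ∈ range (c + 1), ind (x n = j) := by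
      funext n
      exact ind_le_eq _ _
    rw [h4]
    refine (tendsto_finsetSum (range (c + 1)) fun _ _ => h _).congr fun N => ?_
    rw [lm_sum]
  have h4 := (tendsto_finsetSum (range M) fun c _ => (h3 h1 c).sub (h3 h2 c)).add ((lm_const 1).sub (h3 h2 M))
  refine h4.congr fun N => ?_
  unfold hb
  rw [lm_add, lm_sum, lm_sub (fun _ => 1)]
  congr 1
  refine Finset.sum_congr rfl fun c _ => ?_
  rw [lm_sub]

omit [MeasurableSpace Ω] in
theorem EW_ind (k : ℕ) (θ v : ℕ → ℝ) (c : ℕ → ℕ) (ω : Ω) (n : ℕ) :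
    (EW A (fun i => TT Q (v i) n) (fun i => Ico (zp (θ i) n + 1) (zp (θ (i + 1)) n + 1)) c k).indicator (fun _ => (1 : ℝ)) ω =
      ind (∀ i < k, nw A Q ω (θ i) (θ (i + 1)) (v i) n = c i) := by
  unfold nw
  by_cases h : ω ∈ EW A (fun i => TT Q (v i) n) (fun i => Ico (zp (θ i) n + 1) (zp (θ (i + 1)) n + 1)) c k
  · rw [Set.indicator_of_mem h, ind_true]
    exact h
  · rw [Set.indicator_of_notMem h, ind_false]
    exact h

theorem poisson_fix (hA : IsModel μ (level Q) A) (hQ : 1 ≤ Q) {θ v : ℕ → ℝ} (hθ0 : ∀ i, 0 ≤ θ i) (hθ1 : ∀ i, θ i ≤ 1) (hθm : Monotone θ)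
    (c : ℕ → ℕ) (k : ℕ) :
    ∀ᵐ ω ∂μ, Tendsto (lm fun n => ind (∀ i < k, nw A Q ω (θ i) (θ (i + 1)) (v i) n = c i)) atTop
      (𝓝 (∏ i ∈ range k, po (c i + 1) ((θ (i + 1) ^ 2 - θ i ^ 2) * Real.exp (-v i)))) := by
  filter_upwards [EW_asl hA hQ (v := v) hθ0 hθ1 hθm c k] with ω hω
  have e : (fun n => (EW A (fun i => TT Q (v i) n) (fun i => Ico (zp (θ i) n + 1) (zp (θ (i + 1)) n + 1)) c k).indicator
      (fun _ => (1 : ℝ)) ω) = fun n => ind (∀ i < k, nw A Q ω (θ i) (θ (i + 1)) (v i) n = c i) :=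
    funext fun n => EW_ind k θ v c ω n
  rw [e] at hω
  exact hω

/-- The sequence given by a list of natural numbers. -/
def cl (C : List ℕ) (i : ℕ) : ℕ := C.getD i 0

theorem poisson_rat (hA : IsModel μ (level Q) A) (hQ : 1 ≤ Q) : ∀ᵐ ω ∂μ, ∀ (k : ℕ) (L M : List ℚ) (C : List ℕ),
    (∀ i, 0 ≤ sq k L i) → (∀ i, sq k L i ≤ 1) → Monotone (sq k L) →
    Tendsto (lm fun n => ind (∀ i < k, nw A Q ω (sq k L i) (sq k L (i + 1)) (sq k M i) n = cl C i)) atTop
      (𝓝 (∏ i ∈ range k, po (cl C i + 1) ((sq k L (i + 1) ^ 2 - sq k L i ^ 2) * Real.exp (-sq k M i)))) := by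
  refine ae_all_iff.2 fun k => ae_all_iff.2 fun L => ae_all_iff.2 fun M => ae_all_iff.2 fun C => ?_
  by_cases h : (∀ i, 0 ≤ sq k L i) ∧ (∀ i, sq k L i ≤ 1) ∧ Monotone (sq k L)
  · obtain ⟨h1, h2, h3⟩ := h
    filter_upwards [poisson_fix hA hQ (v := sq k M) h1 h2 h3 (cl C) k] with ω hω _ _ _ using hω
  · exact Eventually.of_forall fun ω h1 h2 h3 => absurd ⟨h1, h2, h3⟩ h

/-- Two values. -/
noncomputable def tw (a b : ℝ) (i : ℕ) : ℝ := if i = 0 then a else b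

theorem tw_mono {a b : ℝ} (h : a ≤ b) : Monotone (tw a b) := by
  intro i j hij
  unfold tw
  split_ifs with e1 e2
  · exact le_rfl
  · exact h
  · omega
  · exact le_rfl

theorem poisson_one (hA : IsModel μ (level Q) A) (hQ : 1 ≤ Q) : ∀ᵐ ω ∂μ, ∀ (a b v : ℚ) (c : ℕ), (0 : ℝ) ≤ a → (a : ℝ) ≤ b → (b : ℝ) ≤ 1 →
    Tendsto (lm fun n => ind (nw A Q ω a b v n = c)) atTop (𝓝 (po (c + 1) (((b : ℝ) ^ 2 - (a : ℝ) ^ 2) * Real.exp (-(v : ℝ))))) := by
  refine ae_all_iff.2 fun a => ae_all_iff.2 fun b => ae_all_iff.2 fun v => ae_all_iff.2 fun c => ?_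
  by_cases h : (0 : ℝ) ≤ a ∧ (a : ℝ) ≤ b ∧ (b : ℝ) ≤ 1
  · obtain ⟨h1, h2, h3⟩ := h
    filter_upwards [poisson_fix hA hQ (θ := tw a b) (v := fun _ => (v : ℝ))
      (fun i => by unfold tw; split_ifs <;> linarith)
      (fun i => by unfold tw; split_ifs <;> linarith)
      (tw_mono h2) (fun _ => c) 1] with ω hω _ _ _
    rw [Finset.prod_range_one] at hω
    have e0 : tw (a : ℝ) b 0 = a := rfl
    have e1 : tw (a : ℝ) b (0 + 1) = b := rfl
    rw [e0, e1] at hω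
    refine hω.congr fun N => ?_
    congr 1
    funext n
    congr 1
    apply propext
    constructor
    · intro h
      exact h 0 (by norm_num)
    · intro h i hi
      have h2 : i = 0 := by omega
      subst h2
      exact h
  · exact Eventually.of_forall fun ω h1 h2 h3 => absurd ⟨h1, h2, h3⟩ h

/-- The abstract approximation argument. -/
theorem lm_approx {k : ℕ} {f : ℕ → ℝ} {P : ℝ} {g : ℕ → ℕ → ℝ} {h : ℕ → ℕ → ℕ → ℕ → ℝ} {γ : ℕ → ℝ} {E : ℕ → ℕ → ℕ → ℝ} {E' : ℕ → ℕ → ℝ}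
    (h1 : ∀ M D, 1 ≤ D → ∀ n, |f n - g D n| ≤ ∑ i ∈ range k, h M D i n)
    (h2 : ∀ D, 1 ≤ D → Tendsto (lm (g D)) atTop (𝓝 (γ D)))
    (h3 : ∀ M D, 1 ≤ D → ∀ i < k, Tendsto (lm (h M D i)) atTop (𝓝 (E M D i)))
    (h4 : Tendsto γ atTop (𝓝 P)) (h5 : ∀ M, ∀ i < k, Tendsto (fun D => E M D i) atTop (𝓝 (E' M i)))
    (h6 : ∀ i < k, Tendsto (fun M => E' M i) atTop (𝓝 0)) : Tendsto (lm f) atTop (𝓝 P) := by
  refine lm_squeeze fun ε hε => ?_
  have h7 : Tendsto (fun M => ∑ i ∈ range k, E' M i) atTop (𝓝 (∑ _i ∈ range k, (0 : ℝ))) :=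
    tendsto_finsetSum _ fun i hi => h6 i (mem_range.1 hi)
  rw [Finset.sum_const_zero] at h7
  obtain ⟨M, hM⟩ := (h7.eventually (eventually_lt_nhds (show (0 : ℝ) < ε / 2 by linarith))).exists
  have h8 : Tendsto (fun D => ∑ i ∈ range k, E M D i) atTop (𝓝 (∑ i ∈ range k, E' M i)) :=
    tendsto_finsetSum _ fun i hi => h5 M i (mem_range.1 hi)
  obtain ⟨D, d1, d2, d3, hD⟩ := ((h8.eventually (eventually_lt_nhds hM)).and
    ((h4.eventually (eventually_gt_nhds (show P - ε / 2 < P by linarith))).and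
    ((h4.eventually (eventually_lt_nhds (show P < P + ε / 2 by linarith))).and (eventually_ge_atTop 1)))).exists
  have t1 := h2 D hD
  have t2 : Tendsto (fun N => ∑ i ∈ range k, lm (h M D i) N) atTop (𝓝 (∑ i ∈ range k, E M D i)) :=
    tendsto_finsetSum _ fun i hi => h3 M D hD i (mem_range.1 hi)
  have t3 : Tendsto (lm fun n => ∑ i ∈ range k, h M D i n) atTop (𝓝 (∑ i ∈ range k, E M D i)) :=
    t2.congr fun N => (lm_sum (range k) (h M D) N).symm
  refine ⟨fun n => g D n - ∑ i ∈ range k, h M D i n, fun n => g D n + ∑ i ∈ range k, h M D i n, γ D - ∑ i ∈ range k, E M D i,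
    γ D + ∑ i ∈ range k, E M D i, Eventually.of_forall fun n => ?_, Eventually.of_forall fun n => ?_,
    (t1.sub t3).congr fun N => (lm_sub (g D) (fun n => ∑ i ∈ range k, h M D i n) N).symm,
    (t1.add t3).congr fun N => (lm_add (g D) (fun n => ∑ i ∈ range k, h M D i n) N).symm, ?_, ?_⟩
  · have := (abs_le.1 (h1 M D hD n)).1
    show g D n - ∑ i ∈ range k, h M D i n ≤ f n
    linarith
  · have := (abs_le.1 (h1 M D hD n)).2
    show f n ≤ g D n + ∑ i ∈ range k, h M D i n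
    linarith
  · linarith
  · linarith

/-- The left end, the right end and the level of the small window. -/
noncomputable def sbq (θ : ℕ → ℝ) (D i : ℕ) : ℚ := max (up D (θ i)) (lo D (θ (i + 1)))

theorem sbq_lim {θ : ℕ → ℝ} (hm : Monotone θ) (i : ℕ) : Tendsto (fun D => ((sbq θ D i : ℚ) : ℝ)) atTop (𝓝 (θ (i + 1))) := by
  have h2 := (up_lim (θ i)).max (lo_lim (θ (i + 1)))
  rw [max_eq_right (hm (Nat.le_succ i))] at h2
  refine h2.congr fun D => ?_
  unfold sbq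
  push_cast
  rfl

omit [MeasurableSpace Ω] in
theorem nw_small {ω : Ω} {θ v : ℕ → ℝ} (hm : Monotone θ) {D : ℕ} (hD : 1 ≤ D) (i n : ℕ) :
    nw A Q ω (up D (θ i) : ℚ) (sbq θ D i : ℚ) (up D (v i) : ℚ) n ≤ nw A Q ω (θ i) (θ (i + 1)) (v i) n ∧
    nw A Q ω (up D (θ i) : ℚ) (sbq θ D i : ℚ) (up D (v i) : ℚ) n ≤
      nw A Q ω (up D (θ i) : ℚ) (up D (θ (i + 1)) : ℚ) (up D (v i) : ℚ) n := by
  constructor
  · by_cases h : sbq θ D i ≤ up D (θ i)
    · have h1 : nw A Q ω (up D (θ i) : ℚ) (sbq θ D i : ℚ) (up D (v i) : ℚ) n = 0 := by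
        unfold nw
        rw [Finset.Ico_eq_empty_of_le, cn_empty]
        have : zp ((sbq θ D i : ℚ) : ℝ) n ≤ zp ((up D (θ i) : ℚ) : ℝ) n :=
          Nat.floor_le_floor (mul_le_mul_of_nonneg_right (by exact_mod_cast h) (Nat.cast_nonneg _))
        omega
      rw [h1]
      exact Nat.zero_le _
    · have h1 : sbq θ D i = lo D (θ (i + 1)) := by
        unfold sbq at h ⊢
        rw [max_eq_right]
        by_contra hcon
        push Not at hcon
        exact h (max_le le_rfl hcon.le)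
      rw [h1]
      exact nw_mono (le_up hD _).1 (lo_le hD _).1 (le_up hD _).1 n
  · refine nw_mono le_rfl ?_ le_rfl n
    have h1 : sbq θ D i ≤ up D (θ (i + 1)) := by
      unfold sbq
      refine max_le (up_mono D (hm (Nat.le_succ i))) ?_
      have := (lo_le hD (θ (i + 1))).1.trans (le_up hD (θ (i + 1))).1
      exact_mod_cast this
    exact_mod_cast h1

omit [MeasurableSpace Ω] in
theorem nw_big {ω : Ω} {θ v : ℕ → ℝ} {D : ℕ} (hD : 1 ≤ D) (i n : ℕ) :
    nw A Q ω (θ i) (θ (i + 1)) (v i) n ≤ nw A Q ω (lo D (θ i) : ℚ) (up D (θ (i + 1)) : ℚ) (lo D (v i) : ℚ) n ∧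
    nw A Q ω (up D (θ i) : ℚ) (up D (θ (i + 1)) : ℚ) (up D (v i) : ℚ) n ≤
      nw A Q ω (lo D (θ i) : ℚ) (up D (θ (i + 1)) : ℚ) (lo D (v i) : ℚ) n :=
  ⟨nw_mono (lo_le hD _).1 (le_up hD _).1 (lo_le hD _).1 n,
    nw_mono ((lo_le hD _).1.trans (le_up hD _).1) le_rfl ((lo_le hD _).1.trans (le_up hD _).1) n⟩

/-- Elementary: events about numbers between two bounds. -/
theorem ind_key {k : ℕ} {M : ℕ} {s b x y c : ℕ → ℕ} (h1 : ∀ i < k, s i ≤ x i ∧ s i ≤ y i) (h2 : ∀ i < k, x i ≤ b i ∧ y i ≤ b i) :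
    |ind (∀ i < k, x i = c i) - ind (∀ i < k, y i = c i)| ≤ ∑ i ∈ range k, hb M (s i) (b i) := by
  have hnn : ∀ i ∈ range k, 0 ≤ hb M (s i) (b i) := fun i hi => hb_nonneg ((h1 i (mem_range.1 hi)).1.trans (h2 i (mem_range.1 hi)).1)
  by_cases h : ∀ i ∈ range k, s i = b i
  · have h3 : (∀ i < k, x i = c i) ↔ (∀ i < k, y i = c i) := by
      refine forall₂_congr fun i hi => ?_
      have h4 := h i (mem_range.2 hi)
      have h5 := h1 i hi
      have h6 := h2 i hi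
      have h7 : x i = y i := by omega
      rw [h7]
    have h4 : ind (∀ i < k, x i = c i) = ind (∀ i < k, y i = c i) := le_antisymm (ind_mono h3.1) (ind_mono h3.2)
    rw [h4, sub_self, abs_zero]
    exact Finset.sum_nonneg hnn
  · push Not at h
    obtain ⟨i, hi, h3⟩ := h
    have h4 := Finset.single_le_sum hnn hi
    have h5 := one_le_hb (M := M) ((h1 i (mem_range.1 hi)).1.trans (h2 i (mem_range.1 hi)).1) h3
    have h6 := ind_le_one (∀ i < k, x i = c i)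
    have h7 := ind_nonneg (∀ i < k, x i = c i)
    have h8 := ind_le_one (∀ i < k, y i = c i)
    have h9 := ind_nonneg (∀ i < k, y i = c i)
    rw [abs_le]
    constructor <;> linarith

theorem up_unit {D : ℕ} (hD : 1 ≤ D) {t : ℝ} (ht0 : 0 ≤ t) (ht1 : t ≤ 1) : (0 : ℝ) ≤ ((up D t : ℚ) : ℝ) ∧ ((up D t : ℚ) : ℝ) ≤ 1 := by
  refine ⟨ht0.trans (le_up hD t).1, ?_⟩
  have := up_mono D ht1
  rw [up_one hD] at this
  exact_mod_cast this

theorem lo_unit {D : ℕ} (hD : 1 ≤ D) {t : ℝ} (ht0 : 0 ≤ t) (ht1 : t ≤ 1) : (0 : ℝ) ≤ ((lo D t : ℚ) : ℝ) ∧ ((lo D t : ℚ) : ℝ) ≤ 1 := by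
  refine ⟨?_, (lo_le hD t).1.trans ht1⟩
  have := lo_mono D ht0
  rw [lo_zero] at this
  exact_mod_cast this

/-- The intensity of a window. -/
noncomputable def lam (a b v : ℝ) : ℝ := (b ^ 2 - a ^ 2) * Real.exp (-v)

theorem lam_lim {a b v : ℕ → ℝ} {a' b' v' : ℝ} (h1 : Tendsto a atTop (𝓝 a')) (h2 : Tendsto b atTop (𝓝 b')) (h3 : Tendsto v atTop (𝓝 v')) :
    Tendsto (fun D => lam (a D) (b D) (v D)) atTop (𝓝 (lam a' b' v')) :=
  ((h2.pow 2).sub (h1.pow 2)).mul ((Real.continuous_exp.tendsto _).comp h3.neg)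

omit [MeasurableSpace Ω] in
/-- The approximating law, at rational parameters. -/
theorem law_up {ω : Ω} (hω : ∀ (k : ℕ) (L M : List ℚ) (C : List ℕ),
      (∀ i, 0 ≤ sq k L i) → (∀ i, sq k L i ≤ 1) → Monotone (sq k L) →
      Tendsto (lm fun n => ind (∀ i < k, nw A Q ω (sq k L i) (sq k L (i + 1)) (sq k M i) n = cl C i)) atTop
        (𝓝 (∏ i ∈ range k, po (cl C i + 1) ((sq k L (i + 1) ^ 2 - sq k L i ^ 2) * Real.exp (-sq k M i)))))
    {θ v : ℕ → ℝ} (h0 : ∀ i, 0 ≤ θ i) (h1 : ∀ i, θ i ≤ 1) (hm : Monotone θ) (c : ℕ → ℕ) (k : ℕ) {D : ℕ} (hD : 1 ≤ D) :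
    Tendsto (lm fun n => ind (∀ i < k, nw A Q ω (up D (θ i) : ℚ) (up D (θ (i + 1)) : ℚ) (up D (v i) : ℚ) n = c i)) atTop
      (𝓝 (∏ i ∈ range k, po (c i + 1) (lam (up D (θ i) : ℚ) (up D (θ (i + 1)) : ℚ) (up D (v i) : ℚ)))) := by
  have hmin : ∀ i ≤ k, min i k = i := fun i hi => min_eq_left hi
  obtain ⟨L, hL⟩ : ∃ L, L = (List.range (k + 1)).map fun i => up D (θ i) := ⟨_, rfl⟩
  obtain ⟨M, hM⟩ : ∃ M, M = (List.range (k + 1)).map fun i => up D (v i) := ⟨_, rfl⟩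
  obtain ⟨C, hC⟩ : ∃ C, C = (List.range k).map c := ⟨_, rfl⟩
  have eL : ∀ i, sq k L i = ((up D (θ (min i k)) : ℚ) : ℝ) := by
    intro i
    rw [hL]
    exact sq_map k (fun i => up D (θ i)) i
  have eM : ∀ i, sq k M i = ((up D (v (min i k)) : ℚ) : ℝ) := by
    intro i
    rw [hM]
    exact sq_map k (fun i => up D (v i)) i
  have eC : ∀ i < k, cl C i = c i := by
    intro i hi
    unfold cl
    rw [hC, List.getD_eq_getElem _ _ (by simpa using hi)]
    simp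
  have h2 := hω k L M C (fun i => by rw [eL]; exact (up_unit hD (h0 _) (h1 _)).1) (fun i => by rw [eL]; exact (up_unit hD (h0 _) (h1 _)).2)
    (fun i j hij => by
      rw [eL, eL]
      exact_mod_cast up_mono D (hm (min_le_min_right k hij)))
  have e1 : ∏ i ∈ range k, po (cl C i + 1) ((sq k L (i + 1) ^ 2 - sq k L i ^ 2) * Real.exp (-sq k M i)) =
      ∏ i ∈ range k, po (c i + 1) (lam (up D (θ i) : ℚ) (up D (θ (i + 1)) : ℚ) (up D (v i) : ℚ)) := by
    refine Finset.prod_congr rfl fun i hi => ?_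
    rw [mem_range] at hi
    rw [eC i hi, eL, eL, eM, hmin (i + 1) hi, hmin i hi.le]
    rfl
  rw [e1] at h2
  refine h2.congr fun N => ?_
  congr 1
  funext n
  congr 1
  apply propext
  refine forall₂_congr fun i hi => ?_
  rw [eC i hi, eL, eL, eM, hmin (i + 1) hi, hmin i hi.le]

/-- **The Poisson law, almost surely for all parameters.** -/
theorem poisson_all (hA : IsModel μ (level Q) A) (hQ : 1 ≤ Q) : ∀ᵐ ω ∂μ, ∀ (k : ℕ) (θ v : ℕ → ℝ) (c : ℕ → ℕ),
    (∀ i, 0 ≤ θ i) → (∀ i, θ i ≤ 1) → Monotone θ →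
    Tendsto (lm fun n => ind (∀ i < k, nw A Q ω (θ i) (θ (i + 1)) (v i) n = c i)) atTop
      (𝓝 (∏ i ∈ range k, po (c i + 1) (lam (θ i) (θ (i + 1)) (v i)))) := by
  filter_upwards [poisson_rat hA hQ, poisson_one hA hQ] with ω hω hω1 k θ v c h0 h1 hm
  refine lm_approx (k := k) (g := fun D n => ind (∀ i < k, nw A Q ω (up D (θ i) : ℚ) (up D (θ (i + 1)) : ℚ) (up D (v i) : ℚ) n = c i))
    (h := fun M D i n => hb M (nw A Q ω (up D (θ i) : ℚ) (sbq θ D i : ℚ) (up D (v i) : ℚ) n)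
      (nw A Q ω (lo D (θ i) : ℚ) (up D (θ (i + 1)) : ℚ) (lo D (v i) : ℚ) n))
    (γ := fun D => ∏ i ∈ range k, po (c i + 1) (lam (up D (θ i) : ℚ) (up D (θ (i + 1)) : ℚ) (up D (v i) : ℚ)))
    (E := fun M D i => ∑ c ∈ range M, (FM c (lam (up D (θ i) : ℚ) (sbq θ D i : ℚ) (up D (v i) : ℚ)) -
        FM c (lam (lo D (θ i) : ℚ) (up D (θ (i + 1)) : ℚ) (lo D (v i) : ℚ))) +
        (1 - FM M (lam (lo D (θ i) : ℚ) (up D (θ (i + 1)) : ℚ) (lo D (v i) : ℚ))))
    (E' := fun M i => ∑ c ∈ range M, (FM c (lam (θ i) (θ (i + 1)) (v i)) - FM c (lam (θ i) (θ (i + 1)) (v i))) +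
        (1 - FM M (lam (θ i) (θ (i + 1)) (v i)))) ?_ ?_ ?_ ?_ ?_ ?_
  · intro M D hD n
    exact ind_key (fun i _ => nw_small hm hD i n) (fun i _ => nw_big hD i n)
  · intro D hD
    exact law_up hω h0 h1 hm c k hD
  · intro M D hD i _
    refine lm_hb (fun c => hω1 _ _ _ c ?_ ?_ ?_) (fun c => hω1 _ _ _ c ?_ ?_ ?_) M
    · exact (up_unit hD (h0 _) (h1 _)).1
    · have : up D (θ i) ≤ sbq θ D i := le_max_left _ _
      exact_mod_cast this
    · unfold sbq
      push_cast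
      exact max_le (up_unit hD (h0 _) (h1 _)).2 (lo_unit hD (h0 _) (h1 _)).2
    · exact (lo_unit hD (h0 _) (h1 _)).1
    · exact (lo_le hD _).1.trans ((hm (Nat.le_succ i)).trans (le_up hD _).1)
    · exact (up_unit hD (h0 _) (h1 _)).2
  · exact tendsto_finsetProd _ fun i _ => ((po_cont _).tendsto _).comp (lam_lim (up_lim _) (up_lim _) (up_lim _))
  · intro M i _
    have ls := lam_lim (up_lim (θ i)) (sbq_lim hm i) (up_lim (v i))
    have lB := lam_lim (lo_lim (θ i)) (up_lim (θ (i + 1))) (lo_lim (v i))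
    exact (tendsto_finsetSum _ fun c _ => (((FM_cont c).tendsto _).comp ls).sub (((FM_cont c).tendsto _).comp lB)).add
      (tendsto_const_nhds.sub (((FM_cont M).tendsto _).comp lB))
  · intro i _
    have h2 : Tendsto (fun M => 1 - FM M (lam (θ i) (θ (i + 1)) (v i))) atTop (𝓝 (1 - 1)) := tendsto_const_nhds.sub (FM_lim _)
    rw [sub_self] at h2
    refine h2.congr fun M => ?_
    simp only [sub_self, Finset.sum_const_zero, zero_add]

end Pool.Agent.H595.SH
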