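import Pool.Agent.H595.SH.Blocks
import Pool.Agent.H595.AS.Fin

/-!
# The thresholds along the blocks
-/

set_option autoImplicit false

namespace Pool.Agent.H595.SH

open Finset Filter Pool.Agent.H595.AS Pool.Agent.Q120.AD Pool.Agent.Q120.GM
open scoped Topology

/-- The threshold as a function of `L = log x`. -/
noncomputable def FF (a L : ℝ) : ℝ := L * (L - Real.log L + a)

theorem FF_lim_s (a : ℝ) : Tendsto (fun s : ℝ => (FF a (s + 1 / 2 * Real.log s - a / 2) - s ^ 2) / s) atTop (𝓝 0) := by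
  have h1 : Tendsto (fun s : ℝ => Real.log s / s) atTop (𝓝 0) := by
    have := (Real.isLittleO_log_id_atTop).tendsto_div_nhds_zero
    exact this
  have h2 : Tendsto (fun s : ℝ => Real.log s ^ 2 / s) atTop (𝓝 0) := by
    have := (Real.isLittleO_pow_log_id_atTop (n := 2)).tendsto_div_nhds_zero
    exact this
  have h3 : Tendsto (fun s : ℝ => 1 / s) atTop (𝓝 0) := by
    have := tendsto_inv_atTop_zero (𝕜 := ℝ)
    refine this.congr fun s => ?_
    rw [one_div]
  have h4 : Tendsto (fun s : ℝ => (1 / 2 * Real.log s - a / 2) / s) atTop (𝓝 0) := by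
    have := (h1.const_mul (1 / 2)).sub (h3.const_mul (a / 2))
    rw [mul_zero, mul_zero, sub_zero] at this
    refine this.congr fun s => ?_
    ring
  have h5 : Tendsto (fun s : ℝ => Real.log (1 + (1 / 2 * Real.log s - a / 2) / s)) atTop (𝓝 0) := by
    have h6 : Tendsto (fun s : ℝ => 1 + (1 / 2 * Real.log s - a / 2) / s) atTop (𝓝 (1 + 0)) := tendsto_const_nhds.add h4
    rw [add_zero] at h6
    have h7 := (Real.continuousAt_log (one_ne_zero)).tendsto.comp h6
    rw [Real.log_one] at h7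
    exact h7
  have h6 : Tendsto (fun s : ℝ => 1 / 4 * (Real.log s - a) ^ 2 / s) atTop (𝓝 0) := by
    have := ((h2.const_mul (1 / 4)).sub (h1.const_mul (a / 2))).add (h3.const_mul (a ^ 2 / 4))
    rw [mul_zero, mul_zero, mul_zero, sub_zero, add_zero] at this
    refine this.congr fun s => ?_
    ring
  have h7 : Tendsto (fun s : ℝ => -Real.log (1 + (1 / 2 * Real.log s - a / 2) / s) - 1 / 4 * (Real.log s - a) ^ 2 / s -
      (1 / 2 * Real.log s - a / 2) / s * Real.log (1 + (1 / 2 * Real.log s - a / 2) / s)) atTop (𝓝 (-0 - 0 - 0 * 0)) :=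
    (h5.neg.sub h6).sub (h4.mul h5)
  rw [neg_zero, mul_zero, sub_zero, sub_zero] at h7
  refine h7.congr' ?_
  have h8 : ∀ᶠ s : ℝ in atTop, (1 / 2 * Real.log s - a / 2) / s > -1 / 2 := h4.eventually (eventually_gt_nhds (by norm_num))
  filter_upwards [h8, eventually_gt_atTop 0] with s g1 g2
  obtain ⟨η, hη⟩ : ∃ η, η = 1 / 2 * Real.log s - a / 2 := ⟨_, rfl⟩
  have e1 : s + 1 / 2 * Real.log s - a / 2 = s * (1 + η / s) := by
    rw [hη]
    field_simp
    ring
  rw [← hη] at g1 ⊢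
  have e2 : Real.log (s * (1 + η / s)) = Real.log s + Real.log (1 + η / s) := Real.log_mul g2.ne' (by linarith)
  have e3 : Real.log s = 2 * η + a := by rw [hη]; ring
  rw [e1]
  unfold FF
  rw [e2, e3]
  field_simp
  ring

/-- The logarithm of the scale. -/
noncomputable def Lg (a : ℝ) (g : ℕ) : ℝ := √(g : ℝ) + 1 / 4 * Real.log g - a / 2

theorem FF_lim (a : ℝ) : Tendsto (fun g : ℕ => (FF a (Lg a g) - g) / √(g : ℝ)) atTop (𝓝 0) := by
  refine ((FF_lim_s a).comp sqrt_tendsto).congr fun g => ?_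
  show (FF a (√(g : ℝ) + 1 / 2 * Real.log √(g : ℝ) - a / 2) - √(g : ℝ) ^ 2) / √(g : ℝ) = _
  rw [Real.log_sqrt (Nat.cast_nonneg _), Real.sq_sqrt (Nat.cast_nonneg _)]
  unfold Lg
  congr 3
  ring

theorem Lg_lim (a : ℝ) : Tendsto (fun g : ℕ => (Lg a g - √(g : ℝ)) / √(g : ℝ)) atTop (𝓝 0) := by
  have h1 : Tendsto (fun g : ℕ => 1 / 4 * (Real.log g / √(g : ℝ)) - a / 2 / √(g : ℝ)) atTop (𝓝 (1 / 4 * 0 - 0)) :=
    (log_div_sqrt.const_mul _).sub (tendsto_const_nhds.div_atTop sqrt_tendsto)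
  rw [mul_zero, sub_zero] at h1
  refine h1.congr fun g => ?_
  unfold Lg
  ring

theorem FF_mono {a L L' : ℝ} (h1 : 1 ≤ L) (h2 : L ≤ L') (h3 : 0 ≤ L - Real.log L + a) : FF a L ≤ FF a L' := by
  unfold FF
  have e2 := Real.log_le_sub_one_of_pos (show 0 < L' / L by have : 0 < L := by linarith
                                                            have : 0 < L' := by linarith
                                                            positivity)
  rw [Real.log_div (by linarith) (by linarith)] at e2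
  have e3 : L' / L - 1 ≤ L' - L := by
    rw [div_sub_one (by linarith), div_le_iff₀ (by linarith)]
    nlinarith
  exact mul_le_mul h2 (by linarith) h3 (by linarith)

theorem abs_ev {f : ℕ → ℝ} (h : Tendsto (fun g : ℕ => f g / √(g : ℝ)) atTop (𝓝 0)) {δ : ℝ} (hδ : 0 < δ) :
    ∀ᶠ g : ℕ in atTop, |f g| ≤ δ * √(g : ℝ) ∧ |f (g + 1)| ≤ δ * (√(g : ℝ) + 1) := by
  have h1 : ∀ᶠ g : ℕ in atTop, |f g| ≤ δ * √(g : ℝ) := by
    filter_upwards [(Metric.tendsto_nhds.1 h) δ hδ, eventually_gt_atTop 0] with g e1 e2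
    have e3 : 0 < √(g : ℝ) := Real.sqrt_pos.2 (by exact_mod_cast e2)
    rw [Real.dist_eq, sub_zero, abs_div, abs_of_pos e3, div_lt_iff₀ e3] at e1
    exact e1.le
  filter_upwards [h1, (tendsto_add_atTop_nat 1).eventually h1] with g e1 e2
  refine ⟨e1, e2.trans (mul_le_mul_of_nonneg_left ?_ hδ.le)⟩
  push_cast
  rw [Real.sqrt_le_left (by positivity)]
  have e3 : √(g : ℝ) ^ 2 = g := Real.sq_sqrt (Nat.cast_nonneg _)
  have e4 := Real.sqrt_nonneg (g : ℝ)
  nlinarith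

variable {Q : ℕ}

/-- The comparison of the thresholds with `g + s √g` along the blocks. -/
theorem key_bounds (Q : ℕ) (u s : ℝ) {ε : ℝ} (hε : 0 < ε) : ∀ᶠ g : ℕ in atTop,
    ∀ x ∈ Ioc (nn (Real.exp (-(cen Q u) / 2)) g) (nn (Real.exp (-(cen Q u) / 2)) (g + 1)),
      ((TT Q (u + s - ε) x : ℕ) : ℝ) < g + s * √(g : ℝ) + 1 ∧
      ((g + 1 : ℕ) : ℝ) + s * √((g + 1 : ℕ) : ℝ) ≤ ((TT Q (u + s + ε) x : ℕ) : ℝ) := by
  obtain ⟨a, ha⟩ : ∃ a, a = cen Q u := ⟨_, rfl⟩
  obtain ⟨ρ, hρd⟩ : ∃ ρ, ρ = Real.exp (-(cen Q u) / 2) := ⟨_, rfl⟩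
  have hρ : 0 < ρ := by rw [hρd]; exact Real.exp_pos _
  have hlogρ : Real.log ρ = -a / 2 := by rw [hρd, Real.log_exp, ha]
  rw [← hρd]
  obtain ⟨δ, hδd⟩ : ∃ δ, δ = ε / (8 * (1 + |s| + ε)) := ⟨_, rfl⟩
  have hs0 : 0 ≤ |s| := abs_nonneg s
  have hδ : 0 < δ := by rw [hδd]; positivity
  have hδ1 : δ ≤ ε / 8 := by
    rw [hδd]
    exact div_le_div_of_nonneg_left hε.le (by norm_num) (by linarith)
  have hδ2 : δ * (|s| + ε) ≤ ε / 8 := by
    rw [hδd, div_mul_eq_mul_div, div_le_div_iff₀ (by positivity) (by norm_num)]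
    linarith
  have hδ3 : δ ≤ 1 / 8 := by
    rw [hδd, div_le_div_iff₀ (by positivity) (by norm_num)]
    linarith
  have hlogx : Tendsto (fun L : ℝ => Real.log L / L) atTop (𝓝 0) := (Real.isLittleO_log_id_atTop).tendsto_div_nhds_zero
  have hsm : ∀ᶠ L : ℝ in atTop, Real.log L ≤ 1 / 4 * L := by
    filter_upwards [hlogx.eventually (eventually_lt_nhds (show (0 : ℝ) < 1 / 4 by norm_num)), eventually_gt_atTop 0] with L e1 e2
    rw [div_lt_iff₀ e2] at e1
    exact e1.le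
  obtain ⟨L0, hL0⟩ := eventually_atTop.1 hsm
  filter_upwards [abs_ev (FF_lim a) hδ, abs_ev (Lg_lim a) hδ,
    sqrt_tendsto.eventually_ge_atTop (max (max 4 (4 * (|a| + |s| + ε + 1))) (max (4 * L0) ((8 + 8 * |s|) / ε + 8 / δ))),
    eventually_ge_atTop 1] with g g1 g2 g3 g4 x hx
  obtain ⟨b1, b2⟩ := g1
  obtain ⟨b3, b4⟩ := g2
  have hg0 : (0 : ℝ) < g := by exact_mod_cast g4
  obtain ⟨t, ht⟩ : ∃ t, t = √(g : ℝ) := ⟨_, rfl⟩
  rw [← ht] at b1 b2 b3 b4 g3
  have c1 : 4 ≤ t := ((le_max_left _ _).trans (le_max_left _ _)).trans g3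
  have c2 : 4 * (|a| + |s| + ε + 1) ≤ t := ((le_max_right _ _).trans (le_max_left _ _)).trans g3
  have c3 : 4 * L0 ≤ t := ((le_max_left _ _).trans (le_max_right _ _)).trans g3
  have c4 : (8 + 8 * |s|) / ε + 8 / δ ≤ t := ((le_max_right _ _).trans (le_max_right _ _)).trans g3
  have c5 : 8 + 8 * |s| ≤ ε * t := by
    have : (8 + 8 * |s|) / ε ≤ t := by
      have : 0 ≤ 8 / δ := by positivity
      linarith
    rw [div_le_iff₀ hε] at this
    linarith
  have c6 : 8 ≤ δ * t := by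
    have : 8 / δ ≤ t := by
      have : 0 ≤ (8 + 8 * |s|) / ε := by positivity
      linarith
    rw [div_le_iff₀ hδ] at this
    linarith
  -- the position of `x`
  rw [mem_Ioc] at hx
  have hY0 : 0 < YY ρ g := YY_pos hρ g4
  have hx1 : YY ρ g ≤ x := by
    have e1 : YY ρ g < nn ρ g + 1 := Nat.lt_floor_add_one _
    have e2 : ((nn ρ g + 1 : ℕ) : ℝ) ≤ x := by exact_mod_cast hx.1
    push_cast at e2
    linarith
  have hx2 : (x : ℝ) ≤ YY ρ (g + 1) := by
    have e1 : (nn ρ (g + 1) : ℝ) ≤ YY ρ (g + 1) := Nat.floor_le (YY_nonneg hρ _)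
    have e2 : (x : ℝ) ≤ nn ρ (g + 1) := by exact_mod_cast hx.2
    linarith
  have hLg : ∀ k : ℕ, 1 ≤ k → Real.log (YY ρ k) = Lg a k := by
    intro k hk
    rw [log_YY hρ hk, hlogρ]
    unfold Lg
    ring
  have l1 : Lg a g ≤ Real.log x := by
    rw [← hLg g g4]
    exact Real.log_le_log hY0 hx1
  have l2 : Real.log x ≤ Lg a (g + 1) := by
    rw [← hLg (g + 1) (by omega)]
    exact Real.log_le_log (by linarith) hx2
  have hsq : √((g + 1 : ℕ) : ℝ) ≤ t + 1 := by
    rw [ht]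
    push_cast
    rw [Real.sqrt_le_left (by positivity)]
    have e3 : √(g : ℝ) ^ 2 = g := Real.sq_sqrt (Nat.cast_nonneg _)
    have e4 := Real.sqrt_nonneg (g : ℝ)
    have e5 : (√(g : ℝ) + 1) ^ 2 = √(g : ℝ) ^ 2 + 2 * √(g : ℝ) + 1 := by ring
    rw [e5]
    linarith
  have hsq2 : t ≤ √((g + 1 : ℕ) : ℝ) := by
    rw [ht]
    push_cast
    exact Real.sqrt_le_sqrt (by linarith)
  obtain ⟨L, hLd⟩ : ∃ L, L = Real.log (x : ℝ) := ⟨_, rfl⟩
  rw [← hLd] at l1 l2
  rw [abs_le] at b1 b2 b3 b4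
  have ht0 : 0 < t := by linarith
  have hδt : δ * t ≤ 1 / 8 * t := mul_le_mul_of_nonneg_right hδ3 ht0.le
  have hδt2 : δ * t ≤ ε / 8 * t := mul_le_mul_of_nonneg_right hδ1 ht0.le
  have hδt0 : 0 < δ * t := by positivity
  have d1 : L - t ≤ 2 * (δ * t) := by linarith [b4.2]
  have d2 : -(2 * (δ * t)) ≤ L - t := by linarith [b3.1]
  have d3 : t / 2 ≤ L := by linarith
  have hLgbig : 3 / 4 * t ≤ Lg a g := by linarith [b3.1]
  have hlL : ∀ L' : ℝ, t / 2 ≤ L' → Real.log L' ≤ 1 / 4 * L' := by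
    intro L' h
    refine hL0 L' ?_
    by_contra hcon
    push Not at hcon
    linarith
  have hpos : ∀ L' c : ℝ, t / 2 ≤ L' → |c| ≤ |a| + |s| + ε → 0 ≤ L' - Real.log L' + c := by
    intro L' c h1 h2
    have h3 := hlL L' h1
    have h4 := neg_abs_le c
    have h5 : 0 ≤ |a| := abs_nonneg a
    linarith
  have hFup : FF a L ≤ FF a (Lg a (g + 1)) := FF_mono (by linarith) l2 (hpos L a d3 (by linarith))
  have hFlo : FF a (Lg a g) ≤ FF a L := FF_mono (by linarith) l1 (hpos _ a (by linarith) (by linarith))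
  have hTT : ∀ w : ℝ, TT Q (u + w) x = ⌊FF (a + w) L⌋₊ := by
    intro w
    unfold TT FF
    rw [← hLd, ha]
    congr 3
    unfold cen
    ring
  have hFF : ∀ w : ℝ, FF (a + w) L = FF a L + w * L := by
    intro w
    unfold FF
    ring
  have hsL : |s * (L - t)| ≤ |s| * (2 * (δ * t)) := by
    rw [abs_mul]
    exact mul_le_mul_of_nonneg_left (abs_le.2 ⟨d2, d1⟩) hs0
  rw [abs_le] at hsL
  have hcast : ((g + 1 : ℕ) : ℝ) = (g : ℝ) + 1 := by push_cast; ring
  have hδs : 2 * t * (δ * (|s| + ε)) ≤ 2 * t * (ε / 8) := mul_le_mul_of_nonneg_left hδ2 (by linarith)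
  have k1 : ε * (t - L) ≤ ε * (2 * (δ * t)) := mul_le_mul_of_nonneg_left (by linarith) hε.le
  have w1 : s * (L - t) = s * L - s * t := by ring
  have w2 : ε * (t - L) = ε * t - ε * L := by ring
  have w3 : 2 * t * (δ * (|s| + ε)) = |s| * (2 * (δ * t)) + ε * (2 * (δ * t)) := by ring
  have w4 : 2 * t * (ε / 8) = ε * t / 4 := by ring
  have w5 : ε / 8 * t = ε * t / 8 := by ring
  have w6 : δ * (t + 1) = δ * t + δ := by ring
  rw [w1] at hsL
  rw [w2] at k1
  rw [w3, w4] at hδs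
  rw [w5] at hδt2
  rw [w6] at b2
  constructor
  · have e1 : u + s - ε = u + (s - ε) := by ring
    rw [e1, hTT, ← ht]
    have habs : |a + (s - ε)| ≤ |a| + |s| + ε := by
      refine (abs_add_le _ _).trans ?_
      have h6 : |s - ε| ≤ |s| + |ε| := by
        simpa [sub_eq_add_neg] using abs_add_le s (-ε)
      rw [abs_of_pos hε] at h6
      linarith
    have hF0 : 0 ≤ FF (a + (s - ε)) L := mul_nonneg (by linarith) (hpos L _ d3 habs)
    refine (Nat.floor_le hF0).trans_lt ?_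
    rw [hFF]
    rw [hcast] at b2
    have w7 : (s - ε) * L = s * L - ε * L := by ring
    rw [w7]
    linarith [b2.2, hsL.2]
  · have e1 : u + s + ε = u + (s + ε) := by ring
    rw [e1, hTT]
    have e2 := Nat.lt_floor_add_one (FF (a + (s + ε)) L)
    rw [hFF] at e2
    have w7 : (s + ε) * L = s * L + ε * L := by ring
    rw [w7] at e2
    have e3 : s * √((g + 1 : ℕ) : ℝ) ≤ s * t + |s| := by
      have e4 : s * (√((g + 1 : ℕ) : ℝ) - t) ≤ |s| * 1 :=
        (mul_le_mul_of_nonneg_right (le_abs_self s) (by linarith)).trans (mul_le_mul_of_nonneg_left (by linarith) hs0)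
      have e5 : s * (√((g + 1 : ℕ) : ℝ) - t) = s * √((g + 1 : ℕ) : ℝ) - s * t := by ring
      rw [e5] at e4
      linarith
    rw [hFF, w7, hcast]
    rw [hcast] at e3
    linarith [b1.1, hsL.1]

end Pool.Agent.H595.SH
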