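import Pool.Agent.H595.SH.Fin

/-!
# Natural density: the laws fail
-/

set_option autoImplicit false

namespace Pool.Agent.H595.SH

open Finset MeasureTheory ProbabilityTheory Filter Pool.Agent.H595.AS Pool.Agent.Q120.AD Pool.Agent.Q120.GM
open scoped Topology

theorem freq_of_lm {p : ℕ → Prop} {f : ℕ → ℝ} {l : ℝ} (h : Tendsto (lm f) atTop (𝓝 l)) (hl : 0 < l)
    (hf : ∀ n, f n ≤ ind (p n)) : ∃ᶠ n in atTop, p n := by
  by_contra hcon
  rw [Filter.not_frequently] at hcon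
  have h1 : ∀ᶠ n in atTop, f n ≤ 0 := by
    filter_upwards [hcon] with n hn
    have := hf n
    rwa [ind_false hn] at this
  obtain ⟨K, hK, h2⟩ := lm_le_of_eventually h1
  have h3 : Tendsto (fun N : ℕ => lm (fun _ => 0) N + K / Real.log N) atTop (𝓝 (0 + 0)) :=
    (lm_const 0).add (tendsto_const_nhds.div_atTop log_tendsto)
  rw [add_zero] at h3
  have h4 := le_of_tendsto_of_tendsto h h3 h2
  linarith

theorem freq_not {p : ℕ → Prop} {l : ℝ} (h : Tendsto (lm fun n => ind (p n)) atTop (𝓝 l)) (hl : l < 1) :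
    ∃ᶠ n in atTop, ¬ p n := by
  have h1 := ((lm_const 1).sub h).congr fun N => (lm_sub (fun _ => 1) (fun n => ind (p n)) N).symm
  refine freq_of_lm h1 (by linarith) fun n => ?_
  by_cases hp : p n
  · rw [ind_true hp, ind_false (fun h => h hp), sub_self]
  · rw [ind_false hp, ind_true hp, sub_zero]

open Classical in
/-- The number of the elements of `E` below `N`. -/
noncomputable def cnt (E : Set ℕ) (N : ℕ) : ℝ := (((range N).filter fun x => x ∈ E).card : ℝ)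

/-- The upper natural density is `1`. -/
def UpperOne (E : Set ℕ) : Prop := ∀ ε : ℝ, 0 < ε → ∃ᶠ N : ℕ in atTop, (1 - ε) * N ≤ cnt E N

/-- The lower natural density is `0`. -/
def LowerZero (E : Set ℕ) : Prop := ∀ ε : ℝ, 0 < ε → ∃ᶠ N : ℕ in atTop, cnt E N ≤ ε * N

theorem upperOne {E : Set ℕ} (h : ∀ ε : ℝ, 0 < ε → ε < 1 → ∃ᶠ n : ℕ in atTop, ∀ x : ℕ, ε * n ≤ x → x ≤ n → x ∈ E) : UpperOne E := by
  classical
  intro ε hε
  obtain ⟨δ, hδ⟩ : ∃ δ, δ = min (ε / 2) (1 / 2) := ⟨_, rfl⟩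
  have hδ0 : 0 < δ := by rw [hδ]; exact lt_min (by linarith) (by norm_num)
  have hδ1 : δ < 1 := by rw [hδ]; exact lt_of_le_of_lt (min_le_right _ _) (by norm_num)
  have hδ2 : δ ≤ ε / 2 := by rw [hδ]; exact min_le_left _ _
  refine ((h δ hδ0 hδ1).and_eventually (eventually_ge_atTop (⌈2 / ε⌉₊ + 1))).mono fun n hn => ?_
  obtain ⟨h1, h2⟩ := hn
  have h3 : Ico ⌈δ * n⌉₊ n ⊆ (range n).filter fun x => x ∈ E := by
    intro x hx
    rw [mem_Ico] at hx
    rw [mem_filter, mem_range]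
    exact ⟨hx.2, h1 x (Nat.ceil_le.1 hx.1) hx.2.le⟩
  have h4 := card_le_card h3
  rw [Nat.card_Ico] at h4
  have h5 : (n : ℝ) - ⌈δ * n⌉₊ ≤ cnt E n := by
    unfold cnt
    have h6 : (n : ℝ) ≤ ((n - ⌈δ * n⌉₊ : ℕ) : ℝ) + ⌈δ * n⌉₊ := by exact_mod_cast (by omega : n ≤ (n - ⌈δ * n⌉₊) + ⌈δ * n⌉₊)
    have h7 : ((n - ⌈δ * n⌉₊ : ℕ) : ℝ) ≤ (((range n).filter fun x => x ∈ E).card : ℝ) := by exact_mod_cast h4
    have h8 : ((((range n).filter fun x => x ∈ E).card : ℕ) : ℝ) = _ := rfl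
    convert (show (n : ℝ) - ⌈δ * n⌉₊ ≤ (((range n).filter fun x => x ∈ E).card : ℝ) by linarith) using 3
  have h6 : (⌈δ * (n : ℝ)⌉₊ : ℝ) < δ * n + 1 := Nat.ceil_lt_add_one (by positivity)
  have h7 : 2 / ε ≤ n := (Nat.le_ceil _).trans (by exact_mod_cast (by omega : ⌈2 / ε⌉₊ ≤ n))
  rw [div_le_iff₀ hε] at h7
  have h8 : δ * n ≤ ε / 2 * n := mul_le_mul_of_nonneg_right hδ2 (Nat.cast_nonneg _)
  linarith

theorem lowerZero {E : Set ℕ} (h : ∀ ε : ℝ, 0 < ε → ε < 1 → ∃ᶠ n : ℕ in atTop, ∀ x : ℕ, ε * n ≤ x → x ≤ n → x ∉ E) : LowerZero E := by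
  classical
  intro ε hε
  obtain ⟨δ, hδ⟩ : ∃ δ, δ = min (ε / 2) (1 / 2) := ⟨_, rfl⟩
  have hδ0 : 0 < δ := by rw [hδ]; exact lt_min (by linarith) (by norm_num)
  have hδ1 : δ < 1 := by rw [hδ]; exact lt_of_le_of_lt (min_le_right _ _) (by norm_num)
  have hδ2 : δ ≤ ε / 2 := by rw [hδ]; exact min_le_left _ _
  refine ((h δ hδ0 hδ1).and_eventually (eventually_ge_atTop (⌈2 / ε⌉₊ + 1))).mono fun n hn => ?_
  obtain ⟨h1, h2⟩ := hn
  have h3 : ((range n).filter fun x => x ∈ E) ⊆ range ⌈δ * n⌉₊ := by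
    intro x hx
    rw [mem_filter, mem_range] at hx
    rw [mem_range]
    by_contra hcon
    push Not at hcon
    exact h1 x (Nat.ceil_le.1 hcon) hx.1.le hx.2
  have h4 := card_le_card h3
  rw [card_range] at h4
  have h5 : cnt E n ≤ ⌈δ * n⌉₊ := by
    unfold cnt
    convert (show ((((range n).filter fun x => x ∈ E).card : ℕ) : ℝ) ≤ ⌈δ * n⌉₊ by exact_mod_cast h4) using 3
  have h6 : (⌈δ * (n : ℝ)⌉₊ : ℝ) < δ * n + 1 := Nat.ceil_lt_add_one (by positivity)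
  have h7 : 2 / ε ≤ n := (Nat.le_ceil _).trans (by exact_mod_cast (by omega : ⌈2 / ε⌉₊ ≤ n))
  rw [div_le_iff₀ hε] at h7
  have h8 : δ * n ≤ ε / 2 * n := mul_le_mul_of_nonneg_right hδ2 (Nat.cast_nonneg _)
  linarith

variable {Q : ℕ}

theorem TT_FF (Q : ℕ) (u : ℝ) (x : ℕ) : TT Q u x = ⌊FF (cen Q u) (Real.log x)⌋₊ := rfl

/-- The thresholds at comparable places. -/
theorem TT_cmp (Q : ℕ) (u : ℝ) {ε : ℝ} (hε : 0 < ε) (hε1 : ε < 1) : ∀ᶠ n : ℕ in atTop, ∀ x : ℕ, ε * n ≤ x → x ≤ n →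
    TT Q (u + 2 * Real.log ε - 1) n ≤ TT Q u x ∧ TT Q u x ≤ TT Q u n := by
  obtain ⟨a, ha⟩ : ∃ a, a = cen Q u := ⟨_, rfl⟩
  obtain ⟨c, hc⟩ : ∃ c, c = -Real.log ε := ⟨_, rfl⟩
  have hc0 : 0 < c := by rw [hc]; linarith [Real.log_neg hε hε1]
  have hlogx : Tendsto (fun L : ℝ => Real.log L / L) atTop (𝓝 0) := (Real.isLittleO_log_id_atTop).tendsto_div_nhds_zero
  have hsm : ∀ᶠ L : ℝ in atTop, Real.log L ≤ 1 / 4 * L := by
    filter_upwards [hlogx.eventually (eventually_lt_nhds (show (0 : ℝ) < 1 / 4 by norm_num)), eventually_gt_atTop 0] with L e1 e2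
    rw [div_lt_iff₀ e2] at e1
    exact e1.le
  obtain ⟨L0, hL0⟩ := eventually_atTop.1 hsm
  filter_upwards [hl.eventually_ge_atTop (|L0| + c + 2 + 2 * |a| + |a * c|), eventually_ge_atTop 1] with n g1 g2 x h1 h2
  have hL00 : 0 ≤ |L0| := abs_nonneg L0
  have hL01 := le_abs_self L0
  have hn0 : (0 : ℝ) < n := by exact_mod_cast g2
  have hx0 : (0 : ℝ) < x := lt_of_lt_of_le (by positivity) h1
  have hxn : Real.log x ≤ Real.log n := Real.log_le_log hx0 (by exact_mod_cast h2)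
  have hx1 : Real.log n - c ≤ Real.log x := by
    have := Real.log_le_log (by positivity) h1
    rw [Real.log_mul hε.ne' hn0.ne'] at this
    linarith
  have ha0 : 0 ≤ |a| := abs_nonneg a
  have hac0 : 0 ≤ |a * c| := abs_nonneg _
  have ha1 := neg_abs_le a
  have hac := le_abs_self (a * c)
  have hpos : ∀ L, Real.log n - c ≤ L → 1 ≤ L ∧ 0 ≤ L - Real.log L + a := by
    intro L hL
    have h3 := hL0 L (by linarith)
    constructor <;> linarith
  constructor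
  · rw [TT_FF, TT_FF]
    refine Nat.floor_le_floor ?_
    have e1 : cen Q (u + 2 * Real.log ε - 1) = a - 2 * c - 1 := by
      rw [ha, hc]
      unfold cen
      ring
    rw [e1, ← ha]
    refine le_trans ?_ (FF_mono (hpos _ le_rfl).1 hx1 (hpos _ le_rfl).2)
    unfold FF
    obtain ⟨L, hL⟩ : ∃ L, L = Real.log (n : ℝ) := ⟨_, rfl⟩
    have hp := hpos (Real.log n - c) le_rfl
    rw [← hL] at hp g1 ⊢
    have e2 : (L - c) * Real.log (L - c) ≤ L * Real.log L :=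
      mul_le_mul (by linarith) (Real.log_le_log (by linarith) (by linarith)) (Real.log_nonneg hp.1) (by linarith)
    have e3 : (L - c) * (L - c - Real.log (L - c) + a) - L * (L - Real.log L + (a - 2 * c - 1)) =
        c ^ 2 - (L - c) * Real.log (L - c) + L * Real.log L - a * c + L := by ring
    have e4 : 0 ≤ c ^ 2 := sq_nonneg c
    linarith
  · rw [TT_FF, TT_FF]
    refine Nat.floor_le_floor ?_
    rw [← ha]
    exact FF_mono (hpos _ hx1).1 hxn (hpos _ hx1).2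

end Pool.Agent.H595.SH
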