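import Pool.Agent.H595.SH.Nat

/-!
# Natural density: the upper and lower densities are `1` and `0`
-/

set_option autoImplicit false

namespace Pool.Agent.H595.SH

open Finset MeasureTheory ProbabilityTheory Filter Pool.Agent.H595.AS Pool.Agent.Q120.AD Pool.Agent.Q120.GM
open scoped Topology

variable {Q : ℕ} {S : Set ℕ}

theorem size_upper (hω : ∀ u : ℝ, Tendsto (lm fun n => ind (G S (n : ℝ) ≤ TT Q u n)) atTop (𝓝 (Real.exp (-Real.exp (-u))))) (u : ℝ) :
    UpperOne {x : ℕ | G S (x : ℝ) ≤ TT Q u x} := by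
  refine upperOne fun ε hε hε1 => ?_
  have h1 := freq_of_lm (hω (u + 2 * Real.log ε - 1)) (Real.exp_pos _) fun n => le_rfl
  refine (h1.and_eventually (TT_cmp Q u hε hε1)).mono fun n hn x h2 h3 => ?_
  show G S (x : ℝ) ≤ TT Q u x
  exact ((G_mono (by exact_mod_cast h3)).trans hn.1).trans (hn.2 x h2 h3).1

theorem size_lower (hω : ∀ θ u : ℝ, 0 ≤ θ → θ ≤ 1 →
      Tendsto (lm fun n => ind (G S (θ * n) ≤ TT Q u n)) atTop (𝓝 (Real.exp (-(θ ^ 2 * Real.exp (-u)))))) (u : ℝ) :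
    LowerZero {x : ℕ | G S (x : ℝ) ≤ TT Q u x} := by
  refine lowerZero fun ε hε hε1 => ?_
  have h1 := freq_not (hω ε u hε.le hε1.le) (by
    rw [Real.exp_lt_one_iff, neg_lt_zero]
    positivity)
  refine (h1.and_eventually (TT_cmp Q u hε hε1)).mono fun n hn x h2 h3 h4 => ?_
  have h5 : G S (x : ℝ) ≤ TT Q u x := h4
  exact hn.1 (((G_mono h2).trans h5).trans (hn.2 x h2 h3).2)

theorem pos_upper (hω : ∀ θ u : ℝ, 0 ≤ θ → θ ≤ 1 →
      Tendsto (lm fun n => ind (G S (θ * n) = G S n ∧ G S n ≤ TT Q u n)) atTop (𝓝 (θ ^ 2 * Real.exp (-Real.exp (-u)))))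
    {θ : ℝ} (h0 : 0 < θ) (h1 : θ ≤ 1) : UpperOne {x : ℕ | G S (θ * x) = G S x} := by
  refine upperOne fun ε hε hε1 => ?_
  have h2 := freq_of_lm (p := fun n => G S ((ε * θ) * n) = G S n) (hω (ε * θ) 0 (by positivity) (by nlinarith))
    (mul_pos (by positivity) (Real.exp_pos _)) fun n => ind_mono fun h => h.1
  refine h2.mono fun n hn x h3 h4 => ?_
  show G S (θ * x) = G S x
  have hxn : (x : ℝ) ≤ n := by exact_mod_cast h4
  refine le_antisymm (G_mono (by nlinarith [Nat.cast_nonneg (α := ℝ) x])) ?_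
  refine (G_mono hxn).trans ?_
  rw [← hn]
  refine G_mono ?_
  have := mul_le_mul_of_nonneg_left h3 h0.le
  linarith

theorem pos_lower (hω : ∀ (k : ℕ) (θ v : ℕ → ℝ), θ 0 = 0 → (∀ i, θ i ≤ 1) → Monotone θ → Monotone v →
      Tendsto (lm fun n => ind (∀ i < k, G S (θ (i + 1) * n) ≤ TT Q (v i) n)) atTop (𝓝 (Real.exp (-sig k θ v))))
    {θ : ℝ} (h0 : 0 < θ) (h1 : θ < 1) : LowerZero {x : ℕ | G S (θ * x) = G S x} := by
  refine lowerZero fun ε hε hε1 => ?_
  obtain ⟨η, hη⟩ : ∃ η, η = √θ := ⟨_, rfl⟩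
  have hη0 : 0 < η := by rw [hη]; exact Real.sqrt_pos.2 h0
  have hηθ : η * η = θ := by rw [hη]; exact Real.mul_self_sqrt h0.le
  have hη1 : η < 1 := by nlinarith
  obtain ⟨m0, hm0⟩ := exists_pow_lt_of_lt_one hε hη1
  have hm1 : 1 ≤ m0 := by
    by_contra hcon
    have : m0 = 0 := by omega
    rw [this, pow_zero] at hm0
    linarith
  obtain ⟨k, hk⟩ : ∃ k, k = m0 + 2 := ⟨_, rfl⟩
  obtain ⟨ls, hls⟩ : ∃ ls, ls = η ^ (2 * k) * (1 - η ^ 2) := ⟨_, rfl⟩
  have hls0 : 0 < ls := by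
    rw [hls]
    refine mul_pos (by positivity) ?_
    nlinarith
  obtain ⟨H, hH⟩ : ∃ H, H = (k : ℝ) / ls := ⟨_, rfl⟩
  have hk0 : (0 : ℝ) < k := by exact_mod_cast (by omega : 0 < k)
  have hH0 : 0 < H := by rw [hH]; positivity
  obtain ⟨T, hT⟩ : ∃ T : ℕ → ℝ, T = fun i => if i = 0 then 0 else η ^ (k - i) := ⟨_, rfl⟩
  have hT0 : T 0 = 0 := by rw [hT]; simp
  have hTs : ∀ i, 1 ≤ i → T i = η ^ (k - i) := by
    intro i hi
    rw [hT]
    simp only
    rw [if_neg (by omega)]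
  have hT1 : ∀ i, T i ≤ 1 := by
    intro i
    rcases Nat.eq_zero_or_pos i with h | h
    · rw [h, hT0]; norm_num
    · rw [hTs i h]
      exact pow_le_one₀ hη0.le hη1.le
  have hTm : Monotone T := by
    refine monotone_nat_of_le_succ fun i => ?_
    rcases Nat.eq_zero_or_pos i with h | h
    · rw [h, hT0, hTs _ (by omega)]
      positivity
    · rw [hTs i h, hTs (i + 1) (by omega)]
      exact pow_le_pow_of_le_one hη0.le hη1.le (by omega)
  obtain ⟨v, hv⟩ : ∃ v : ℕ → ℝ, v = fun i => -Real.log (((max (k - i) 1 : ℕ) : ℝ) * H) := ⟨_, rfl⟩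
  have hev : ∀ i, Real.exp (-v i) = ((max (k - i) 1 : ℕ) : ℝ) * H := by
    intro i
    rw [hv]
    simp only
    rw [neg_neg, Real.exp_log]
    have : (0 : ℝ) < ((max (k - i) 1 : ℕ) : ℝ) := by exact_mod_cast (by omega : 0 < max (k - i) 1)
    positivity
  have hvm : Monotone v := by
    intro i j hij
    have h2 : Real.exp (-v j) ≤ Real.exp (-v i) := by
      rw [hev, hev]
      refine mul_le_mul_of_nonneg_right ?_ hH0.le
      exact_mod_cast (by omega : max (k - j) 1 ≤ max (k - i) 1)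
    rw [Real.exp_le_exp] at h2
    linarith
  obtain ⟨vj, hvj⟩ : ∃ vj : ℕ → ℕ → ℝ, vj = fun j i => if i = j then v (j - 1) else v i := ⟨_, rfl⟩
  have hvjm : ∀ j, 1 ≤ j → Monotone (vj j) := by
    intro j hj
    refine monotone_nat_of_le_succ fun i => ?_
    rw [hvj]
    simp only
    split_ifs with e1 e2 e2
    · omega
    · exact (hvm (by omega : j - 1 ≤ i + 1))
    · rw [← e2]
      exact le_of_eq (by rw [Nat.add_sub_cancel])
    · exact hvm (Nat.le_succ i)
  have hlam : ∀ j, 1 ≤ j → j < k → ls ≤ T (j + 1) ^ 2 - T j ^ 2 := by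
    intro j hj hjk
    rw [hTs j hj, hTs (j + 1) (by omega), hls]
    have e1 : k - j = (k - (j + 1)) + 1 := by omega
    rw [e1]
    have e2 : (η ^ (k - (j + 1))) ^ 2 - (η ^ (k - (j + 1) + 1)) ^ 2 = (η ^ (k - (j + 1))) ^ 2 * (1 - η ^ 2) := by ring
    rw [e2, ← pow_mul]
    refine mul_le_mul_of_nonneg_right ?_ (by nlinarith)
    exact pow_le_pow_of_le_one hη0.le hη1.le (by omega)
  have hsig : ∀ j, 1 ≤ j → j < k → sig k T v + k ≤ sig k T (vj j) := by
    intro j hj hjk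
    have e1 : sig k T (vj j) - sig k T v = (T (j + 1) ^ 2 - T j ^ 2) * H := by
      unfold sig
      rw [← Finset.sum_sub_distrib, Finset.sum_eq_single_of_mem j (mem_range.2 hjk)]
      · have e2 : vj j j = v (j - 1) := by rw [hvj]; simp
        rw [e2, hev, hev]
        have e3 : ((max (k - (j - 1)) 1 : ℕ) : ℝ) = ((max (k - j) 1 : ℕ) : ℝ) + 1 := by
          exact_mod_cast (by omega : max (k - (j - 1)) 1 = max (k - j) 1 + 1)
        rw [e3]
        ring
      · intro i _ hij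
        have e2 : vj j i = v i := by rw [hvj]; simp [hij]
        rw [e2, sub_self]
    have e2 : (k : ℝ) ≤ (T (j + 1) ^ 2 - T j ^ 2) * H := by
      have e3 : ls * H = k := by rw [hH]; field_simp
      rw [← e3]
      exact mul_le_mul_of_nonneg_right (hlam j hj hjk) hH0.le
    linarith
  -- the event
  have hlim := (((hω k T v hT0 hT1 hTm hvm).sub (tendsto_finsetSum (Ico 1 k) fun j hj =>
    hω k T (vj j) hT0 hT1 hTm (hvjm j (mem_Ico.1 hj).1)))).congr fun N => by
      rw [← lm_sum, ← lm_sub]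
  have hposl : 0 < Real.exp (-sig k T v) - ∑ j ∈ Ico 1 k, Real.exp (-sig k T (vj j)) := by
    have e1 : ∑ j ∈ Ico 1 k, Real.exp (-sig k T (vj j)) ≤ ∑ _j ∈ Ico 1 k, Real.exp (-sig k T v) * Real.exp (-(k : ℝ)) := by
      refine Finset.sum_le_sum fun j hj => ?_
      rw [mem_Ico] at hj
      rw [← Real.exp_add, Real.exp_le_exp]
      linarith [hsig j hj.1 hj.2]
    rw [Finset.sum_const, Nat.card_Ico, nsmul_eq_mul] at e1
    have e2 : ((k - 1 : ℕ) : ℝ) ≤ k := by exact_mod_cast (by omega : k - 1 ≤ k)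
    have e3 : (k : ℝ) + 1 ≤ Real.exp k := Real.add_one_le_exp _
    have e4 : Real.exp (-(k : ℝ)) * Real.exp k = 1 := by rw [← Real.exp_add]; simp
    have e5 := Real.exp_pos (-sig k T v)
    have e6 := Real.exp_pos (-(k : ℝ))
    have e7 : ((k - 1 : ℕ) : ℝ) * Real.exp (-(k : ℝ)) < 1 := by
      rw [← e4, mul_comm]
      exact mul_lt_mul_of_pos_left (by linarith) e6
    have e8 : ((k - 1 : ℕ) : ℝ) * (Real.exp (-sig k T v) * Real.exp (-(k : ℝ))) < Real.exp (-sig k T v) := by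
      calc ((k - 1 : ℕ) : ℝ) * (Real.exp (-sig k T v) * Real.exp (-(k : ℝ)))
          = Real.exp (-sig k T v) * (((k - 1 : ℕ) : ℝ) * Real.exp (-(k : ℝ))) := by ring
        _ < Real.exp (-sig k T v) * 1 := mul_lt_mul_of_pos_left e7 e5
        _ = Real.exp (-sig k T v) := mul_one _
    linarith
  have hfreq := freq_of_lm (p := fun n : ℕ => ∀ j ∈ Ico 1 k, G S (T j * n) < G S (T (j + 1) * n)) hlim hposl fun n => by
    by_cases hE : ∀ j ∈ Ico 1 k, G S (T j * n) < G S (T (j + 1) * n)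
    · rw [ind_true hE]
      have e1 := ind_le_one (∀ i < k, G S (T (i + 1) * n) ≤ TT Q (v i) n)
      have e2 : 0 ≤ ∑ j ∈ Ico 1 k, ind (∀ i < k, G S (T (i + 1) * n) ≤ TT Q (vj j i) n) :=
        Finset.sum_nonneg fun j _ => ind_nonneg _
      linarith
    · rw [ind_false hE]
      push Not at hE
      obtain ⟨j, hj, h2⟩ := hE
      have e1 : ind (∀ i < k, G S (T (i + 1) * n) ≤ TT Q (v i) n) ≤ ind (∀ i < k, G S (T (i + 1) * n) ≤ TT Q (vj j i) n) := by
        refine ind_mono fun h i hi => ?_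
        rw [hvj]
        simp only
        rw [mem_Ico] at hj
        split_ifs with e2
        · rw [e2]
          refine h2.trans ?_
          have := h (j - 1) (by omega)
          rwa [Nat.sub_add_cancel hj.1] at this
        · exact h i hi
      have e2 := Finset.single_le_sum (f := fun j => ind (∀ i < k, G S (T (i + 1) * n) ≤ TT Q (vj j i) n))
        (fun j _ => ind_nonneg _) hj
      linarith
  refine (hfreq.and_eventually (eventually_ge_atTop 1)).mono fun n hn x h2 h3 h4 => ?_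
  obtain ⟨h5, h6⟩ := hn
  have hn0 : (0 : ℝ) < n := by exact_mod_cast h6
  have hxn : (x : ℝ) ≤ n := by exact_mod_cast h3
  -- the position of `x`
  have hex : ∃ m, ¬ (x : ℝ) ≤ η ^ m * n := ⟨m0, by
    rw [not_le]
    exact (mul_lt_mul_of_pos_right hm0 hn0).trans_le h2⟩
  classical
  have e1 := Nat.find_spec hex
  have e2 : Nat.find hex ≤ m0 := Nat.find_min' hex (by
    rw [not_le]
    exact (mul_lt_mul_of_pos_right hm0 hn0).trans_le h2)
  have e3 : 1 ≤ Nat.find hex := by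
    by_contra hcon
    have e4 : Nat.find hex = 0 := by omega
    rw [e4, pow_zero, one_mul] at e1
    exact e1 hxn
  obtain ⟨m, hm⟩ : ∃ m, Nat.find hex = m + 1 := ⟨Nat.find hex - 1, by omega⟩
  have e4 : (x : ℝ) ≤ η ^ m * n := by
    by_contra hcon
    exact Nat.find_min hex (by omega : m < Nat.find hex) hcon
  rw [hm, not_le] at e1
  have e5 := h5 (k - m - 2) (by rw [mem_Ico]; omega)
  rw [hTs (k - m - 2) (by omega), hTs (k - m - 2 + 1) (by omega)] at e5
  have e6 : k - (k - m - 2) = m + 2 := by omega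
  have e7 : k - (k - m - 2 + 1) = m + 1 := by omega
  rw [e6, e7] at e5
  have e8 : G S (θ * x) = G S x := h4
  have e9 : G S (θ * x) ≤ G S (η ^ (m + 2) * n) := by
    refine G_mono ?_
    calc θ * x ≤ θ * (η ^ m * n) := mul_le_mul_of_nonneg_left e4 h0.le
      _ = η ^ (m + 2) * n := by rw [← hηθ]; ring
  have e10 : G S (η ^ (m + 1) * n) ≤ G S x := G_mono e1.le
  omega

end Pool.Agent.H595.SH
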