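import Mathlib

/-!
# The Poisson approximation for a delayed recursion
-/

set_option autoImplicit false

namespace Pool.Agent.H595.SH

open Finset Filter
open scoped Topology Nat

/-- `po (c + 1)` is the Poisson probability of `c`, `po 0 = 0`. -/
noncomputable def po : ℕ → ℝ → ℝ
  | 0, _ => 0
  | c + 1, x => Real.exp (-x) * x ^ c / c !

theorem po_zero (x : ℝ) : po 0 x = 0 := rfl

theorem po_succ (c : ℕ) (x : ℝ) : po (c + 1) x = Real.exp (-x) * x ^ c / c ! := rfl

theorem po_deriv (c : ℕ) (x : ℝ) : HasDerivAt (po (c + 1)) (po c x - po (c + 1) x) x := by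
  have h0 : HasDerivAt (fun y : ℝ => Real.exp (-y)) (-Real.exp (-x)) x := by
    have := (hasDerivAt_id x).neg.exp
    simpa using this
  rcases c with _ | c
  · have h1 : po (0 + 1) = fun y => Real.exp (-y) := by
      funext y
      rw [po_succ]
      simp
    rw [h1, po_zero]
    simpa using h0
  · have h1 : po (c + 1 + 1) = fun y => Real.exp (-y) * y ^ (c + 1) / ((c + 1) ! : ℕ) := by
      funext y
      rw [po_succ]
    rw [h1]
    have h2 := (h0.mul (hasDerivAt_pow (c + 1) x)).div_const (((c + 1) ! : ℕ) : ℝ)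
    refine h2.congr_deriv ?_
    rw [po_succ, Nat.add_sub_cancel, Nat.factorial_succ]
    push_cast
    have h3 : ((c ! : ℕ) : ℝ) ≠ 0 := by exact_mod_cast Nat.factorial_ne_zero c
    field_simp
    ring

theorem po_cont (c : ℕ) : Continuous (po c) := by
  rcases c with _ | c
  · exact continuous_const
  · exact continuous_iff_continuousAt.2 fun x => (po_deriv c x).continuousAt

theorem po_bounds (c : ℕ) {x : ℝ} (hx : 0 ≤ x) : 0 ≤ po c x ∧ po c x ≤ 1 := by
  rcases c with _ | c
  · exact ⟨le_rfl, zero_le_one⟩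
  · rw [po_succ]
    refine ⟨by positivity, ?_⟩
    have h1 := Real.pow_div_factorial_le_exp x hx c
    calc Real.exp (-x) * x ^ c / c ! = Real.exp (-x) * (x ^ c / c !) := by ring
      _ ≤ Real.exp (-x) * Real.exp x := mul_le_mul_of_nonneg_left h1 (Real.exp_pos _).le
      _ = 1 := by rw [← Real.exp_add]; simp

theorem po_lip (c : ℕ) {x y : ℝ} (hx : 0 ≤ x) (hxy : x ≤ y) : |po c y - po c x| ≤ y - x := by
  rcases c with _ | c
  · rw [po_zero, po_zero]
    simpa using hxy
  · rcases hxy.eq_or_lt with h | h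
    · rw [h]
      simp
    · obtain ⟨t, ht, h1⟩ := exists_hasDerivAt_eq_slope (po (c + 1)) (fun t => po c t - po (c + 1) t) h
        (po_cont _).continuousOn fun t _ => po_deriv c t
      have h2 : po (c + 1) y - po (c + 1) x = (po c t - po (c + 1) t) * (y - x) := by
        rw [h1, div_mul_cancel₀ _ (by linarith)]
      have h3 := po_bounds c (show 0 ≤ t by linarith [ht.1])
      have h4 := po_bounds (c + 1) (show 0 ≤ t by linarith [ht.1])
      rw [h2, abs_mul, abs_of_pos (by linarith : 0 < y - x)]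
      have h5 : |po c t - po (c + 1) t| ≤ 1 := by
        rw [abs_le]
        constructor <;> linarith
      calc |po c t - po (c + 1) t| * (y - x) ≤ 1 * (y - x) := mul_le_mul_of_nonneg_right h5 (by linarith)
        _ = y - x := one_mul _

theorem po_taylor (c : ℕ) {x e : ℝ} (hx : 0 ≤ x) (he : 0 ≤ e) :
    |po (c + 1) (x + e) - po (c + 1) x - e * (po c x - po (c + 1) x)| ≤ 2 * e ^ 2 := by
  rcases he.eq_or_lt with h | h
  · rw [← h]
    simp
  · obtain ⟨t, ht, h1⟩ := exists_hasDerivAt_eq_slope (po (c + 1)) (fun t => po c t - po (c + 1) t)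
      (show x < x + e by linarith) (po_cont _).continuousOn fun t _ => po_deriv c t
    have h2 : po (c + 1) (x + e) - po (c + 1) x = (po c t - po (c + 1) t) * e := by
      rw [h1, add_sub_cancel_left, div_mul_cancel₀ _ h.ne']
    have h3 := po_lip c hx ht.1.le
    have h4 := po_lip (c + 1) hx ht.1.le
    rw [h2]
    have h5 : (po c t - po (c + 1) t) * e - e * (po c x - po (c + 1) x) = e * ((po c t - po c x) - (po (c + 1) t - po (c + 1) x)) := by
      ring
    rw [h5, abs_mul, abs_of_pos h]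
    have h6 : |(po c t - po c x) - (po (c + 1) t - po (c + 1) x)| ≤ 2 * e := by
      rw [abs_le] at h3 h4 ⊢
      constructor <;> linarith [h3.1, h3.2, h4.1, h4.2, ht.2]
    calc e * |(po c t - po c x) - (po (c + 1) t - po (c + 1) x)| ≤ e * (2 * e) := mul_le_mul_of_nonneg_left h6 h.le
      _ = 2 * e ^ 2 := by ring

theorem poisson_approx {z n T : ℕ} {e : ℕ → ℝ} {q : ℕ → ℕ → ℝ} {η : ℝ} (he0 : ∀ m, 0 ≤ e m)
    (he1 : ∀ m, z ≤ m → m < n → e m ≤ η) (hη : ((T : ℝ) + 1) * η ≤ 1) (hη0 : 0 ≤ η) (hq : ∀ c N, 0 ≤ q c N ∧ q c N ≤ 1)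
    (hq0 : ∀ N, q 0 N = 0) (hconst : ∀ c N, N ≤ z → q c N = q c z) (hz1 : q 1 z = 1) (hz2 : ∀ c, q (c + 2) z = 0)
    (hrec : ∀ c N, z ≤ N → N < n → q (c + 1) (N + 1) = q (c + 1) N - e N * q (c + 1) (N - T) + e N * q c (N - T)) :
    ∀ c N, z ≤ N → N ≤ n → |q c N - po c (∑ m ∈ Ico z N, e m)| ≤ c * (4 * (((T : ℝ) + 1) * η)) := by
  have hT : (0 : ℝ) ≤ T := Nat.cast_nonneg _
  have hη1 : η ≤ ((T : ℝ) + 1) * η := by nlinarith
  have hstep : ∀ c N, z ≤ N → N < n → |q c (N + 1) - q c N| ≤ η := by
    intro c N h1 h2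
    rcases c with _ | c
    · rw [hq0, hq0, sub_self, abs_zero]
      exact hη0
    · rw [hrec c N h1 h2]
      have e1 : q (c + 1) N - e N * q (c + 1) (N - T) + e N * q c (N - T) - q (c + 1) N = e N * (q c (N - T) - q (c + 1) (N - T)) := by
        ring
      rw [e1, abs_mul, abs_of_nonneg (he0 N)]
      have e2 : |q c (N - T) - q (c + 1) (N - T)| ≤ 1 := by
        rw [abs_le]
        constructor <;> linarith [(hq c (N - T)).1, (hq c (N - T)).2, (hq (c + 1) (N - T)).1, (hq (c + 1) (N - T)).2]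
      calc e N * |q c (N - T) - q (c + 1) (N - T)| ≤ e N * 1 := mul_le_mul_of_nonneg_left e2 (he0 N)
        _ ≤ η := by rw [mul_one]; exact he1 N h1 h2
  have hback : ∀ c N, z ≤ N → N ≤ n → ∀ j : ℕ, |q c N - q c (N - j)| ≤ j * η := by
    intro c N h1 h2 j
    induction j with
    | zero => simp
    | succ j ih =>
      rcases le_or_gt (N - j) z with h3 | h3
      · rw [hconst c (N - (j + 1)) (by omega), ← hconst c (N - j) h3]
        push_cast
        linarith
      · have h4 := hstep c (N - (j + 1)) (by omega) (by omega)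
        rw [show N - (j + 1) + 1 = N - j by omega] at h4
        have h5 : q c N - q c (N - (j + 1)) = (q c N - q c (N - j)) + (q c (N - j) - q c (N - (j + 1))) := by ring
        rw [h5]
        refine (abs_add_le _ _).trans ?_
        push_cast
        linarith
  intro c
  induction c with
  | zero =>
    intro N _ _
    rw [hq0, po_zero]
    simp
  | succ c ihc =>
    intro N h1
    induction N, h1 using Nat.le_induction with
    | base =>
      intro _
      rw [Finset.Ico_self, Finset.sum_empty]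
      have e1 : q (c + 1) z = po (c + 1) 0 := by
        rcases c with _ | c
        · rw [hz1, po_succ]
          simp
        · rw [hz2, po_succ]
          simp
      rw [e1, sub_self, abs_zero]
      positivity
    | succ N h1 ihN =>
      intro h2
      have hN := ihN (by omega)
      have hc := ihc N h1 (by omega)
      obtain ⟨Λ, hΛ⟩ : ∃ Λ, Λ = ∑ m ∈ Ico z N, e m := ⟨_, rfl⟩
      have hΛ0 : 0 ≤ Λ := by rw [hΛ]; exact Finset.sum_nonneg fun m _ => he0 m
      rw [Finset.sum_Ico_succ_top h1, hrec c N h1 (by omega)]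
      rw [← hΛ] at hN hc ⊢
      obtain ⟨x, hx⟩ : ∃ x, x = e N := ⟨_, rfl⟩
      have hx0 : 0 ≤ x := by rw [hx]; exact he0 N
      have hx1 : x ≤ η := by rw [hx]; exact he1 N h1 (by omega)
      rw [← hx]
      have ha := hback (c + 1) N h1 (by omega) T
      have hb := hback c N h1 (by omega) T
      have hr := po_taylor c hΛ0 hx0
      obtain ⟨η', hη'⟩ : ∃ η', η' = ((T : ℝ) + 1) * η := ⟨_, rfl⟩
      have hTη : (T : ℝ) * η = η' - η := by rw [hη']; ring
      rw [hTη] at ha hb
      rw [← hη'] at hN hc hη hη1 ⊢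
      have e1 : q (c + 1) N - x * q (c + 1) (N - T) + x * q c (N - T) - po (c + 1) (Λ + x) =
          (1 - x) * (q (c + 1) N - po (c + 1) Λ) + x * (q c N - po c Λ) + x * (q (c + 1) N - q (c + 1) (N - T)) -
          x * (q c N - q c (N - T)) - (po (c + 1) (Λ + x) - po (c + 1) Λ - x * (po c Λ - po (c + 1) Λ)) := by ring
      rw [e1]
      have f1 : |(1 - x) * (q (c + 1) N - po (c + 1) Λ)| ≤ (1 - x) * (((c + 1 : ℕ) : ℝ) * (4 * η')) := by
        rw [abs_mul, abs_of_nonneg (by linarith : 0 ≤ 1 - x)]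
        exact mul_le_mul_of_nonneg_left hN (by linarith)
      have f2 : |x * (q c N - po c Λ)| ≤ x * (c * (4 * η')) := by
        rw [abs_mul, abs_of_nonneg hx0]
        exact mul_le_mul_of_nonneg_left hc hx0
      have f3 : |x * (q (c + 1) N - q (c + 1) (N - T))| ≤ x * (η' - η) := by
        rw [abs_mul, abs_of_nonneg hx0]
        exact mul_le_mul_of_nonneg_left ha hx0
      have f4 : |x * (q c N - q c (N - T))| ≤ x * (η' - η) := by
        rw [abs_mul, abs_of_nonneg hx0]
        exact mul_le_mul_of_nonneg_left hb hx0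
      have f5 : 2 * x ^ 2 ≤ 2 * (x * η) := by
        have := mul_le_mul_of_nonneg_left hx1 hx0
        linarith [sq x]
      have f6 : ((c + 1 : ℕ) : ℝ) = c + 1 := by push_cast; ring
      rw [f6] at f1 ⊢
      have f7 : (1 - x) * (((c : ℝ) + 1) * (4 * η')) + x * (c * (4 * η')) = ((c : ℝ) + 1) * (4 * η') - 4 * (x * η') := by ring
      have f8 : x * (η' - η) = x * η' - x * η := by ring
      rw [f8] at f3 f4
      have f9 : 0 ≤ x * η' := mul_nonneg hx0 (by linarith)
      rw [abs_le] at f1 f2 f3 f4 hr ⊢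
      constructor <;> linarith [f1.1, f1.2, f2.1, f2.2, f3.1, f3.2, f4.1, f4.2, hr.1, hr.2]

end Pool.Agent.H595.SH
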