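import Pool.Agent.H595.SH.Cnt3

/-!
# The Poisson law for the occurrences of runs, over `g`
-/

set_option autoImplicit false

set_option maxHeartbeats 400000

namespace Pool.Agent.H595.SH

open Finset MeasureTheory ProbabilityTheory Filter Pool.Agent.H595.AS Pool.Agent.Q120.AD Pool.Agent.Q120.GM
open scoped Topology Nat

/-- The number of the elements `a` of `S` in `(y, z]` which are followed by a run of at least `t`
numbers outside `S` (and then by an element of `S`). -/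
noncomputable def NR (S : Set ℕ) (y z t : ℝ) : ℕ :=
  Set.ncard {a : ℕ | y < a ∧ (a : ℝ) ≤ z ∧ ∃ b, IsGap S a b ∧ t ≤ ((b - a - 1 : ℕ) : ℝ)}

theorem fin_le (y z : ℝ) (p : ℕ → Prop) : {a : ℕ | y < a ∧ (a : ℝ) ≤ z ∧ p a}.Finite :=
  (Set.finite_Iic ⌊z⌋₊).subset fun _ ha => Nat.le_floor ha.2.1

theorem NG_le_NR {S : Set ℕ} {y z y' z' t' : ℝ} {T : ℕ} (hy : y' ≤ y) (hz : z ≤ z') (ht : t' ≤ T) :
    NG S y z T ≤ NR S y' z' t' := by
  unfold NG NR
  refine Set.ncard_le_ncard ?_ (fin_le y' z' _)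
  rintro a ⟨h1, h2, b, h3, h4⟩
  refine ⟨by linarith, by linarith, b, h3, ?_⟩
  have h5 : T < b - a := by exact_mod_cast h4
  have h6 : (T : ℝ) ≤ ((b - a - 1 : ℕ) : ℝ) := by exact_mod_cast (by omega : T ≤ b - a - 1)
  linarith

theorem NR_le_NG {S : Set ℕ} {y z t y' z' t' : ℝ} (hy : y' ≤ y) (hz : z ≤ z') (ht : t' < t + 1) :
    NR S y z t ≤ NG S y' z' t' := by
  unfold NG NR
  refine Set.ncard_le_ncard ?_ (fin_le y' z' _)
  rintro a ⟨h1, h2, b, h3, h4⟩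
  refine ⟨by linarith, by linarith, b, h3, ?_⟩
  have h5 := h3.1
  have h6 : ((b - a : ℕ) : ℝ) = ((b - a - 1 : ℕ) : ℝ) + 1 := by exact_mod_cast (by omega : b - a = b - a - 1 + 1)
  rw [h6]
  linarith

theorem transfer_approx {ρ : ℝ} (hρ : 0 < ρ) {k : ℕ} {b f : ℕ → ℝ} {P : ℝ} (hb0 : ∀ g, 0 ≤ b g) (hb1 : ∀ g, b g ≤ 1)
    (hf : Tendsto (lm f) atTop (𝓝 P)) {h : ℕ → ℕ → ℕ → ℕ → ℝ} {E : ℕ → ℕ → ℕ → ℝ} {E' : ℕ → ℕ → ℝ}
    (h1 : ∀ M, ∀ᶠ D in atTop, ∀ᶠ g in atTop, ∀ x ∈ Ioc (nn ρ g) (nn ρ (g + 1)),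
      |b g - f x| ≤ ∑ i ∈ range k, h M D i x ∧ |b (g + 1) - f x| ≤ ∑ i ∈ range k, h M D i x)
    (h3 : ∀ M, ∀ᶠ D in atTop, ∀ i < k, Tendsto (lm (h M D i)) atTop (𝓝 (E M D i)))
    (h5 : ∀ M, ∀ i < k, Tendsto (fun D => E M D i) atTop (𝓝 (E' M i)))
    (h6 : ∀ i < k, Tendsto (fun M => E' M i) atTop (𝓝 0)) :
    Tendsto (fun M : ℕ => (∑ g ∈ range M, b g) / (M : ℝ)) atTop (𝓝 P) := by
  refine transfer hρ hb0 hb1 fun ε hε => ?_
  have h7 : Tendsto (fun M => ∑ i ∈ range k, E' M i) atTop (𝓝 (∑ _i ∈ range k, (0 : ℝ))) :=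
    tendsto_finsetSum _ fun i hi => h6 i (mem_range.1 hi)
  rw [Finset.sum_const_zero] at h7
  obtain ⟨M, hM⟩ := (h7.eventually (eventually_lt_nhds hε)).exists
  have h8 : Tendsto (fun D => ∑ i ∈ range k, E M D i) atTop (𝓝 (∑ i ∈ range k, E' M i)) :=
    tendsto_finsetSum _ fun i hi => h5 M i (mem_range.1 hi)
  obtain ⟨D, d1, d2, d3⟩ := ((h8.eventually (eventually_lt_nhds hM)).and ((h1 M).and (h3 M))).exists
  have t2 : Tendsto (fun N => ∑ i ∈ range k, lm (h M D i) N) atTop (𝓝 (∑ i ∈ range k, E M D i)) :=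
    tendsto_finsetSum _ fun i hi => d3 i (mem_range.1 hi)
  have t3 : Tendsto (lm fun n => ∑ i ∈ range k, h M D i n) atTop (𝓝 (∑ i ∈ range k, E M D i)) :=
    t2.congr fun N => (lm_sum (range k) (h M D) N).symm
  refine ⟨fun n => f n - ∑ i ∈ range k, h M D i n, fun n => f n + ∑ i ∈ range k, h M D i n, P - ∑ i ∈ range k, E M D i,
    P + ∑ i ∈ range k, E M D i, (hf.sub t3).congr fun N => (lm_sub f (fun n => ∑ i ∈ range k, h M D i n) N).symm,
    (hf.add t3).congr fun N => (lm_add f (fun n => ∑ i ∈ range k, h M D i n) N).symm, by linarith, by linarith, ?_, ?_⟩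
  · filter_upwards [d2] with g hg x hx
    have := (abs_le.1 (hg x hx).1).1
    show f x - ∑ i ∈ range k, h M D i x ≤ b g
    linarith
  · filter_upwards [d2] with g hg x hx
    have := (abs_le.1 (hg x hx).2).2
    show b (g + 1) ≤ f x + ∑ i ∈ range k, h M D i x
    linarith

/-- The ratio of consecutive scales. -/
theorem YY_ratio {ρ : ℝ} (hρ : 0 < ρ) {δ : ℝ} (hδ : 0 < δ) (hδ1 : δ < 1) : ∀ᶠ g : ℕ in atTop, ∀ x ∈ Ioc (nn ρ g) (nn ρ (g + 1)),
    ∀ g' ∈ ({g, g + 1} : Finset ℕ), (1 - δ) * x ≤ YY ρ g' ∧ YY ρ g' ≤ (1 + δ) * x := by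
  have hv : Tendsto vg atTop (𝓝 0) := by
    have h1 : Tendsto (fun g : ℕ => 1 / √(g : ℝ)) atTop (𝓝 0) := tendsto_const_nhds.div_atTop sqrt_tendsto
    refine squeeze_zero' (Eventually.of_forall fun g => (vg_pos g).le) ?_ h1
    filter_upwards [eventually_gt_atTop 0] with g hg
    have h2 : 0 < √(g : ℝ) := Real.sqrt_pos.2 (by exact_mod_cast hg)
    rw [vg_eq]
    refine one_div_le_one_div_of_le h2 ?_
    unfold sg
    have := Real.sqrt_nonneg ((g : ℝ) + 1)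
    linarith
  have hq : Tendsto (fun g : ℕ => vg g + 1 / 4 * (1 / (g : ℝ))) atTop (𝓝 (0 + 1 / 4 * 0)) :=
    hv.add (tendsto_one_div_atTop_nhds_zero_nat.const_mul _)
  rw [mul_zero, add_zero] at hq
  have hl1 : 0 < Real.log (1 + δ) := Real.log_pos (by linarith)
  filter_upwards [hq.eventually (eventually_lt_nhds hl1), eventually_ge_atTop 1] with g h1 h2 x hx g' hg'
  have hg : (0 : ℝ) < g := by exact_mod_cast h2
  have hY0 : 0 < YY ρ g := YY_pos hρ h2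
  have hY1 : 0 < YY ρ (g + 1) := YY_pos hρ (by omega)
  have l9 : Real.log (g + 1 : ℝ) - Real.log g ≤ 1 / g := by
    have e2 := Real.log_le_sub_one_of_pos (show 0 < ((g : ℝ) + 1) / g by positivity)
    rw [Real.log_div (by positivity) (by positivity)] at e2
    have e4 : ((g : ℝ) + 1) / g - 1 = 1 / (g : ℝ) := by
      field_simp
      ring
    linarith
  have l7 : Real.log (YY ρ (g + 1)) - Real.log (YY ρ g) = vg g + 1 / 4 * (Real.log (g + 1) - Real.log g) := by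
    rw [log_YY hρ h2, log_YY hρ (by omega)]
    unfold vg
    push_cast
    ring
  have l8 : YY ρ (g + 1) ≤ (1 + δ) * YY ρ g := by
    rw [← Real.log_le_log_iff hY1 (by positivity), Real.log_mul (by linarith) hY0.ne']
    linarith
  have hx1 : YY ρ g ≤ x := by
    have e1 : YY ρ g < nn ρ g + 1 := Nat.lt_floor_add_one _
    have e2 : ((nn ρ g + 1 : ℕ) : ℝ) ≤ x := by exact_mod_cast (mem_Ioc.1 hx).1
    push_cast at e2
    linarith
  have hx2 : (x : ℝ) ≤ YY ρ (g + 1) := by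
    have e1 : (nn ρ (g + 1) : ℝ) ≤ YY ρ (g + 1) := Nat.floor_le (YY_nonneg hρ _)
    have e2 : (x : ℝ) ≤ nn ρ (g + 1) := by exact_mod_cast (mem_Ioc.1 hx).2
    linarith
  have hx0 : (0 : ℝ) ≤ x := Nat.cast_nonneg _
  have p1 : 0 ≤ δ * x := mul_nonneg hδ.le hx0
  have p2 : δ * YY ρ g ≤ δ * x := mul_le_mul_of_nonneg_left hx1 hδ.le
  have p4 : (1 - δ) * (x : ℝ) ≤ YY ρ g := by
    have e1 : (1 - δ) * (x : ℝ) ≤ (1 - δ) * ((1 + δ) * YY ρ g) := mul_le_mul_of_nonneg_left (hx2.trans l8) (by linarith)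
    have e2 : (1 - δ) * ((1 + δ) * YY ρ g) = YY ρ g - δ ^ 2 * YY ρ g := by ring
    have e3 : 0 ≤ δ ^ 2 * YY ρ g := by positivity
    linarith
  simp only [Finset.mem_insert, Finset.mem_singleton] at hg'
  rcases hg' with h | h
  · rw [h]
    exact ⟨p4, by linarith⟩
  · rw [h]
    constructor <;> linarith

/-- The levels. -/
theorem key_bounds' (Q : ℕ) (u s : ℝ) {ε : ℝ} (hε : 0 < ε) : ∀ᶠ g : ℕ in atTop,
    ∀ x ∈ Ioc (nn (Real.exp (-(cen Q u) / 2)) g) (nn (Real.exp (-(cen Q u) / 2)) (g + 1)), ∀ g' ∈ ({g, g + 1} : Finset ℕ),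
      ((TT Q (u + s - ε) x : ℕ) : ℝ) < g' + s * √(g' : ℝ) + 1 ∧
      (g' : ℝ) + s * √(g' : ℝ) ≤ ((TT Q (u + s + ε) x : ℕ) : ℝ) := by
  filter_upwards [key_bounds Q u s hε, sqrt_tendsto.eventually_ge_atTop |s|] with g h1 h2 x hx g' hg'
  obtain ⟨h3, h4⟩ := h1 x hx
  have h5 : (g : ℝ) + s * √(g : ℝ) ≤ ((g + 1 : ℕ) : ℝ) + s * √((g + 1 : ℕ) : ℝ) := by
    push_cast
    have e1 : |s| * vg g ≤ 1 := by
      have e2 : |s| ≤ sg g := by
        unfold sg
        have := Real.sqrt_nonneg ((g : ℝ) + 1)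
        linarith
      have e3 := mul_le_mul_of_nonneg_right e2 (vg_pos g).le
      rw [mul_comm (sg g), vg_mul_sg] at e3
      exact e3
    have e4 : -(|s| * vg g) ≤ s * vg g := by
      have := mul_le_mul_of_nonneg_right (neg_abs_le s) (vg_pos g).le
      linarith
    have e5 : s * √((g : ℝ) + 1) - s * √(g : ℝ) = s * vg g := by unfold vg; ring
    linarith
  simp only [Finset.mem_insert, Finset.mem_singleton] at hg'
  rcases hg' with h | h
  · rw [h]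
    exact ⟨h3, h5.trans h4⟩
  · rw [h]
    exact ⟨by linarith, h4⟩

end Pool.Agent.H595.SH
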