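import Pool.Agent.H595.SH.ShP

/-!
# The Poisson law for the occurrences of runs, over `g`: conclusion
-/

set_option autoImplicit false

set_option maxHeartbeats 400000

namespace Pool.Agent.H595.SH

open Finset MeasureTheory ProbabilityTheory Filter Pool.Agent.H595.AS Pool.Agent.Q120.AD Pool.Agent.Q120.GM
open scoped Topology Nat

variable {Ω : Type*} {A : Ω → Set ℕ} {Q : ℕ}

theorem one_of_all {ω : Ω} (hp : ∀ (k : ℕ) (θ v : ℕ → ℝ) (c : ℕ → ℕ), (∀ i, 0 ≤ θ i) → (∀ i, θ i ≤ 1) → Monotone θ →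
      Tendsto (lm fun n => ind (∀ i < k, nw A Q ω (θ i) (θ (i + 1)) (v i) n = c i)) atTop
        (𝓝 (∏ i ∈ range k, po (c i + 1) (lam (θ i) (θ (i + 1)) (v i)))))
    {a b : ℝ} (h1 : 0 ≤ a) (h2 : a ≤ b) (h3 : b ≤ 1) (v : ℝ) (c : ℕ) :
    Tendsto (lm fun n => ind (nw A Q ω a b v n = c)) atTop (𝓝 (po (c + 1) (lam a b v))) := by
  have hω := hp 1 (tw a b) (fun _ => v) (fun _ => c) (fun i => by unfold tw; split_ifs <;> linarith)
    (fun i => by unfold tw; split_ifs <;> linarith) (tw_mono h2)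
  rw [Finset.prod_range_one] at hω
  have e0 : tw a b 0 = a := rfl
  have e1 : tw a b (0 + 1) = b := rfl
  rw [e0, e1] at hω
  refine hω.congr fun N => ?_
  congr 1
  funext n
  congr 1
  apply propext
  constructor
  · intro h
    exact h 0 (by norm_num)
  · intro h i hi
    have h2 : i = 0 := by omega
    subst h2
    exact h

theorem nw_NG {ω : Ω} (hinf : ∀ N : ℕ, ∃ n, N < n ∧ n ∈ A ω) {a b : ℝ} (ha : 0 ≤ a) (hb : 0 ≤ b) (v : ℝ) (n : ℕ) :
    nw A Q ω a b v n = NG (A ω) (a * n) (b * n) (TT Q v n : ℕ) := by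
  rw [NG_eq hinf ha hb (Nat.cast_nonneg _) n, Nat.floor_natCast]
  rfl

theorem nw_empty {ω : Ω} {a b : ℝ} (h : b ≤ a) (v : ℝ) (n : ℕ) : nw A Q ω a b v n = 0 := by
  unfold nw
  rw [Finset.Ico_eq_empty_of_le, cn_empty]
  have : zp b n ≤ zp a n := Nat.floor_le_floor (mul_le_mul_of_nonneg_right h (Nat.cast_nonneg _))
  omega

/-- The step size. -/
noncomputable def dd (D : ℕ) : ℝ := 1 / ((D : ℝ) + 2)

theorem dd_pos (D : ℕ) : 0 < dd D := by unfold dd; positivity

theorem dd_lt (D : ℕ) : dd D < 1 := by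
  unfold dd
  rw [div_lt_one (by positivity)]
  have : (0 : ℝ) ≤ D := Nat.cast_nonneg _
  linarith

theorem dd_lim : Tendsto dd atTop (𝓝 0) := by
  unfold dd
  exact tendsto_const_nhds.div_atTop (tendsto_natCast_atTop_atTop.atTop_add tendsto_const_nhds)

/-- One index: all three counts are between the small and the big one. -/
theorem between {ω : Ω} (hinf : ∀ N : ℕ, ∃ n, N < n ∧ n ∈ A ω) {a b w d X t : ℝ} (ha : 0 ≤ a) (hab : a ≤ b) (hd : 0 < d) (hd1 : d < 1)
    {x : ℕ} (h1 : (1 - d) * x ≤ X) (h2 : X ≤ (1 + d) * x) (h3 : ((TT Q (w - d) x : ℕ) : ℝ) < t + 1)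
    (h4 : t ≤ ((TT Q (w + d) x : ℕ) : ℝ)) :
    (nw A Q ω (a * (1 + d)) (max (a * (1 + d)) (b * (1 - d))) (w + d) x ≤ NR (A ω) (a * X) (b * X) t ∧
      nw A Q ω (a * (1 + d)) (max (a * (1 + d)) (b * (1 - d))) (w + d) x ≤ nw A Q ω a b w x) ∧
    (NR (A ω) (a * X) (b * X) t ≤ nw A Q ω (a * (1 - d)) (b * (1 + d)) (w - d) x ∧
      nw A Q ω a b w x ≤ nw A Q ω (a * (1 - d)) (b * (1 + d)) (w - d) x) := by
  have hb : 0 ≤ b := ha.trans hab
  have p1 : 0 ≤ a * d := mul_nonneg ha hd.le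
  have p2 : 0 ≤ b * d := mul_nonneg hb hd.le
  refine ⟨?_, ?_, ?_⟩
  · by_cases h : b * (1 - d) ≤ a * (1 + d)
    · rw [max_eq_left h, nw_empty le_rfl]
      exact ⟨Nat.zero_le _, Nat.zero_le _⟩
    · push Not at h
      rw [max_eq_right h.le]
      refine ⟨?_, nw_mono (by linarith) (by linarith) (by linarith) x⟩
      rw [nw_NG hinf (by positivity) (mul_nonneg hb (by linarith))]
      refine NG_le_NR ?_ ?_ h4
      · have := mul_le_mul_of_nonneg_left h2 ha
        linarith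
      · have := mul_le_mul_of_nonneg_left h1 hb
        linarith
  · rw [nw_NG hinf (mul_nonneg ha (by linarith)) (by positivity)]
    refine NR_le_NG ?_ ?_ h3
    · have := mul_le_mul_of_nonneg_left h1 ha
      linarith
    · have := mul_le_mul_of_nonneg_left h2 hb
      linarith
  · exact nw_mono (by linarith) (by linarith) (by linarith) x

theorem shanks_poisson {ω : Ω} (hinf : ∀ N : ℕ, ∃ n, N < n ∧ n ∈ A ω)
    (hp : ∀ (k : ℕ) (θ v : ℕ → ℝ) (c : ℕ → ℕ), (∀ i, 0 ≤ θ i) → (∀ i, θ i ≤ 1) → Monotone θ →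
      Tendsto (lm fun n => ind (∀ i < k, nw A Q ω (θ i) (θ (i + 1)) (v i) n = c i)) atTop
        (𝓝 (∏ i ∈ range k, po (c i + 1) (lam (θ i) (θ (i + 1)) (v i)))))
    (k : ℕ) {r : ℕ → ℝ} (s : ℕ → ℝ) (c : ℕ → ℕ) (hr0 : ∀ i, 0 ≤ r i) (hr : Monotone r) :
    Tendsto (fun M : ℕ => (∑ g ∈ range M, ind (∀ i < k, NR (A ω) (r i * scale Q g) (r (i + 1) * scale Q g) (g + s i * √(g : ℝ)) = c i)) /
      (M : ℝ)) atTop (𝓝 (∏ i ∈ range k, po (c i + 1) (lam (r i) (r (i + 1)) (s i)))) := by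
  obtain ⟨R, hR⟩ : ∃ R, R = r k + 1 := ⟨_, rfl⟩
  have hR0 : 0 < R := by rw [hR]; linarith [hr0 k]
  obtain ⟨u, hu⟩ : ∃ u, u = -2 * Real.log R := ⟨_, rfl⟩
  obtain ⟨ρ, hρd⟩ : ∃ ρ, ρ = Real.exp (-(cen Q u) / 2) := ⟨_, rfl⟩
  have hρ : 0 < ρ := by rw [hρd]; exact Real.exp_pos _
  have hY : ∀ g, YY ρ g = R * scale Q g := by
    intro g
    rw [hρd, hu]
    exact YY_scale Q hR0 g
  obtain ⟨θ, hθ⟩ : ∃ θ : ℕ → ℝ, θ = fun i => r (min i k) / R := ⟨_, rfl⟩
  have hθn : ∀ i, 0 ≤ θ i := by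
    intro i
    rw [hθ]
    exact div_nonneg (hr0 _) hR0.le
  have hθm : Monotone θ := by
    intro i j hij
    rw [hθ]
    exact div_le_div_of_nonneg_right (hr (min_le_min_right k hij)) hR0.le
  have hθk : ∀ i ≤ k, θ i * R = r i := by
    intro i hi
    rw [hθ]
    show r (min i k) / R * R = r i
    rw [min_eq_left hi, div_mul_cancel₀ _ hR0.ne']
  have hθle : ∀ i, θ i ≤ r k / R := by
    intro i
    rw [hθ]
    exact div_le_div_of_nonneg_right (hr (min_le_right _ _)) hR0.le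
  have hrR : r k / R ≤ 1 := by
    rw [div_le_one hR0, hR]
    linarith
  have hθ1 : ∀ i, θ i ≤ 1 := fun i => (hθle i).trans hrR
  have hlam : ∀ i < k, lam (θ i) (θ (i + 1)) (u + s i) = lam (r i) (r (i + 1)) (s i) := by
    intro i hi
    unfold lam
    rw [← hθk i hi.le, ← hθk (i + 1) hi]
    have e1 : Real.exp (-(u + s i)) = R ^ 2 * Real.exp (-s i) := by
      have e2 : -(u + s i) = Real.log R + Real.log R + -s i := by rw [hu]; ring
      rw [e2, Real.exp_add, Real.exp_add, Real.exp_log hR0]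
      ring
    rw [e1]
    ring
  have hmid := hp k θ (fun i => u + s i) c hθn hθ1 hθm
  have hprod : ∏ i ∈ range k, po (c i + 1) (lam (θ i) (θ (i + 1)) (u + s i)) = ∏ i ∈ range k, po (c i + 1) (lam (r i) (r (i + 1)) (s i)) :=
    Finset.prod_congr rfl fun i hi => by rw [hlam i (mem_range.1 hi)]
  rw [hprod] at hmid
  have hDev : ∀ᶠ D in atTop, ∀ i, θ i * (1 + dd D) ≤ 1 := by
    have h1 : Tendsto (fun D => r k * dd D) atTop (𝓝 (r k * 0)) := dd_lim.const_mul _
    rw [mul_zero] at h1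
    filter_upwards [h1.eventually (eventually_lt_nhds zero_lt_one)] with D hD i
    have h2 : r k / R * (1 + dd D) ≤ 1 := by
      rw [div_mul_eq_mul_div, div_le_one hR0, hR]
      linarith
    exact (mul_le_mul_of_nonneg_right (hθle i) (by linarith [dd_pos D])).trans h2
  have la : ∀ i, Tendsto (fun D => θ i * (1 + dd D)) atTop (𝓝 (θ i)) := fun i => by
    have := (dd_lim.const_add 1).const_mul (θ i)
    rwa [add_zero, mul_one] at this
  have lb : ∀ i, Tendsto (fun D => θ i * (1 - dd D)) atTop (𝓝 (θ i)) := fun i => by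
    have := (dd_lim.const_sub 1).const_mul (θ i)
    rwa [sub_zero, mul_one] at this
  have lc : ∀ i, Tendsto (fun D => max (θ i * (1 + dd D)) (θ (i + 1) * (1 - dd D))) atTop (𝓝 (θ (i + 1))) := fun i => by
    have := (la i).max (lb (i + 1))
    rwa [max_eq_right (hθm (Nat.le_succ i))] at this
  have lp : ∀ i, Tendsto (fun D => u + s i + dd D) atTop (𝓝 (u + s i)) := fun i => by
    have := dd_lim.const_add (u + s i)
    rwa [add_zero] at this
  have lq : ∀ i, Tendsto (fun D => u + s i - dd D) atTop (𝓝 (u + s i)) := fun i => by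
    have := dd_lim.const_sub (u + s i)
    rwa [sub_zero] at this
  refine transfer_approx hρ (k := k) (fun g => ind_nonneg _) (fun g => ind_le_one _) hmid
    (h := fun M D i x => hb M (nw A Q ω (θ i * (1 + dd D)) (max (θ i * (1 + dd D)) (θ (i + 1) * (1 - dd D))) (u + s i + dd D) x)
      (nw A Q ω (θ i * (1 - dd D)) (θ (i + 1) * (1 + dd D)) (u + s i - dd D) x))
    (E := fun M D i => ∑ c ∈ range M, (FM c (lam (θ i * (1 + dd D)) (max (θ i * (1 + dd D)) (θ (i + 1) * (1 - dd D))) (u + s i + dd D)) -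
        FM c (lam (θ i * (1 - dd D)) (θ (i + 1) * (1 + dd D)) (u + s i - dd D))) +
        (1 - FM M (lam (θ i * (1 - dd D)) (θ (i + 1) * (1 + dd D)) (u + s i - dd D))))
    (E' := fun M i => ∑ c ∈ range M, (FM c (lam (θ i) (θ (i + 1)) (u + s i)) - FM c (lam (θ i) (θ (i + 1)) (u + s i))) +
        (1 - FM M (lam (θ i) (θ (i + 1)) (u + s i)))) ?_ ?_ ?_ ?_
  · intro M
    filter_upwards with D
    have hkb : ∀ᶠ g : ℕ in atTop, ∀ i ∈ range k, ∀ x ∈ Ioc (nn ρ g) (nn ρ (g + 1)), ∀ g' ∈ ({g, g + 1} : Finset ℕ),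
        ((TT Q (u + s i - dd D) x : ℕ) : ℝ) < g' + s i * √(g' : ℝ) + 1 ∧
        (g' : ℝ) + s i * √(g' : ℝ) ≤ ((TT Q (u + s i + dd D) x : ℕ) : ℝ) := by
      rw [Filter.eventually_all_finset]
      intro i _
      rw [hρd]
      exact key_bounds' Q u (s i) (dd_pos D)
    filter_upwards [hkb, YY_ratio hρ (dd_pos D) (dd_lt D)] with g g1 g2 x hx
    have hboth : ∀ g' ∈ ({g, g + 1} : Finset ℕ),
        |ind (∀ i < k, NR (A ω) (r i * scale Q g') (r (i + 1) * scale Q g') (g' + s i * √(g' : ℝ)) = c i) -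
          ind (∀ i < k, nw A Q ω (θ i) (θ (i + 1)) (u + s i) x = c i)| ≤
        ∑ i ∈ range k, hb M (nw A Q ω (θ i * (1 + dd D)) (max (θ i * (1 + dd D)) (θ (i + 1) * (1 - dd D))) (u + s i + dd D) x)
          (nw A Q ω (θ i * (1 - dd D)) (θ (i + 1) * (1 + dd D)) (u + s i - dd D) x) := by
      intro g' hg'
      obtain ⟨p1, p2⟩ := g2 x hx g' hg'
      have hbt : ∀ i < k, _ := fun i hi => between (Q := Q) hinf (w := u + s i) (hθn i) (hθm (Nat.le_succ i)) (dd_pos D) (dd_lt D) p1 p2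
        (g1 i (mem_range.2 hi) x hx g' hg').1 (g1 i (mem_range.2 hi) x hx g' hg').2
      have hre : ∀ i ≤ k, θ i * YY ρ g' = r i * scale Q g' := by
        intro i hi
        rw [hY, ← hθk i hi]
        ring
      refine ind_key (fun i hi => ?_) (fun i hi => ?_)
      · have := (hbt i hi).1
        rw [hre i hi.le, hre (i + 1) hi] at this
        exact this
      · have := (hbt i hi).2
        rw [hre i hi.le, hre (i + 1) hi] at this
        exact this
    exact ⟨hboth g (by simp), hboth (g + 1) (by simp)⟩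
  · intro M
    filter_upwards [hDev] with D hD i _
    have hd0 := dd_pos D
    have hd1 := dd_lt D
    have q1 : θ i * (1 - dd D) ≤ θ i := by
      have := mul_nonneg (hθn i) hd0.le
      linarith
    have q2 : θ (i + 1) ≤ θ (i + 1) * (1 + dd D) := by
      have := mul_nonneg (hθn (i + 1)) hd0.le
      linarith
    have q3 : θ (i + 1) * (1 - dd D) ≤ θ (i + 1) := by
      have := mul_nonneg (hθn (i + 1)) hd0.le
      linarith
    refine lm_hb (fun c => one_of_all hp ?_ (le_max_left _ _) ?_ _ c) (fun c => one_of_all hp ?_ ?_ (hD (i + 1)) _ c) M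
    · exact mul_nonneg (hθn i) (by linarith)
    · exact max_le (hD i) (q3.trans (hθ1 _))
    · exact mul_nonneg (hθn i) (by linarith)
    · exact q1.trans ((hθm (Nat.le_succ i)).trans q2)
  · intro M i _
    have ls := lam_lim (la i) (lc i) (lp i)
    have lB := lam_lim (lb i) (la (i + 1)) (lq i)
    exact (tendsto_finsetSum _ fun c _ => (((FM_cont c).tendsto _).comp ls).sub (((FM_cont c).tendsto _).comp lB)).add
      (tendsto_const_nhds.sub (((FM_cont M).tendsto _).comp lB))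
  · intro i _
    have h2 : Tendsto (fun M => 1 - FM M (lam (θ i) (θ (i + 1)) (u + s i))) atTop (𝓝 (1 - 1)) := tendsto_const_nhds.sub (FM_lim _)
    rw [sub_self] at h2
    refine h2.congr fun M => ?_
    simp only [sub_self, Finset.sum_const_zero, zero_add]

end Pool.Agent.H595.SH
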